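import Mathlib

set_option autoImplicit false

namespace Pool.Agent.Helper41.Hilb

open MeasureTheory

variable {X Y : Type} [TopologicalSpace X] [TopologicalSpace Y]

/-- `π` is a factor map from `(X,T)` onto `(Y,S)`. -/
def IsFactorMap (T : X ≃ₜ X) (S : Y ≃ₜ Y) (π : X → Y) : Prop :=
  Continuous π ∧ Function.Surjective π ∧ ∀ x, π (T x) = S (π x)

/-- `π` is almost 1-1: there is a dense `G_δ` set of points `x` with `π⁻¹(π x) = {x}`. -/
def IsAlmostOneOne (π : X → Y) : Prop :=
  ∃ X₀ : Set X, Dense X₀ ∧ IsGδ X₀ ∧ ∀ x ∈ X₀, π ⁻¹' {π x} = {x}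

/-- `K` is a compact subgroup of `Homeo(X)` (compactness in the compact-open topology). -/
def IsCompactSubgroup (K : Subgroup (X ≃ₜ X)) : Prop :=
  IsCompact ((fun k : X ≃ₜ X => (⟨k, k.continuous⟩ : C(X, X))) '' (K : Set (X ≃ₜ X)))

/-- `(Y,S)` is a group-factor of `(X,T)`: for some compact subgroup `K` of `Homeo(X)` whose
elements commute with `T`, `(Y,S)` is the quotient system `(X/K,T)`, that is, there is a factor
map onto `(Y,S)` whose fibres are exactly the `K`-orbits. -/
def IsGroupFactor (S : Y ≃ₜ Y) (T : X ≃ₜ X) : Prop :=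
  ∃ K : Subgroup (X ≃ₜ X), IsCompactSubgroup K ∧ (∀ k ∈ K, ∀ x, k (T x) = T (k x)) ∧
    ∃ π : X → Y, IsFactorMap T S π ∧ ∀ x x', π x = π x' ↔ ∃ k ∈ K, k x = x'

/-- `x₀` has a dense two-sided orbit. -/
def IsTransitivePoint (T : X ≃ₜ X) (x₀ : X) : Prop :=
  Dense (Set.range fun n : ℤ => (T ^ n : X ≃ₜ X) x₀)

/-- Recurrent-transitive: there is a transitive point and there are no isolated points. -/
def IsRecurrentTransitive (T : X ≃ₜ X) : Prop :=
  (∃ x₀, IsTransitivePoint T x₀) ∧ ∀ x : X, ¬ IsOpen ({x} : Set X)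

/-- The Fourier-Stieltjes transform of a positive Borel measure on the circle `ℝ/ℤ`. -/
noncomputable def transform (μ : Measure UnitAddCircle) (n : ℤ) : ℂ := ∫ x, fourier n x ∂μ

/-- `B(ℤ)`: the complex linear combinations of Fourier-Stieltjes transforms of finite positive
Borel measures on the circle, that is, the transforms of complex Borel measures. -/
def BZ : Submodule ℂ (ℤ → ℂ) :=
  Submodule.span ℂ {g | ∃ μ : Measure UnitAddCircle, IsFiniteMeasure μ ∧ g = transform μ}

/-- `H(ℤ)`: the closure of `B(ℤ)` in the supremum norm. -/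
def HZ : Set (ℤ → ℂ) := {f | ∀ ε : ℝ, 0 < ε → ∃ g ∈ BZ, ∀ n, ‖f n - g n‖ ≤ ε}

/-- A point-transitive system is a Hilbert system if for some transitive point `x₀` all functions
`n ↦ F (T^n x₀)`, `F ∈ C(X)`, belong to `H(ℤ)`. -/
def IsHilbertSystem (T : X ≃ₜ X) : Prop :=
  ∃ x₀, IsTransitivePoint T x₀ ∧ ∀ F : C(X, ℂ), (fun n : ℤ => F ((T ^ n : X ≃ₜ X) x₀)) ∈ HZ

/-- The map that a unitary operator `U` induces on `H` with its weak topology. -/
noncomputable def weakMap {H : Type} [NormedAddCommGroup H] [InnerProductSpace ℂ H] (U : H ≃ₗᵢ[ℂ] H)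
    (z : WeakSpace ℂ H) : WeakSpace ℂ H := toWeakSpace ℂ H (U ((toWeakSpace ℂ H).symm z))

/-- `(X,T)` is isomorphic to `(Z,U|Z)`, where `Z` is a weakly compact set with `U Z = Z`, carrying
the weak topology. -/
def IsModel (T : X ≃ₜ X) {H : Type} [NormedAddCommGroup H] [InnerProductSpace ℂ H]
    (U : H ≃ₗᵢ[ℂ] H) (Z : Set (WeakSpace ℂ H)) : Prop :=
  IsCompact Z ∧ weakMap U '' Z = Z ∧
    ∃ e : X ≃ₜ Z, ∀ x, (e (T x) : WeakSpace ℂ H) = weakMap U (e x)

/-- `(X,T)` is isomorphic to `(Z,U|Z)` for some unitary operator `U` on the Hilbert space `H` and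
some weakly compact set `Z` with `U Z = Z`. -/
def IsRepresentedOn (T : X ≃ₜ X) (H : Type) [NormedAddCommGroup H] [InnerProductSpace ℂ H] :
    Prop :=
  ∃ (U : H ≃ₗᵢ[ℂ] H) (Z : Set (WeakSpace ℂ H)), IsModel T U Z

/-- A metrizable system `(X,T)` is Hilbert-representable if it is isomorphic to `(Z,U|Z)` for a
unitary operator `U` on a Hilbert space and a weakly compact set `Z` with `U Z = Z`, carrying the
weak topology. -/
def IsHilbertRepresentable (T : X ≃ₜ X) : Prop :=
  TopologicalSpace.MetrizableSpace X ∧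
    ∃ (H : Type) (_ : NormedAddCommGroup H) (_ : InnerProductSpace ℂ H) (_ : CompleteSpace H),
      IsRepresentedOn T H

/-- `(Y,S)` is a group-factor of some Hilbert-representable system. -/
def IsGroupFactorOfHR (S : Y ≃ₜ Y) : Prop :=
  ∃ (X : Type) (_ : TopologicalSpace X) (_ : CompactSpace X) (_ : T2Space X) (T : X ≃ₜ X),
    IsHilbertRepresentable T ∧ IsGroupFactor S T

/-- `(Y,S)` is the image of some Hilbert-representable system under an almost 1-1 factor map. -/
def IsAlmostOneOneImageOfHR (S : Y ≃ₜ Y) : Prop :=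
  ∃ (X : Type) (_ : TopologicalSpace X) (_ : CompactSpace X) (_ : T2Space X) (T : X ≃ₜ X),
    IsHilbertRepresentable T ∧ ∃ π : X → Y, IsFactorMap T S π ∧ IsAlmostOneOne π

end Pool.Agent.Helper41.Hilb
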