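import Mathlib
import Pool.Agent.Helper41.HilbDefs

set_option autoImplicit false

namespace Pool.Agent.Helper41.Hilb

open MeasureTheory

theorem norm_fourier_apply (n : ℤ) (x : UnitAddCircle) : ‖(fourier n x : ℂ)‖ = 1 := by
  rw [fourier_apply]; exact Circle.norm_coe _

theorem fourier_add_point (n : ℤ) (x y : UnitAddCircle) :
    (fourier n (x + y) : ℂ) = fourier n x * fourier n y := by
  rw [fourier_apply, fourier_apply, fourier_apply, smul_add, AddCircle.toCircle_add]
  simp

theorem fourier_neg_point (n : ℤ) (x : UnitAddCircle) :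
    (fourier n (-x) : ℂ) = (starRingEnd ℂ) (fourier n x) := by
  rw [← fourier_neg, fourier_apply, fourier_apply]
  simp

theorem integrable_fourier (μ : Measure UnitAddCircle) [IsFiniteMeasure μ] (n : ℤ) :
    Integrable (fun x => (fourier n x : ℂ)) μ := by
  refine Integrable.of_bound (fourier n).continuous.aestronglyMeasurable 1 ?_
  exact Filter.Eventually.of_forall fun x => (norm_fourier_apply n x).le

theorem transform_mem (μ : Measure UnitAddCircle) [IsFiniteMeasure μ] : transform μ ∈ BZ :=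
  Submodule.subset_span ⟨μ, inferInstance, rfl⟩

theorem norm_transform_le (μ : Measure UnitAddCircle) [IsFiniteMeasure μ] (n : ℤ) :
    ‖transform μ n‖ ≤ μ.real Set.univ := by
  unfold transform
  refine (norm_integral_le_of_norm_le_const (C := 1)
    (Filter.Eventually.of_forall fun x => (norm_fourier_apply n x).le)).trans ?_
  simp

theorem one_mem_BZ : (1 : ℤ → ℂ) ∈ BZ := by
  have h : (1 : ℤ → ℂ) = transform (Measure.dirac 0) := by
    funext n
    simp [transform]
  rw [h]
  exact transform_mem _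

theorem transform_mul (μ ν : Measure UnitAddCircle) [IsFiniteMeasure μ] [IsFiniteMeasure ν] :
    transform μ * transform ν = transform ((μ.prod ν).map fun p => p.1 + p.2) := by
  funext n
  simp only [transform, Pi.mul_apply]
  rw [integral_map (by fun_prop) (fourier n).continuous.aestronglyMeasurable]
  simp only [fourier_add_point]
  rw [integral_prod_mul (fun x => (fourier n x : ℂ)) (fun x => (fourier n x : ℂ))]

theorem mul_mem_BZ {f g : ℤ → ℂ} (hf : f ∈ BZ) (hg : g ∈ BZ) : f * g ∈ BZ := by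
  unfold BZ at hf hg
  induction hf, hg using Submodule.span_induction₂ with
  | mem_mem x y hx hy =>
    obtain ⟨μ, hμ, rfl⟩ := hx
    obtain ⟨ν, hν, rfl⟩ := hy
    rw [transform_mul]
    exact transform_mem _
  | zero_left y hy => rw [zero_mul]; exact BZ.zero_mem
  | zero_right x hx => rw [mul_zero]; exact BZ.zero_mem
  | add_left x y z _ _ _ h1 h2 => rw [add_mul]; exact BZ.add_mem h1 h2
  | add_right x y z _ _ _ h1 h2 => rw [mul_add]; exact BZ.add_mem h1 h2
  | smul_left r x y _ _ h => rw [smul_mul_assoc]; exact BZ.smul_mem _ h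
  | smul_right r x y _ _ h => rw [mul_smul_comm]; exact BZ.smul_mem _ h

theorem conj_transform (μ : Measure UnitAddCircle) [IsFiniteMeasure μ] :
    star (transform μ) = transform (μ.map fun x => -x) := by
  funext n
  simp only [transform, Pi.star_apply]
  rw [integral_map (by fun_prop) (fourier n).continuous.aestronglyMeasurable]
  simp only [fourier_neg_point]
  rw [integral_conj]
  rfl

theorem star_mem_BZ {f : ℤ → ℂ} (hf : f ∈ BZ) : star f ∈ BZ := by
  unfold BZ at hf
  induction hf using Submodule.span_induction with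
  | mem x hx =>
    obtain ⟨μ, hμ, rfl⟩ := hx
    rw [conj_transform]
    exact transform_mem _
  | zero => rw [star_zero]; exact BZ.zero_mem
  | add x y _ _ h1 h2 => rw [star_add]; exact BZ.add_mem h1 h2
  | smul r x _ h => rw [star_smul]; exact BZ.smul_mem _ h

/-- bounded nonnegative continuous densities -/
theorem density_mem (μ : Measure UnitAddCircle) [IsFiniteMeasure μ] (d : C(UnitAddCircle, ℝ))
    (hd : ∀ x, 0 ≤ d x) :
    (fun n : ℤ => ∫ x, ((d x : ℝ) : ℂ) * fourier n x ∂μ) ∈ BZ := by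
  let D : UnitAddCircle → NNReal := fun x => ⟨d x, hd x⟩
  have hm : Measurable D := d.continuous.measurable.subtype_mk
  have hfin : IsFiniteMeasure (μ.withDensity fun x => (D x : ENNReal)) := by
    refine isFiniteMeasure_withDensity ?_
    obtain ⟨C, hC⟩ := (isCompact_range d.continuous).bddAbove
    refine ((lintegral_mono (g := fun _ => ENNReal.ofReal C) ?_).trans_lt ?_).ne
    · intro x
      show (D x : ENNReal) ≤ ENNReal.ofReal C
      rw [ENNReal.ofReal, ENNReal.coe_le_coe]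
      exact NNReal.coe_le_coe.1 (by
        show d x ≤ (C.toNNReal : ℝ)
        exact (hC ⟨x, rfl⟩).trans (Real.le_coe_toNNReal C))
    · rw [lintegral_const]
      exact ENNReal.mul_lt_top ENNReal.ofReal_lt_top (measure_lt_top _ _)
  have h : (fun n : ℤ => ∫ x, ((d x : ℝ) : ℂ) * fourier n x ∂μ) =
      transform (μ.withDensity fun x => (D x : ENNReal)) := by
    funext n
    unfold transform
    rw [integral_withDensity_eq_integral_smul hm]
    refine integral_congr_ae (Filter.Eventually.of_forall fun x => ?_)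
    show ((d x : ℝ) : ℂ) * fourier n x = D x • (fourier n x : ℂ)
    rw [NNReal.smul_def, Complex.real_smul]
    rfl
  rw [h]
  exact transform_mem _

theorem integrable_density (μ : Measure UnitAddCircle) [IsFiniteMeasure μ]
    (d : C(UnitAddCircle, ℝ)) (n : ℤ) :
    Integrable (fun x => ((d x : ℝ) : ℂ) * fourier n x) μ := by
  obtain ⟨C, hC⟩ := (isCompact_range (continuous_norm.comp d.continuous)).bddAbove
  refine Integrable.of_bound (Continuous.aestronglyMeasurable (by fun_prop)) C ?_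
  refine Filter.Eventually.of_forall fun x => ?_
  rw [norm_mul, norm_fourier_apply, mul_one, Complex.norm_real]
  exact hC ⟨x, rfl⟩

theorem transform_shift_mem (μ : Measure UnitAddCircle) [IsFiniteMeasure μ] (m : ℤ) :
    (fun n : ℤ => transform μ (n + m)) ∈ BZ := by
  let d1 : C(UnitAddCircle, ℝ) := ⟨fun x => 1 + (fourier m x : ℂ).re, by fun_prop⟩
  let d2 : C(UnitAddCircle, ℝ) := ⟨fun x => 1 + (fourier m x : ℂ).im, by fun_prop⟩
  have h1 : ∀ x, 0 ≤ d1 x := by
    intro x
    have := (Complex.abs_re_le_norm (fourier m x : ℂ)).trans (norm_fourier_apply m x).le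
    have := (abs_le.1 this).1
    show 0 ≤ 1 + (fourier m x : ℂ).re
    linarith
  have h2 : ∀ x, 0 ≤ d2 x := by
    intro x
    have := (Complex.abs_im_le_norm (fourier m x : ℂ)).trans (norm_fourier_apply m x).le
    have := (abs_le.1 this).1
    show 0 ≤ 1 + (fourier m x : ℂ).im
    linarith
  have h : (fun n : ℤ => transform μ (n + m)) =
      (fun n : ℤ => ∫ x, ((d1 x : ℝ) : ℂ) * fourier n x ∂μ) +
      Complex.I • (fun n : ℤ => ∫ x, ((d2 x : ℝ) : ℂ) * fourier n x ∂μ) -
      (1 + Complex.I) • transform μ := by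
    funext n
    simp only [Pi.add_apply, Pi.sub_apply, Pi.smul_apply, smul_eq_mul, transform]
    rw [← integral_const_mul, ← integral_const_mul, ← integral_add, ← integral_sub]
    · refine integral_congr_ae (Filter.Eventually.of_forall fun x => ?_)
      show (fourier (n + m) x : ℂ) = ((1 + (fourier m x : ℂ).re : ℝ) : ℂ) * fourier n x +
        Complex.I * (((1 + (fourier m x : ℂ).im : ℝ) : ℂ) * fourier n x) -
        (1 + Complex.I) * fourier n x
      rw [fourier_add]
      have := Complex.re_add_im (fourier m x : ℂ)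
      push_cast
      linear_combination (-(fourier n x : ℂ)) * this
    · exact (integrable_density μ d1 n).add ((integrable_density μ d2 n).const_mul _)
    · exact (integrable_fourier μ n).const_mul _
    · exact integrable_density μ d1 n
    · exact (integrable_density μ d2 n).const_mul _
  rw [h]
  exact BZ.sub_mem (BZ.add_mem (density_mem μ d1 h1) (BZ.smul_mem _ (density_mem μ d2 h2)))
    (BZ.smul_mem _ (transform_mem μ))

theorem shift_mem_BZ {f : ℤ → ℂ} (hf : f ∈ BZ) (m : ℤ) : (fun n => f (n + m)) ∈ BZ := by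
  unfold BZ at hf
  induction hf using Submodule.span_induction with
  | mem x hx =>
    obtain ⟨μ, hμ, rfl⟩ := hx
    exact transform_shift_mem μ m
  | zero => exact BZ.zero_mem
  | add x y _ _ h1 h2 => exact BZ.add_mem h1 h2
  | smul r x _ h => exact BZ.smul_mem r h

theorem bounded_BZ {f : ℤ → ℂ} (hf : f ∈ BZ) : ∃ C, ∀ n, ‖f n‖ ≤ C := by
  unfold BZ at hf
  induction hf using Submodule.span_induction with
  | mem x hx =>
    obtain ⟨μ, hμ, rfl⟩ := hx
    exact ⟨_, norm_transform_le μ⟩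
  | zero => exact ⟨0, fun n => by simp⟩
  | add x y _ _ h1 h2 =>
    obtain ⟨C1, h1⟩ := h1
    obtain ⟨C2, h2⟩ := h2
    exact ⟨C1 + C2, fun n => (norm_add_le _ _).trans (add_le_add (h1 n) (h2 n))⟩
  | smul r x _ h =>
    obtain ⟨C, h⟩ := h
    refine ⟨‖r‖ * C, fun n => ?_⟩
    simp only [Pi.smul_apply, norm_smul]
    exact mul_le_mul_of_nonneg_left (h n) (norm_nonneg _)

theorem BZ_subset_HZ {f : ℤ → ℂ} (hf : f ∈ BZ) : f ∈ HZ :=
  fun ε hε => ⟨f, hf, fun n => by simpa using hε.le⟩

theorem bounded_HZ {f : ℤ → ℂ} (hf : f ∈ HZ) : ∃ C, 0 ≤ C ∧ ∀ n, ‖f n‖ ≤ C := by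
  obtain ⟨g, hg, h⟩ := hf 1 one_pos
  obtain ⟨C, hC⟩ := bounded_BZ hg
  refine ⟨1 + C, ?_, fun n => ?_⟩
  · have := (norm_nonneg _).trans (hC 0); linarith
  · calc ‖f n‖ = ‖(f n - g n) + g n‖ := by rw [sub_add_cancel]
      _ ≤ ‖f n - g n‖ + ‖g n‖ := norm_add_le _ _
      _ ≤ 1 + C := add_le_add (h n) (hC n)

theorem add_mem_HZ {f g : ℤ → ℂ} (hf : f ∈ HZ) (hg : g ∈ HZ) : (fun n => f n + g n) ∈ HZ := by
  intro ε hε
  obtain ⟨f', hf', h1⟩ := hf (ε / 2) (by positivity)
  obtain ⟨g', hg', h2⟩ := hg (ε / 2) (by positivity)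
  refine ⟨f' + g', BZ.add_mem hf' hg', fun n => ?_⟩
  calc ‖f n + g n - (f' n + g' n)‖ = ‖(f n - f' n) + (g n - g' n)‖ := by congr 1; ring
    _ ≤ ‖f n - f' n‖ + ‖g n - g' n‖ := norm_add_le _ _
    _ ≤ ε / 2 + ε / 2 := add_le_add (h1 n) (h2 n)
    _ = ε := by ring

theorem mul_mem_HZ {f g : ℤ → ℂ} (hf : f ∈ HZ) (hg : g ∈ HZ) : (fun n => f n * g n) ∈ HZ := by
  intro ε hε
  obtain ⟨A, hA0, hA⟩ := bounded_HZ hf
  obtain ⟨g', hg', h2⟩ := hg (ε / (2 * (A + 1))) (by positivity)
  obtain ⟨B, hB⟩ := bounded_BZ hg'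
  have hB0 : 0 ≤ B := (norm_nonneg _).trans (hB 0)
  obtain ⟨f', hf', h1⟩ := hf (ε / (2 * (B + 1))) (by positivity)
  refine ⟨f' * g', mul_mem_BZ hf' hg', fun n => ?_⟩
  calc ‖f n * g n - f' n * g' n‖ = ‖f n * (g n - g' n) + (f n - f' n) * g' n‖ := by
        congr 1; ring
    _ ≤ ‖f n‖ * ‖g n - g' n‖ + ‖f n - f' n‖ * ‖g' n‖ := by
        refine (norm_add_le _ _).trans ?_
        rw [norm_mul, norm_mul]
    _ ≤ A * (ε / (2 * (A + 1))) + (ε / (2 * (B + 1))) * B := by
        refine add_le_add ?_ ?_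
        · exact mul_le_mul (hA n) (h2 n) (norm_nonneg _) hA0
        · exact mul_le_mul (h1 n) (hB n) (norm_nonneg _) (by positivity)
    _ ≤ (A + 1) * (ε / (2 * (A + 1))) + (ε / (2 * (B + 1))) * (B + 1) := by
        gcongr <;> linarith
    _ = ε := by field_simp; ring

theorem const_mem_HZ (c : ℂ) : (fun _ : ℤ => c) ∈ HZ := by
  have : (fun _ : ℤ => c) = c • (1 : ℤ → ℂ) := by funext n; simp
  rw [this]
  exact BZ_subset_HZ (BZ.smul_mem _ one_mem_BZ)

theorem star_mem_HZ {f : ℤ → ℂ} (hf : f ∈ HZ) : (fun n => star (f n)) ∈ HZ := by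
  intro ε hε
  obtain ⟨g, hg, h⟩ := hf ε hε
  refine ⟨star g, star_mem_BZ hg, fun n => ?_⟩
  rw [Pi.star_apply, ← star_sub, norm_star]
  exact h n

theorem shift_mem_HZ {f : ℤ → ℂ} (hf : f ∈ HZ) (m : ℤ) : (fun n => f (n + m)) ∈ HZ := by
  intro ε hε
  obtain ⟨g, hg, h⟩ := hf ε hε
  exact ⟨_, shift_mem_BZ hg m, fun n => h (n + m)⟩

theorem closed_HZ {f : ℤ → ℂ} (hf : ∀ ε : ℝ, 0 < ε → ∃ g ∈ HZ, ∀ n, ‖f n - g n‖ ≤ ε) :
    f ∈ HZ := by
  intro ε hε
  obtain ⟨g, hg, h1⟩ := hf (ε / 2) (by positivity)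
  obtain ⟨g', hg', h2⟩ := hg (ε / 2) (by positivity)
  refine ⟨g', hg', fun n => ?_⟩
  calc ‖f n - g' n‖ = ‖(f n - g n) + (g n - g' n)‖ := by congr 1; ring
    _ ≤ ‖f n - g n‖ + ‖g n - g' n‖ := norm_add_le _ _
    _ ≤ ε / 2 + ε / 2 := add_le_add (h1 n) (h2 n)
    _ = ε := by ring

theorem poly_mem_HZ {φ : ℤ → ℝ} (hφ : (fun n => (φ n : ℂ)) ∈ HZ) (p : Polynomial ℝ) :
    (fun n => ((p.eval (φ n) : ℝ) : ℂ)) ∈ HZ := by
  induction p using Polynomial.induction_on' with
  | add p q hp hq =>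
    have := add_mem_HZ hp hq
    have e : (fun n => (((p + q).eval (φ n) : ℝ) : ℂ)) =
        fun n => ((p.eval (φ n) : ℝ) : ℂ) + ((q.eval (φ n) : ℝ) : ℂ) := by
      funext n; simp
    rw [e]; exact this
  | monomial k a =>
    induction k with
    | zero =>
      have := const_mem_HZ (a : ℂ)
      have e : (fun n => (((Polynomial.monomial 0 a).eval (φ n) : ℝ) : ℂ)) =
          fun _ => (a : ℂ) := by
        funext n; simp
      rw [e]; exact this
    | succ k ih =>
      have := mul_mem_HZ ih hφ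
      have e : (fun n => (((Polynomial.monomial (k + 1) a).eval (φ n) : ℝ) : ℂ)) =
          fun n => (((Polynomial.monomial k a).eval (φ n) : ℝ) : ℂ) * (φ n : ℂ) := by
        funext n; simp [pow_succ]; ring
      rw [e]; exact this

theorem comp_mem_HZ {φ : ℤ → ℝ} (hφ : (fun n => (φ n : ℂ)) ∈ HZ) {a b : ℝ}
    (hab : ∀ n, φ n ∈ Set.Icc a b) (F : ℝ → ℝ) (hF : Continuous F) :
    (fun n => ((F (φ n) : ℝ) : ℂ)) ∈ HZ := by
  refine closed_HZ fun ε hε => ?_
  obtain ⟨p, hp⟩ := exists_polynomial_near_of_continuousOn a b F hF.continuousOn ε hε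
  refine ⟨_, poly_mem_HZ hφ p, fun n => ?_⟩
  rw [← Complex.ofReal_sub, Complex.norm_real, Real.norm_eq_abs, abs_sub_comm]
  exact (hp _ (hab n)).le

end Pool.Agent.Helper41.Hilb
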