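import Mathlib
import Pool.Agent.Helper41.HilbDefs

set_option autoImplicit false

namespace Pool.Agent.Helper41.Hilb

open MeasureTheory

variable {X Y : Type} [TopologicalSpace X] [TopologicalSpace Y]

/-- from the weakly compact model to a weakly continuous injection -/
theorem IsHilbertRepresentable.exists_map {T : X ≃ₜ X} (h : IsHilbertRepresentable T) :
    TopologicalSpace.MetrizableSpace X ∧
    ∃ (H : Type) (_ : NormedAddCommGroup H) (_ : InnerProductSpace ℂ H) (_ : CompleteSpace H)
      (U : H ≃ₗᵢ[ℂ] H) (α : X → H), Function.Injective α ∧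
      (∀ ξ : H, Continuous fun x => inner ℂ ξ (α x)) ∧ ∀ x, α (T x) = U (α x) := by
  obtain ⟨hm, H, i1, i2, i3, U, Z, -, -, e, he⟩ := h
  refine ⟨hm, H, i1, i2, i3, U, fun x => (toWeakSpace ℂ H).symm (e x : WeakSpace ℂ H), ?_, ?_,
    fun x => ?_⟩
  · intro x y hxy
    exact e.injective (Subtype.ext ((toWeakSpace ℂ H).symm.injective hxy))
  · intro ξ
    have h1 : Continuous fun z : WeakSpace ℂ H => (innerSL ℂ ξ) ((toWeakSpace ℂ H).symm z) :=
      WeakBilin.eval_continuous (topDualPairing ℂ H).flip (innerSL ℂ ξ)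
    exact h1.comp (continuous_subtype_val.comp e.continuous)
  · show (toWeakSpace ℂ H).symm (e (T x) : WeakSpace ℂ H) =
      U ((toWeakSpace ℂ H).symm (e x : WeakSpace ℂ H))
    rw [he x]
    unfold weakMap
    rw [LinearEquiv.symm_apply_apply]

/-- from a weakly continuous injection to the weakly compact model -/
theorem isHilbertRepresentable_of_map [CompactSpace X] [TopologicalSpace.MetrizableSpace X]
    {T : X ≃ₜ X} (H : Type) [NormedAddCommGroup H] [InnerProductSpace ℂ H] [CompleteSpace H]
    (U : H ≃ₗᵢ[ℂ] H) (α : X → H) (hinj : Function.Injective α)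
    (hcont : ∀ ξ : H, Continuous fun x => inner ℂ ξ (α x)) (hα : ∀ x, α (T x) = U (α x)) :
    IsHilbertRepresentable T := by
  set β : X → WeakSpace ℂ H := fun x => toWeakSpace ℂ H (α x) with hβ
  have hβc : Continuous β := by
    refine WeakBilin.continuous_of_continuous_eval (topDualPairing ℂ H).flip ?_
    intro f
    have h1 := hcont ((InnerProductSpace.toDual ℂ H).symm f)
    refine h1.congr ?_
    intro x
    rw [InnerProductSpace.toDual_symm_apply]
    rfl
  have hβinj : Function.Injective β := (toWeakSpace ℂ H).injective.comp hinj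
  have hce : Topology.IsClosedEmbedding β := hβc.isClosedEmbedding hβinj
  refine ⟨inferInstance, H, inferInstance, inferInstance, inferInstance, U, Set.range β,
    isCompact_range hβc, ?_, hce.isEmbedding.toHomeomorph, ?_⟩
  · ext z
    constructor
    · rintro ⟨_, ⟨x, rfl⟩, rfl⟩
      refine ⟨T x, ?_⟩
      simp [hβ, hα, weakMap]
    · rintro ⟨x, rfl⟩
      refine ⟨β (T.symm x), ⟨_, rfl⟩, ?_⟩
      simp only [hβ, weakMap, LinearEquiv.symm_apply_apply]
      rw [← hα, Homeomorph.apply_symm_apply]
  · intro x
    show β (T x) = weakMap U (β x)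
    simp [hβ, hα, weakMap]

end Pool.Agent.Helper41.Hilb
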