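import Mathlib

set_option autoImplicit false

namespace Pool.Agent.Helper41.Null

open scoped RealInnerProductSpace

variable {E : Type*} [NormedAddCommGroup E] [InnerProductSpace ℝ E]

/-- signed vector coded by a letter -/
noncomputable def letter {κ : Type} (T : κ → E) : Option (κ × Bool) → E
  | none => 0
  | some (i, true) => T i
  | some (i, false) => -T i

/-- signed sum coded by a word -/
noncomputable def word {κ : Type} (T : κ → E) (s : ℝ) {k : ℕ} (c : Fin k → Option (κ × Bool)) : E :=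
  s • ∑ t, letter T (c t)

lemma word_cons {κ : Type} (T : κ → E) (s : ℝ) {k : ℕ} (a : Option (κ × Bool))
    (c : Fin k → Option (κ × Bool)) :
    word T s (Fin.cons a c : Fin (k + 1) → Option (κ × Bool)) = s • letter T a + word T s c := by
  simp [word, Fin.sum_univ_succ, smul_add]

theorem greedy {κ : Type} (T : κ → E) (P : κ → Prop) (R η : ℝ) (hR : 0 < R) (hη : 0 < η)
    (hT : ∀ i, P i → ‖T i‖ ≤ R) (v : E) (k : ℕ) :
    ∃ c : Fin k → Option (κ × Bool),
      (∀ i, P i → |⟪v - word T (η / R ^ 2) c, T i⟫| ≤ η) ∨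
        ‖v - word T (η / R ^ 2) c‖ ^ 2 ≤ ‖v‖ ^ 2 - k * (η ^ 2 / R ^ 2) := by
  induction k with
  | zero =>
    refine ⟨Fin.elim0, Or.inr ?_⟩
    simp [word]
  | succ k ih =>
    obtain ⟨c, hc⟩ := ih
    by_cases hgood : ∀ i, P i → |⟪v - word T (η / R ^ 2) c, T i⟫| ≤ η
    · refine ⟨Fin.cons none c, Or.inl ?_⟩
      rw [word_cons]
      simpa [letter] using hgood
    · have hc' := hc.resolve_left hgood
      push Not at hgood
      obtain ⟨i, hPi, hi⟩ := hgood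
      set w := word T (η / R ^ 2) c with hw
      have hTi := hT i hPi
      have hs : 0 < η / R ^ 2 := by positivity
      -- choose the sign
      obtain ⟨b, hb⟩ : ∃ b : Bool, ⟪v - w, letter T (some (i, b))⟫ = |⟪v - w, T i⟫| := by
        rcases le_total 0 ⟪v - w, T i⟫ with h | h
        · exact ⟨true, by simp [letter, abs_of_nonneg h]⟩
        · exact ⟨false, by simp [letter, abs_of_nonpos h, inner_neg_right]⟩
      have hnl : ‖letter T (some (i, b))‖ ≤ R := by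
        cases b <;> simp [letter, hTi]
      refine ⟨Fin.cons (some (i, b)) c, Or.inr ?_⟩
      rw [word_cons, ← hw]
      have h1 : v - ((η / R ^ 2) • letter T (some (i, b)) + w) =
          (v - w) - (η / R ^ 2) • letter T (some (i, b)) := by abel
      rw [h1, norm_sub_sq_real, inner_smul_right, hb, norm_smul, Real.norm_of_nonneg hs.le]
      have h2 : (η / R ^ 2 * ‖letter T (some (i, b))‖) ^ 2 ≤ η ^ 2 / R ^ 2 := by
        have : (η / R ^ 2 * ‖letter T (some (i, b))‖) ^ 2 ≤ (η / R ^ 2 * R) ^ 2 := by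
          gcongr
        refine this.trans (le_of_eq ?_)
        field_simp
      have h3 : η ^ 2 / R ^ 2 ≤ (η / R ^ 2) * |⟪v - w, T i⟫| := by
        have : η ^ 2 / R ^ 2 = (η / R ^ 2) * η := by ring
        rw [this]
        gcongr
      push_cast
      nlinarith

lemma abs_sqrt_sub_sqrt_le (a b : ℝ) (ha : 0 ≤ a) : |√a - √b| ≤ √|a - b| := by
  rcases le_total 0 b with hb | hb
  · apply Real.le_sqrt_of_sq_le
    rw [sq_abs]
    have h1 := Real.sq_sqrt ha
    have h2 := Real.sq_sqrt hb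
    have h3 := Real.sqrt_nonneg a
    have h4 := Real.sqrt_nonneg b
    rcases le_total (√a) (√b) with h | h
    · have h5 : b - a ≤ |a - b| := by rw [abs_sub_comm]; exact le_abs_self _
      nlinarith [mul_nonneg h3 (sub_nonneg.mpr h)]
    · have h5 : a - b ≤ |a - b| := le_abs_self _
      nlinarith [mul_nonneg h4 (sub_nonneg.mpr h)]
  · rw [Real.sqrt_eq_zero_of_nonpos hb, sub_zero, abs_of_nonneg (Real.sqrt_nonneg a)]
    apply Real.sqrt_le_sqrt
    rw [abs_of_nonneg (by linarith)]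
    linarith

/-- A quantisation helper. -/
lemma quant {x δ B : ℝ} (hδ : 0 < δ) (hx : 0 ≤ x) (hxB : x ≤ B) (Q : ℕ) (hQ : B / δ < Q) :
    ∃ q : Fin Q, |x - (q : ℕ) * δ| ≤ δ := by
  have h1 : ⌊x / δ⌋₊ < Q := by
    have : (⌊x / δ⌋₊ : ℝ) ≤ x / δ := Nat.floor_le (by positivity)
    have h2 : x / δ ≤ B / δ := by gcongr
    exact_mod_cast this.trans_lt (h2.trans_lt hQ)
  refine ⟨⟨⌊x / δ⌋₊, h1⟩, ?_⟩
  have h2 : (⌊x / δ⌋₊ : ℝ) ≤ x / δ := Nat.floor_le (by positivity)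
  have h3 : x / δ < ⌊x / δ⌋₊ + 1 := Nat.lt_floor_add_one _
  rw [le_div_iff₀ hδ] at h2
  rw [div_lt_iff₀ hδ] at h3
  simp only
  rw [abs_le]
  constructor <;> linarith

open Classical in
/-- centre of a code, first kind -/
noncomputable def cen1 {κ : Type} (h : ℝ → ℝ) (τ : κ → E) (δ : ℝ) (i0 j : κ) (q : ℕ) (i : κ) : ℝ :=
  if ‖τ i - τ i0‖ ≤ ‖τ j - τ i0‖ then q * δ - 1 else h ‖τ i - τ i0‖

open Classical in
/-- centre of a code, second kind -/
noncomputable def cen2 {κ : Type} (h : ℝ → ℝ) (τ : κ → E) (η C : ℝ) (i0 : κ) (q : ℕ) {M : ℕ}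
    (c : Fin M → Option (κ × Bool)) (i : κ) : ℝ :=
  if ‖τ i - τ i0‖ ≤ C then
    h (√(q * η + ‖τ i - τ i0‖ ^ 2 - 2 * ⟪word (fun i => τ i - τ i0) (η / C ^ 2) c, τ i - τ i0⟫))
  else h ‖τ i - τ i0‖

/-- centre of a code -/
noncomputable def cen {κ : Type} (h : ℝ → ℝ) (τ : κ → E) (δ η C : ℝ) {Q1 Q2 M : ℕ} :
    κ × ((κ × Fin Q1) ⊕ (Fin Q2 × (Fin M → Option (κ × Bool)))) → κ → ℝ
  | (i0, Sum.inl (j, q)) => cen1 h τ δ i0 j q
  | (i0, Sum.inr (q, c)) => cen2 h τ η C i0 q c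

theorem cover {κ : Type} [Fintype κ] [Nonempty κ] (h : ℝ → ℝ) (h1 : ∀ x, |h x| ≤ 1)
    (h2 : ∀ x y, 0 ≤ x → 0 ≤ y → |h x - h y| ≤ |x - y|)
    (ε C η : ℝ) (hε : 0 < ε) (hC : 0 < C) (hη : 0 < η)
    (hηε : 3 * η < ε ^ 2 / 4)
    (h3 : ∀ L, C ≤ L → ∀ x, L / 2 ≤ x → x ≤ 2 * L → |h x - h L| ≤ ε / 8)
    (Q1 Q2 M : ℕ) (hQ1 : 2 / (ε / 8) < Q1) (hQ2 : C ^ 2 / η < Q2)
    (hM : C ^ 2 < M * (η ^ 2 / C ^ 2)) (τ : κ → E) (v : E) :
    ∃ c : κ × ((κ × Fin Q1) ⊕ (Fin Q2 × (Fin M → Option (κ × Bool)))),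
      ∀ i, |h ‖v - τ i‖ - cen h τ (ε / 8) η C c i| < ε / 2 := by
  classical
  obtain ⟨i0, -, hi0⟩ := Finset.exists_min_image Finset.univ (fun i => ‖v - τ i‖)
    Finset.univ_nonempty
  simp only [Finset.mem_univ, true_implies] at hi0
  set ρ := ‖v - τ i0‖ with hρ
  have hρ0 : 0 ≤ ρ := norm_nonneg _
  have hup : ∀ i, ‖v - τ i‖ ≤ ρ + ‖τ i - τ i0‖ := by
    intro i
    have : v - τ i = (v - τ i0) - (τ i - τ i0) := by abel
    rw [this]
    exact norm_sub_le _ _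
  have hD : ∀ i, ‖τ i - τ i0‖ ≤ ‖v - τ i‖ + ρ := by
    intro i
    have : τ i - τ i0 = (v - τ i0) - (v - τ i) := by abel
    rw [this]
    refine (norm_sub_le _ _).trans ?_
    linarith
  by_cases hcase : C ≤ ρ
  · -- far case
    by_cases hne : (Finset.univ.filter (fun i => ‖τ i - τ i0‖ < ρ)).Nonempty
    swap
    · exfalso
      apply hne
      refine ⟨i0, ?_⟩
      simp only [Finset.mem_filter, Finset.mem_univ, true_and, sub_self, norm_zero]
      linarith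
    obtain ⟨j, hj, hjmax⟩ := Finset.exists_max_image _ (fun i => ‖τ i - τ i0‖) hne
    simp only [Finset.mem_filter, Finset.mem_univ, true_and] at hj hjmax
    have hb := abs_le.mp (h1 ρ)
    obtain ⟨q, hq⟩ := quant (x := h ρ + 1) (δ := ε / 8) (B := 2) (by positivity) (by linarith)
      (by linarith) Q1 hQ1
    refine ⟨(i0, Sum.inl (j, q)), ?_⟩
    intro i
    simp only [cen, cen1]
    split_ifs with hle
    · have hlt : ‖τ i - τ i0‖ < ρ := lt_of_le_of_lt hle hj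
      have e1 := h3 ρ hcase ‖v - τ i‖ (by have := hi0 i; linarith) (by have := hup i; linarith)
      have e2 : h ‖v - τ i‖ - ((q : ℕ) * (ε / 8) - 1) =
          (h ‖v - τ i‖ - h ρ) + (h ρ + 1 - (q : ℕ) * (ε / 8)) := by ring
      rw [e2]
      refine (abs_add_le _ _).trans_lt ?_
      linarith
    · have hge : ρ ≤ ‖τ i - τ i0‖ := by
        by_contra hcon
        push Not at hcon
        exact hle (hjmax i hcon)
      have e1 := h3 ‖τ i - τ i0‖ (hcase.trans hge) ‖v - τ i‖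
        (by have := hi0 i; have := hD i; linarith) (by have := hup i; linarith)
      linarith
  · push Not at hcase
    obtain ⟨q, hq⟩ := quant (x := ρ ^ 2) (δ := η) (B := C ^ 2) hη (by positivity)
      (by nlinarith) Q2 hQ2
    obtain ⟨c, hc⟩ := greedy (fun i => τ i - τ i0) (fun i => ‖τ i - τ i0‖ ≤ C) C η hC hη
      (fun i hi => hi) (v - τ i0) M
    have hc' : ∀ i, ‖τ i - τ i0‖ ≤ C →
        |⟪(v - τ i0) - word (fun i => τ i - τ i0) (η / C ^ 2) c, τ i - τ i0⟫| ≤ η := by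
      rcases hc with hc | hc
      · exact hc
      · exfalso
        rw [← hρ] at hc
        have : 0 ≤ ‖v - τ i0 - word (fun i => τ i - τ i0) (η / C ^ 2) c‖ ^ 2 := by positivity
        nlinarith
    refine ⟨(i0, Sum.inr (q, c)), ?_⟩
    intro i
    simp only [cen, cen2]
    split_ifs with hle
    · have e1 := hc' i hle
      set W := word (fun i => τ i - τ i0) (η / C ^ 2) c with hW
      set D := ‖τ i - τ i0‖ with hDdef
      have e2 : ‖v - τ i‖ ^ 2 = ρ ^ 2 + D ^ 2 - 2 * ⟪v - τ i0, τ i - τ i0⟫ := by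
        have : v - τ i = (v - τ i0) - (τ i - τ i0) := by abel
        rw [this, norm_sub_sq_real]
        ring
      have e3 : ‖v - τ i‖ = √(ρ ^ 2 + D ^ 2 - 2 * ⟪v - τ i0, τ i - τ i0⟫) := by
        rw [← e2, Real.sqrt_sq (norm_nonneg _)]
      have e4 : |(ρ ^ 2 + D ^ 2 - 2 * ⟪v - τ i0, τ i - τ i0⟫) -
          ((q : ℕ) * η + D ^ 2 - 2 * ⟪W, τ i - τ i0⟫)| ≤ 3 * η := by
        rw [inner_sub_left] at e1
        rw [abs_le] at e1 hq ⊢
        constructor <;> linarith [e1.1, e1.2, hq.1, hq.2]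
      have e5 : 0 ≤ ρ ^ 2 + D ^ 2 - 2 * ⟪v - τ i0, τ i - τ i0⟫ := by
        rw [← e2]; positivity
      rw [e3]
      refine (h2 _ _ (Real.sqrt_nonneg _) (Real.sqrt_nonneg _)).trans_lt ?_
      refine (abs_sqrt_sub_sqrt_le _ _ e5).trans_lt ?_
      rw [Real.sqrt_lt' (by positivity)]
      have : (ε / 2) ^ 2 = ε ^ 2 / 4 := by ring
      rw [this]
      exact e4.trans_lt hηε
    · push Not at hle
      have e1 := h3 ‖τ i - τ i0‖ hle.le ‖v - τ i‖
        (by have := hi0 i; have := hD i; linarith) (by have := hup i; linarith)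
      linarith

/-- Polynomial bound for the number of `ε`-distinguishable patterns. -/
theorem count (E : Type*) [NormedAddCommGroup E] [InnerProductSpace ℝ E]
    (h : ℝ → ℝ) (h1 : ∀ x, |h x| ≤ 1)
    (h2 : ∀ x y, 0 ≤ x → 0 ≤ y → |h x - h y| ≤ |x - y|)
    (h3 : ∀ ε : ℝ, 0 < ε → ∃ C : ℝ, 0 < C ∧
      ∀ L, C ≤ L → ∀ x, L / 2 ≤ x → x ≤ 2 * L → |h x - h L| ≤ ε)
    (ε : ℝ) (hε : 0 < ε) :
    ∃ A d : ℕ, ∀ (κ : Type) [Fintype κ] (τ : κ → E) (ι : Type) (s : Finset ι) (v : ι → E),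
      (∀ x ∈ s, ∀ y ∈ s, x ≠ y → ∃ i, ε ≤ |h ‖v x - τ i‖ - h ‖v y - τ i‖|) →
      s.card ≤ A * (Fintype.card κ + 1) ^ d := by
  obtain ⟨C, hC, h3'⟩ := h3 (ε / 8) (by positivity)
  obtain ⟨η, hη, hηε⟩ : ∃ η : ℝ, 0 < η ∧ 3 * η < ε ^ 2 / 4 :=
    ⟨ε ^ 2 / 16, by positivity, by nlinarith [sq_pos_of_pos hε]⟩
  obtain ⟨Q1, hQ1⟩ := exists_nat_gt (2 / (ε / 8))
  obtain ⟨Q2, hQ2⟩ := exists_nat_gt (C ^ 2 / η)
  obtain ⟨M, hM⟩ := exists_nat_gt (C ^ 2 / (η ^ 2 / C ^ 2))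
  have hM' : C ^ 2 < M * (η ^ 2 / C ^ 2) := by
    rwa [div_lt_iff₀ (by positivity)] at hM
  refine ⟨Q1 + Q2 * 2 ^ M + 1, M + 2, ?_⟩
  intro κ _ τ ι s v hsep
  classical
  rcases isEmpty_or_nonempty κ with hκ | hκ
  · have : s.card ≤ 1 := by
      rw [Finset.card_le_one]
      intro x hx y hy
      by_contra hxy
      obtain ⟨i, -⟩ := hsep x hx y hy hxy
      exact hκ.elim i
    refine this.trans ?_
    have h5 : 1 ≤ (Fintype.card κ + 1) ^ (M + 2) := Nat.one_le_pow _ _ (Nat.succ_pos _)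
    calc 1 = 1 * 1 := rfl
      _ ≤ _ := Nat.mul_le_mul (by omega) h5
  · choose c hc using cover h h1 h2 ε C η hε hC hη hηε h3' Q1 Q2 M hQ1 hQ2 hM' τ
    have hinj : Set.InjOn (fun x => c (v x)) s := by
      intro x hx y hy hxy
      by_contra hne
      obtain ⟨i, hi⟩ := hsep x hx y hy hne
      have e1 := hc (v x) i
      have e2 := hc (v y) i
      simp only at hxy
      rw [hxy] at e1
      have e3 : h ‖v x - τ i‖ - h ‖v y - τ i‖ =
        (h ‖v x - τ i‖ - cen h τ (ε / 8) η C (c (v y)) i) -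
        (h ‖v y - τ i‖ - cen h τ (ε / 8) η C (c (v y)) i) := by ring
      rw [e3] at hi
      have e4 := abs_sub (h ‖v x - τ i‖ - cen h τ (ε / 8) η C (c (v y)) i)
        (h ‖v y - τ i‖ - cen h τ (ε / 8) η C (c (v y)) i)
      linarith
    have hcard := Finset.card_le_card_of_injOn (t := Finset.univ) (fun x => c (v x))
      (fun x _ => Finset.mem_univ _) hinj
    refine hcard.trans ?_
    rw [Finset.card_univ]
    simp only [Fintype.card_prod, Fintype.card_sum, Fintype.card_fin, Fintype.card_pi,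
      Finset.prod_const, Finset.card_univ, Fintype.card_option, Fintype.card_bool]
    set n := Fintype.card κ with hn
    have e1 : (n * 2 + 1) ^ M ≤ 2 ^ M * (n + 1) ^ M := by
      rw [← mul_pow]
      apply Nat.pow_le_pow_left
      omega
    have e2 : 1 ≤ (n + 1) ^ M := Nat.one_le_pow _ _ (Nat.succ_pos _)
    have e3 : n * Q1 ≤ (n + 1) * (n + 1) ^ M * Q1 := by
      apply Nat.mul_le_mul_right
      nlinarith
    have e4 : Q2 * (n * 2 + 1) ^ M ≤ (n + 1) * (n + 1) ^ M * (Q2 * 2 ^ M) := by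
      calc Q2 * (n * 2 + 1) ^ M ≤ Q2 * (2 ^ M * (n + 1) ^ M) := Nat.mul_le_mul_left _ e1
        _ = 1 * (n + 1) ^ M * (Q2 * 2 ^ M) := by ring
        _ ≤ (n + 1) * (n + 1) ^ M * (Q2 * 2 ^ M) := by
          apply Nat.mul_le_mul_right
          apply Nat.mul_le_mul_right
          omega
    calc n * (n * Q1 + Q2 * (n * 2 + 1) ^ M)
        ≤ (n + 1) * ((n + 1) * (n + 1) ^ M * Q1 + (n + 1) * (n + 1) ^ M * (Q2 * 2 ^ M)) := by
          apply Nat.mul_le_mul (by omega) (by omega)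
      _ = (Q1 + Q2 * 2 ^ M) * (n + 1) ^ (M + 2) := by ring
      _ ≤ (Q1 + Q2 * 2 ^ M + 1) * (n + 1) ^ (M + 2) := by
          apply Nat.mul_le_mul_right
          omega

end Pool.Agent.Helper41.Null
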