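import Mathlib
import Pool.Agent.Helper41.NullCount

set_option autoImplicit false

namespace Pool.Agent.Helper41.Null

open Complex

/-- the rapidly growing periods -/
def kk (j : ℕ) : ℕ := 4 ^ j * j.factorial

lemma kk_pos (j : ℕ) : 0 < kk j := by
  unfold kk; positivity

lemma kk_succ (j : ℕ) : kk (j + 1) = 4 * (j + 1) * kk j := by
  unfold kk
  rw [Nat.factorial_succ, pow_succ]
  ring

lemma kk_dvd {i j : ℕ} (h : i ≤ j) : kk i ∣ kk j :=
  Nat.mul_dvd_mul (pow_dvd_pow 4 h) (Nat.factorial_dvd_factorial h)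

lemma kk_ge (i m : ℕ) : kk i * (4 * (i + 1)) ^ m ≤ kk (i + m) := by
  unfold kk
  have h := @Nat.factorial_mul_pow_le_factorial i m
  calc 4 ^ i * i.factorial * (4 * (i + 1)) ^ m
      = 4 ^ (i + m) * (i.factorial * (i + 1) ^ m) := by rw [mul_pow, pow_add]; ring
    _ ≤ 4 ^ (i + m) * (i + m).factorial := Nat.mul_le_mul_left _ h

lemma pow_le_kk (j : ℕ) : 4 ^ j ≤ kk j := by
  unfold kk
  exact Nat.le_mul_of_pos_right _ (Nat.factorial_pos j)

/-- angle -/
noncomputable def ang (j : ℕ) (x : ℝ) : ℝ := 2 * Real.pi * x / kk j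

/-- character -/
noncomputable def ch (j : ℕ) (x : ℝ) : ℂ := exp (I * (ang j x : ℂ))

lemma ch_add (j : ℕ) (x y : ℝ) : ch j (x + y) = ch j x * ch j y := by
  unfold ch
  rw [← Complex.exp_add]
  congr 1
  have : ang j (x + y) = ang j x + ang j y := by unfold ang; ring
  rw [this]
  push_cast
  ring

lemma norm_ch (j : ℕ) (x : ℝ) : ‖ch j x‖ = 1 := by
  unfold ch
  rw [mul_comm]
  exact Complex.norm_exp_ofReal_mul_I _

lemma norm_ch_sub (j : ℕ) (x y : ℝ) : ‖ch j x - ch j y‖ = ‖ch j (x - y) - 1‖ := by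
  have h : ch j x = ch j (x - y) * ch j y := by rw [← ch_add]; congr 1; ring
  rw [h]
  have : ch j (x - y) * ch j y - ch j y = (ch j (x - y) - 1) * ch j y := by ring
  rw [this, norm_mul, norm_ch, mul_one]

lemma norm_ch_sub_one_le (j : ℕ) (x : ℝ) : ‖ch j x - 1‖ ≤ |ang j x| := by
  have := @Real.norm_exp_I_mul_ofReal_sub_one_le (ang j x)
  simpa [ch] using this

lemma ch_mul_kk (j : ℕ) (n : ℕ) (h : kk j ∣ n) : ch j n = 1 := by
  obtain ⟨m, rfl⟩ := h
  unfold ch ang
  have hk : (kk j : ℝ) ≠ 0 := by exact_mod_cast (kk_pos j).ne'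
  have : (2 * Real.pi * ((kk j * m : ℕ) : ℝ) / kk j) = m * (2 * Real.pi) := by
    push_cast
    field_simp
  rw [this]
  have h2 : I * (((m : ℝ) * (2 * Real.pi) : ℝ) : ℂ) = m * (2 * Real.pi * I) := by
    push_cast; ring
  rw [h2, Complex.exp_nat_mul_two_pi_mul_I]

lemma abs_ang_le (j : ℕ) (x : ℝ) : |ang j x| ≤ 2 * Real.pi * |x| * (1 / 4) ^ j := by
  unfold ang
  rw [abs_div, abs_mul, abs_mul, abs_two, abs_of_pos Real.pi_pos]
  have hk : (0 : ℝ) < kk j := by exact_mod_cast kk_pos j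
  rw [abs_of_pos hk, div_eq_mul_inv]
  have h1 : ((kk j : ℝ))⁻¹ ≤ (1 / 4) ^ j := by
    rw [one_div, inv_pow]
    apply inv_anti₀ (by positivity)
    exact_mod_cast pow_le_kk j
  have : 0 ≤ 2 * Real.pi * |x| := by positivity
  exact mul_le_mul_of_nonneg_left h1 this

lemma summ (x : ℝ) : Summable (fun j => ‖ch j x - 1‖ ^ (2 : ENNReal).toReal) := by
  have h2 : (2 : ENNReal).toReal = ((2 : ℕ) : ℝ) := by simp
  simp only [h2, Real.rpow_natCast]
  have hb : ∀ j, ‖ch j x - 1‖ ^ 2 ≤ (2 * Real.pi * |x|) ^ 2 * (1 / 16) ^ j := by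
    intro j
    have h3 := (norm_ch_sub_one_le j x).trans (abs_ang_le j x)
    calc ‖ch j x - 1‖ ^ 2 ≤ (2 * Real.pi * |x| * (1 / 4) ^ j) ^ 2 := by gcongr
      _ = (2 * Real.pi * |x|) ^ 2 * (1 / 16) ^ j := by
        rw [mul_pow _ ((1 / 4 : ℝ) ^ j), ← pow_mul, mul_comm j 2, pow_mul]
        norm_num
  refine Summable.of_nonneg_of_le (fun j => by positivity) hb ?_
  exact (summable_geometric_of_lt_one (by norm_num) (by norm_num)).mul_left _

/-- the Hilbert space -/
noncomputable abbrev HH := lp (fun _ : ℕ => ℂ) 2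

/-- the cocycle -/
noncomputable def bb (x : ℝ) : HH := ⟨fun j => ch j x - 1, memℓp_gen (summ x)⟩

lemma norm_bb_sub (x y : ℝ) : ‖bb x - bb y‖ = ‖bb (x - y)‖ := by
  rw [lp.norm_eq_tsum_rpow (by simp), lp.norm_eq_tsum_rpow (by simp)]
  congr 1
  apply tsum_congr
  intro j
  congr 1
  have : (bb x - bb y) j = ch j x - ch j y := by
    simp only [lp.coeFn_sub, Pi.sub_apply, bb]
    ring
  rw [this, norm_ch_sub]
  rfl

/-- the unbounded length function -/
noncomputable def NN (x : ℝ) : ℝ := ‖bb x‖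

lemma NN_nonneg (x : ℝ) : 0 ≤ NN x := norm_nonneg _

lemma bb_zero : bb 0 = 0 := by
  ext j
  simp [bb, ch, ang]

lemma NN_zero : NN 0 = 0 := by
  simp [NN, bb_zero]

lemma NN_neg (x : ℝ) : NN (-x) = NN x := by
  have h := norm_bb_sub 0 x
  rw [bb_zero, zero_sub, norm_neg, zero_sub] at h
  exact h.symm

lemma NN_add_le (x y : ℝ) : NN (x + y) ≤ NN x + NN y := by
  have h := norm_bb_sub x (-y)
  rw [sub_neg_eq_add] at h
  have h2 := norm_sub_le (bb x) (bb (-y))
  rw [h] at h2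
  have h3 := NN_neg y
  unfold NN at *
  linarith

lemma abs_NN_add_sub (x y : ℝ) : |NN (x + y) - NN x| ≤ NN y := by
  rw [abs_le]
  have h1 := NN_add_le x y
  have h2 := NN_add_le (x + y) (-y)
  rw [NN_neg, add_neg_cancel_right] at h2
  constructor <;> linarith

lemma NN_sq (x : ℝ) : NN x ^ 2 = ∑' j, ‖ch j x - 1‖ ^ 2 := by
  have h : NN x = (∑' j, ‖ch j x - 1‖ ^ (2 : ENNReal).toReal) ^ (1 / (2 : ENNReal).toReal) := by
    unfold NN
    rw [lp.norm_eq_tsum_rpow (by simp)]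
    rfl
  have h2 : (2 : ENNReal).toReal = ((2 : ℕ) : ℝ) := by simp
  simp only [h2, Real.rpow_natCast] at h
  have h3 : 0 ≤ ∑' j, ‖ch j x - 1‖ ^ 2 := tsum_nonneg (fun j => by positivity)
  rw [h, ← Real.rpow_natCast, ← Real.rpow_mul h3]
  norm_num

lemma summ2 (x : ℝ) : Summable (fun j => ‖ch j x - 1‖ ^ 2) := by
  have h := summ x
  have h2 : (2 : ENNReal).toReal = ((2 : ℕ) : ℝ) := by simp
  simpa only [h2, Real.rpow_natCast] using h

/-- unboundedness -/
lemma exists_large (J : ℕ) : ∃ n : ℕ, 4 * n ≤ kk (J + 1) ∧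
    ∀ j < J, 1 ≤ ‖ch (j + 1) n - 1‖ := by
  induction J with
  | zero => exact ⟨0, by simp, by simp⟩
  | succ J ih =>
    obtain ⟨n, hn, hj⟩ := ih
    have hk2 : 2 * (2 * (J + 1) * kk J) = kk (J + 1) := by rw [kk_succ]; ring
    refine ⟨n + 2 * (J + 1) * kk J, ?_, ?_⟩
    · have h3 : kk (J + 1 + 1) = 4 * (J + 1 + 1) * kk (J + 1) := kk_succ (J + 1)
      have h4 : 3 * kk (J + 1) ≤ kk (J + 1 + 1) := by
        rw [h3]
        apply Nat.mul_le_mul_right
        omega
      omega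
    · intro j hj'
      push_cast
      rw [ch_add]
      rcases Nat.lt_succ_iff_lt_or_eq.mp hj' with h | h
      · have h5 : ch (j + 1) (2 * (J + 1) * kk J) = 1 := by
          have := ch_mul_kk (j + 1) (2 * (J + 1) * kk J)
            (Dvd.dvd.mul_left (kk_dvd (by omega)) _)
          rw [← this]
          push_cast
          rfl
        rw [h5, mul_one]
        exact hj j h
      · subst h
        have h6 : ch (j + 1) (2 * (j + 1) * kk j) = -1 := by
          unfold ch ang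
          have hk : (kk j : ℝ) ≠ 0 := by exact_mod_cast (kk_pos j).ne'
          have hj0 : ((j : ℝ) + 1) ≠ 0 := by positivity
          have : (2 * Real.pi * (2 * ((j : ℝ) + 1) * kk j) / (kk (j + 1) : ℕ)) = Real.pi := by
            rw [kk_succ]
            push_cast
            field_simp
            ring
          rw [this, mul_comm, Complex.exp_pi_mul_I]
        rw [h6]
        have h7 : ‖ch (j + 1) n * -1 - 1‖ = ‖ch (j + 1) n + 1‖ := by
          rw [← norm_neg]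
          congr 1
          ring
        rw [h7]
        refine le_trans ?_ (Complex.re_le_norm _)
        have h8 : 0 ≤ (ch (j + 1) n).re := by
          unfold ch
          rw [mul_comm, Complex.exp_ofReal_mul_I_re]
          apply Real.cos_nonneg_of_mem_Icc
          have hkp : (0 : ℝ) < kk (j + 1) := by exact_mod_cast kk_pos _
          have hn' : 4 * (n : ℝ) ≤ kk (j + 1) := by exact_mod_cast hn
          have hpi := Real.pi_pos
          unfold ang
          constructor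
          · have : 0 ≤ 2 * Real.pi * (n : ℝ) / kk (j + 1) := by positivity
            linarith
          · rw [div_le_iff₀ hkp]
            nlinarith
        simp only [add_re, one_re]
        linarith

lemma NN_unbounded (B : ℝ) : ∃ n : ℕ, B ≤ NN n := by
  obtain ⟨J, hJ⟩ := exists_nat_ge (B ^ 2)
  obtain ⟨n, -, hn⟩ := exists_large J
  refine ⟨n, ?_⟩
  have h1 : (J : ℝ) ≤ NN n ^ 2 := by
    rw [NN_sq]
    have hs := summ2 (n : ℝ)
    have hs2 : Summable (fun j => ‖ch (j + 1) n - 1‖ ^ 2) :=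
      (summable_nat_add_iff (f := fun j => ‖ch j (n : ℝ) - 1‖ ^ 2) 1).mpr hs
    rw [hs.tsum_eq_zero_add]
    have h2 : (J : ℝ) ≤ ∑' j, ‖ch (j + 1) n - 1‖ ^ 2 := by
      have h3 := hs2.sum_le_tsum (Finset.range J) (fun j _ => by positivity)
      refine le_trans ?_ h3
      calc (J : ℝ) = ∑ _j ∈ Finset.range J, (1 : ℝ) := by simp
        _ ≤ _ := by
          apply Finset.sum_le_sum
          intro j hj
          have := hn j (Finset.mem_range.mp hj)
          nlinarith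
    have h4 : 0 ≤ ‖ch 0 (n : ℝ) - 1‖ ^ 2 := by positivity
    linarith
  have h5 : B ^ 2 ≤ NN n ^ 2 := hJ.trans h1
  exact le_of_sq_le_sq h5 (NN_nonneg _)

lemma NN_kk_sq (i : ℕ) : NN (kk i) ^ 2 ≤ 40 / ((i : ℝ) + 1) ^ 2 := by
  rw [NN_sq]
  have hs := summ2 (kk i : ℝ)
  rw [← hs.sum_add_tsum_nat_add (i + 1)]
  have h0 : ∑ j ∈ Finset.range (i + 1), ‖ch j (kk i : ℝ) - 1‖ ^ 2 = 0 := by
    apply Finset.sum_eq_zero
    intro j hj
    rw [ch_mul_kk j (kk i) (kk_dvd (by simpa [Nat.lt_succ_iff] using hj))]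
    simp
  rw [h0, zero_add]
  have hb : ∀ m : ℕ, ‖ch (m + (i + 1)) (kk i : ℝ) - 1‖ ^ 2 ≤
      ((2 * Real.pi) ^ 2 / (16 * ((i : ℝ) + 1) ^ 2)) * (1 / 16) ^ m := by
    intro m
    have h1 := norm_ch_sub_one_le (m + (i + 1)) (kk i : ℝ)
    have h2 : |ang (m + (i + 1)) (kk i : ℝ)| ≤ 2 * Real.pi / (4 * ((i : ℝ) + 1)) * (1 / 4) ^ m := by
      unfold ang
      have hkp : (0 : ℝ) < kk i := by exact_mod_cast kk_pos _
      have hkp2 : (0 : ℝ) < kk (m + (i + 1)) := by exact_mod_cast kk_pos _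
      rw [abs_of_nonneg (by positivity), div_le_iff₀ hkp2]
      have h3 : (kk i : ℝ) * (4 * ((i : ℝ) + 1)) ^ (m + 1) ≤ kk (m + (i + 1)) := by
        have := kk_ge i (m + 1)
        have h4 : i + (m + 1) = m + (i + 1) := by ring
        rw [h4] at this
        exact_mod_cast this
      have h5 : (4 : ℝ) ^ m ≤ (4 * ((i : ℝ) + 1)) ^ m := by
        apply pow_le_pow_left₀ (by norm_num)
        have : (0 : ℝ) ≤ i := by positivity
        linarith
      have h6 : (kk i : ℝ) * (4 * ((i : ℝ) + 1)) * 4 ^ m ≤ kk (m + (i + 1)) := by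
        refine le_trans ?_ h3
        rw [pow_succ]
        have : 0 ≤ (kk i : ℝ) * (4 * ((i : ℝ) + 1)) := by positivity
        nlinarith
      have hpos : (0 : ℝ) < 4 * ((i : ℝ) + 1) := by positivity
      have h7 : 2 * Real.pi / (4 * ((i : ℝ) + 1)) * (1 / 4) ^ m *
          ((kk i : ℝ) * (4 * ((i : ℝ) + 1)) * 4 ^ m) = 2 * Real.pi * kk i := by
        have : (1 / 4 : ℝ) ^ m * 4 ^ m = 1 := by
          rw [← mul_pow]; norm_num
        calc 2 * Real.pi / (4 * ((i : ℝ) + 1)) * (1 / 4) ^ m *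
          ((kk i : ℝ) * (4 * ((i : ℝ) + 1)) * 4 ^ m)
            = (2 * Real.pi / (4 * ((i : ℝ) + 1)) * (4 * ((i : ℝ) + 1))) * kk i *
              ((1 / 4 : ℝ) ^ m * 4 ^ m) := by ring
          _ = 2 * Real.pi * kk i := by
            rw [this, div_mul_cancel₀ _ hpos.ne']
            ring
      rw [← h7]
      exact mul_le_mul_of_nonneg_left h6 (by positivity)
    calc ‖ch (m + (i + 1)) (kk i : ℝ) - 1‖ ^ 2
        ≤ (2 * Real.pi / (4 * ((i : ℝ) + 1)) * (1 / 4) ^ m) ^ 2 := by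
          gcongr
          exact h1.trans h2
      _ = _ := by
        rw [mul_pow, div_pow, mul_pow 4 ((i : ℝ) + 1), ← pow_mul, mul_comm m 2, pow_mul]
        norm_num
  have hgeo : HasSum (fun m : ℕ => ((2 * Real.pi) ^ 2 / (16 * ((i : ℝ) + 1) ^ 2)) * (1 / 16 : ℝ) ^ m)
      (((2 * Real.pi) ^ 2 / (16 * ((i : ℝ) + 1) ^ 2)) * (1 - 1 / 16)⁻¹) :=
    (hasSum_geometric_of_lt_one (by norm_num) (by norm_num)).mul_left _
  have hs3 : Summable (fun m => ‖ch (m + (i + 1)) (kk i : ℝ) - 1‖ ^ 2) :=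
    (summable_nat_add_iff (f := fun j => ‖ch j (kk i : ℝ) - 1‖ ^ 2) (i + 1)).mpr hs
  have h9 := hs3.tsum_le_tsum hb hgeo.summable
  rw [hgeo.tsum_eq] at h9
  refine h9.trans ?_
  have hi : (0 : ℝ) < ((i : ℝ) + 1) ^ 2 := by positivity
  have hpi2 : Real.pi ^ 2 ≤ 16 := by
    have := Real.pi_le_four
    nlinarith [Real.pi_pos]
  rw [div_mul_eq_mul_div, div_le_div_iff₀ (by positivity) hi]
  have : (1 - 1 / 16 : ℝ)⁻¹ = 16 / 15 := by norm_num
  rw [this]
  nlinarith

lemma NN_kk_small (ε : ℝ) (hε : 0 < ε) (B : ℕ) : ∃ i : ℕ, NN (kk i) < ε ∧ B < kk i := by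
  obtain ⟨i, hi⟩ := exists_nat_gt (max (B : ℝ) (7 / ε))
  refine ⟨i, ?_, ?_⟩
  · have h1 := NN_kk_sq i
    have h2 : 7 / ε < i := (le_max_right _ _).trans_lt hi
    rw [div_lt_iff₀ hε] at h2
    have h3 : 40 / ((i : ℝ) + 1) ^ 2 < ε ^ 2 := by
      rw [div_lt_iff₀ (by positivity)]
      have h4 : 7 ≤ ε * ((i : ℝ) + 1) := by nlinarith
      calc (40 : ℝ) < 7 ^ 2 := by norm_num
        _ ≤ (ε * ((i : ℝ) + 1)) ^ 2 := by gcongr
        _ = _ := by ring
    exact lt_of_pow_lt_pow_left₀ 2 hε.le (h1.trans_lt h3)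
  · have h2 : (B : ℝ) < i := (le_max_left _ _).trans_lt hi
    have h3 : B < i := by exact_mod_cast h2
    have h4 : i < 4 ^ i := Nat.lt_pow_self (by norm_num)
    exact h3.trans (h4.trans_le (pow_le_kk i))

/-- discrete intermediate values -/
lemma NN_level (ρ : ℝ) (hρ : 0 ≤ ρ) : ∃ n : ℕ, |NN n - ρ| ≤ NN 1 := by
  classical
  have hex := NN_unbounded ρ
  set n := Nat.find hex with hn
  have h1 : ρ ≤ NN n := Nat.find_spec hex
  rcases Nat.eq_zero_or_pos n with h0 | h0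
  · refine ⟨0, ?_⟩
    rw [h0] at h1
    simp only [Nat.cast_zero, NN_zero] at h1 ⊢
    have : ρ = 0 := le_antisymm h1 hρ
    rw [this]
    simp [NN_nonneg]
  · refine ⟨n, ?_⟩
    have h2 : NN ((n - 1 : ℕ) : ℝ) < ρ := by
      have := Nat.find_min hex (m := n - 1) (by omega)
      push Not at this
      exact this
    have h3 : (n : ℝ) = ((n - 1 : ℕ) : ℝ) + 1 := by
      have : n = (n - 1) + 1 := by omega
      conv_lhs => rw [this]
      push_cast
      rfl
    have h4 := NN_add_le ((n - 1 : ℕ) : ℝ) 1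
    rw [← h3] at h4
    rw [abs_of_nonneg (by linarith)]
    linarith

end Pool.Agent.Helper41.Null
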