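import Mathlib
import Pool.Agent.Helper41.NullCocycle
import Pool.Agent.Helper41.HilbDefs
import Pool.Agent.Helper41.HilbAlg

set_option autoImplicit false

namespace Pool.Agent.Helper41.Hilb

open MeasureTheory Filter Topology Null Complex

/-- a fair coin -/
noncomputable def coin : Measure Bool :=
  (2⁻¹ : ENNReal) • Measure.dirac false + (2⁻¹ : ENNReal) • Measure.dirac true

instance : IsProbabilityMeasure coin := ⟨by simp [coin, ENNReal.inv_two_add_inv_two]⟩

theorem integral_coin (f : Bool → ℂ) : ∫ b, f b ∂coin = (f false + f true) / 2 := by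
  unfold coin
  rw [integral_add_measure, integral_smul_measure, integral_smul_measure, integral_dirac,
    integral_dirac]
  · simp only [ENNReal.toReal_inv, ENNReal.toReal_ofNat, Complex.real_smul]
    push_cast
    ring
  · exact (Integrable.of_finite (μ := Measure.dirac false)).smul_measure (by simp)
  · exact (Integrable.of_finite (μ := Measure.dirac true)).smul_measure (by simp)

/-- the product measure -/
noncomputable def PP : Measure (ℕ → Bool) := Measure.infinitePi (fun _ => coin)

instance : IsProbabilityMeasure PP := by unfold PP; infer_instance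

/-- the random digits -/
noncomputable def digit (j : ℕ) (b : Bool) : ℝ := if b then 1 / kk j else 0

theorem digit_nonneg (j : ℕ) (b : Bool) : 0 ≤ digit j b := by
  unfold digit; split_ifs <;> positivity

theorem digit_le (j : ℕ) (b : Bool) : digit j b ≤ 1 / kk j := by
  unfold digit; split_ifs
  · exact le_rfl
  · positivity

theorem inv_kk_add_le (J m : ℕ) : 1 / (kk (J + m) : ℝ) ≤ 1 / kk J * (1 / 4) ^ m := by
  have h1 : (kk J : ℝ) * 4 ^ m ≤ kk (J + m) := by
    have h2 : kk J * 4 ^ m ≤ kk (J + m) :=
      (Nat.mul_le_mul_left _ (Nat.pow_le_pow_left (by omega) m)).trans (kk_ge J m)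
    exact_mod_cast h2
  have h0 : (0 : ℝ) < kk J := by exact_mod_cast kk_pos J
  rw [one_div_pow, one_div_mul_one_div]
  exact one_div_le_one_div_of_le (by positivity) h1

theorem summable_inv_kk (J : ℕ) : Summable fun m => 1 / (kk (J + m) : ℝ) := by
  refine Summable.of_nonneg_of_le (fun m => by positivity) (inv_kk_add_le J) ?_
  exact (summable_geometric_of_lt_one (by norm_num) (by norm_num)).mul_left _

theorem tsum_inv_kk_le (J : ℕ) : ∑' m, 1 / (kk (J + m) : ℝ) ≤ 2 / kk J := by
  have h1 := (summable_inv_kk J).tsum_le_tsum (inv_kk_add_le J)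
    ((summable_geometric_of_lt_one (r := (1 / 4 : ℝ)) (by norm_num) (by norm_num)).mul_left _)
  rw [tsum_mul_left, tsum_geometric_of_lt_one (by norm_num) (by norm_num)] at h1
  refine h1.trans ?_
  have h0 : (0 : ℝ) < kk J := by exact_mod_cast kk_pos J
  rw [div_mul_eq_mul_div]
  gcongr
  norm_num

theorem summable_digit (ω : ℕ → Bool) : Summable fun j => digit j (ω j) := by
  have := summable_inv_kk 0
  simp only [zero_add] at this
  exact Summable.of_nonneg_of_le (fun j => digit_nonneg j _) (fun j => digit_le j _) this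

/-- the random point of the circle -/
noncomputable def theta (ω : ℕ → Bool) : ℝ := ∑' j, digit j (ω j)

theorem continuous_theta : Continuous theta := by
  refine continuous_tsum (u := fun j => 1 / (kk j : ℝ)) (fun j => ?_) ?_ (fun j ω => ?_)
  · exact (continuous_of_discreteTopology (f := digit j)).comp (continuous_apply j)
  · simpa only [zero_add] using summable_inv_kk 0
  · rw [Real.norm_eq_abs, abs_of_nonneg (digit_nonneg _ _)]
    exact digit_le _ _

theorem abs_theta_sub (J : ℕ) (ω : ℕ → Bool) :
    |theta ω - ∑ j ∈ Finset.range J, digit j (ω j)| ≤ 2 / kk J := by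
  have h1 : theta ω - ∑ j ∈ Finset.range J, digit j (ω j) = ∑' m, digit (m + J) (ω (m + J)) := by
    unfold theta
    rw [← (summable_digit ω).sum_add_tsum_nat_add J]
    ring
  rw [h1, abs_of_nonneg (tsum_nonneg fun m => digit_nonneg _ _)]
  have h2 : Summable fun m => digit (m + J) (ω (m + J)) :=
    (summable_nat_add_iff J).2 (summable_digit ω)
  refine (h2.tsum_le_tsum (g := fun m => 1 / (kk (J + m) : ℝ)) ?_ (summable_inv_kk J)).trans
    (tsum_inv_kk_le J)
  intro m
  rw [add_comm J m]
  exact digit_le _ _

/-- the measure on the circle -/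
noncomputable def mu0 : Measure UnitAddCircle := PP.map fun ω => ((theta ω : ℝ) : UnitAddCircle)

theorem continuous_theta' : Continuous fun ω => ((theta ω : ℝ) : UnitAddCircle) :=
  (AddCircle.continuous_mk' 1).comp continuous_theta

instance : IsProbabilityMeasure mu0 :=
  Measure.isProbabilityMeasure_map continuous_theta'.measurable.aemeasurable

/-- its transform -/
noncomputable def psi (n : ℤ) : ℂ := transform mu0 n

theorem psi_eq (n : ℤ) : psi n = ∫ ω, exp (I * ((2 * Real.pi * n * theta ω : ℝ) : ℂ)) ∂PP := by
  unfold psi transform mu0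
  rw [integral_map continuous_theta'.measurable.aemeasurable
    (fourier n).continuous.aestronglyMeasurable]
  refine integral_congr_ae (Eventually.of_forall fun ω => ?_)
  show (fourier n ((theta ω : ℝ) : UnitAddCircle) : ℂ) = _
  rw [fourier_coe_apply]
  congr 1
  push_cast
  ring

/-- partial products -/
noncomputable def PJ (J : ℕ) (n : ℤ) : ℂ := ∏ j ∈ Finset.range J, (1 + ch j n) / 2

theorem PJ_eq (J : ℕ) (n : ℤ) : PJ J n =
    ∫ ω, exp (I * ((2 * Real.pi * n * ∑ j ∈ Finset.range J, digit j (ω j) : ℝ) : ℂ)) ∂PP := by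
  have h1 : ∀ ω : ℕ → Bool,
      exp (I * ((2 * Real.pi * n * ∑ j ∈ Finset.range J, digit j (ω j) : ℝ) : ℂ)) =
      ∏ j : Finset.range J, exp (I * ((2 * Real.pi * n * digit j (ω j) : ℝ) : ℂ)) := by
    intro ω
    rw [← Complex.exp_sum]
    congr 1
    rw [← Finset.mul_sum, ← Complex.ofReal_sum, ← Finset.mul_sum,
      Finset.sum_coe_sort (Finset.range J) (fun j => digit j (ω j))]
  simp only [h1]
  have h2 := integral_restrict_infinitePi (μ := fun _ : ℕ => coin) (s := Finset.range J)
    (f := fun y : (i : Finset.range J) → Bool =>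
      ∏ j : Finset.range J, exp (I * ((2 * Real.pi * n * digit j (y j) : ℝ) : ℂ)))
    (Measurable.aestronglyMeasurable (measurable_of_finite _))
  have h3 : ∫ ω, ∏ j : Finset.range J, exp (I * ((2 * Real.pi * n * digit j (ω j) : ℝ) : ℂ)) ∂PP =
      ∫ y, ∏ j : Finset.range J, exp (I * ((2 * Real.pi * n * digit j (y j) : ℝ) : ℂ))
        ∂Measure.pi (fun i : Finset.range J => coin) := h2
  rw [h3, integral_fintype_prod_eq_prod
    (f := fun (j : Finset.range J) (b : Bool) => exp (I * ((2 * Real.pi * n * digit j b : ℝ) : ℂ)))]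
  simp only [integral_coin]
  unfold PJ
  rw [← Finset.prod_coe_sort]
  refine Finset.prod_congr rfl fun j _ => ?_
  congr 1
  have e1 : digit j false = 0 := by simp [digit]
  have e2 : digit j true = 1 / kk j := by simp [digit]
  rw [e1, e2]
  simp only [mul_zero, Complex.ofReal_zero, Complex.exp_zero]
  congr 1
  unfold ch ang
  congr 2
  push_cast
  ring

theorem norm_psi_sub_PJ (J : ℕ) (n : ℤ) :
    ‖psi n - PJ J n‖ ≤ 4 * Real.pi * |(n : ℝ)| / kk J := by
  rw [psi_eq, PJ_eq, ← integral_sub]
  · refine (norm_integral_le_of_norm_le_const (C := 4 * Real.pi * |(n : ℝ)| / kk J)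
      (Eventually.of_forall fun ω => ?_)).trans ?_
    · have h1 : ∀ a b : ℝ, ‖exp (I * (a : ℂ)) - exp (I * (b : ℂ))‖ ≤ |a - b| := by
        intro a b
        have h2 : exp (I * (a : ℂ)) - exp (I * (b : ℂ)) =
            (exp (I * ((a - b : ℝ) : ℂ)) - 1) * exp (I * (b : ℂ)) := by
          rw [sub_mul, one_mul, ← Complex.exp_add]
          congr 2
          push_cast; ring
        have h3 : ‖exp (I * (b : ℂ))‖ = 1 := by
          rw [mul_comm]; exact Complex.norm_exp_ofReal_mul_I _
        rw [h2, norm_mul, h3, mul_one]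
        exact Real.norm_exp_I_mul_ofReal_sub_one_le
      refine (h1 _ _).trans ?_
      rw [← mul_sub, abs_mul, abs_mul, abs_mul, abs_two, abs_of_pos Real.pi_pos]
      calc 2 * Real.pi * |(n : ℝ)| * |theta ω - ∑ j ∈ Finset.range J, digit j (ω j)|
          ≤ 2 * Real.pi * |(n : ℝ)| * (2 / kk J) :=
            mul_le_mul_of_nonneg_left (abs_theta_sub J ω) (by positivity)
        _ = 4 * Real.pi * |(n : ℝ)| / kk J := by ring
    · simp
  · refine Integrable.of_bound (Continuous.aestronglyMeasurable ?_) 1
      (Eventually.of_forall fun ω => ?_)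
    · have := continuous_theta
      fun_prop
    · rw [mul_comm]; exact (Complex.norm_exp_ofReal_mul_I _).le
  · refine Integrable.of_bound (Continuous.aestronglyMeasurable ?_) 1
      (Eventually.of_forall fun ω => ?_)
    · have : ∀ j, Continuous fun ω : ℕ → Bool => digit j (ω j) := fun j =>
        (continuous_of_discreteTopology (f := digit j)).comp (continuous_apply j)
      have h2 : Continuous fun ω : ℕ → Bool => ∑ j ∈ Finset.range J, digit j (ω j) :=
        continuous_finsetSum _ fun j _ => this j
      fun_prop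
    · rw [mul_comm]; exact (Complex.norm_exp_ofReal_mul_I _).le

end Pool.Agent.Helper41.Hilb
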