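import Mathlib

set_option autoImplicit false

namespace Pool.Agent.Helper41.Hilb

open Filter Topology ContinuousLinearMap

variable {H : Type*} [NormedAddCommGroup H] [InnerProductSpace ℂ H] [CompleteSpace H]
variable {ι : Type*}

/-- weak-operator limits along an ultrafilter -/
theorem exists_limit_operator (F : Ultrafilter ι) (V : ι → H ≃ₗᵢ[ℂ] H) :
    ∃ Q : H →L[ℂ] H, ∀ ξ h : H,
      Tendsto (fun i => inner ℂ ξ (V i h)) F (𝓝 (inner ℂ ξ (Q h))) := by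
  have key : ∀ ξ h : H, ∃ c : ℂ, Tendsto (fun i => inner ℂ ξ (V i h)) F (𝓝 c) := by
    intro ξ h
    have hc : IsCompact (Metric.closedBall (0 : ℂ) (‖ξ‖ * ‖h‖)) := isCompact_closedBall _ _
    have hle : ((F.map (fun i => inner ℂ ξ (V i h)) : Ultrafilter ℂ) : Filter ℂ) ≤
        𝓟 (Metric.closedBall (0 : ℂ) (‖ξ‖ * ‖h‖)) := by
      rw [le_principal_iff]
      refine Ultrafilter.mem_map.2 (Eventually.of_forall fun i => ?_)
      show inner ℂ ξ (V i h) ∈ Metric.closedBall (0 : ℂ) (‖ξ‖ * ‖h‖)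
      rw [mem_closedBall_zero_iff]
      calc ‖inner ℂ ξ (V i h)‖ ≤ ‖ξ‖ * ‖V i h‖ := norm_inner_le_norm _ _
        _ = ‖ξ‖ * ‖h‖ := by rw [(V i).norm_map]
    obtain ⟨c, -, hc'⟩ := hc.ultrafilter_le_nhds _ hle
    exact ⟨c, hc'⟩
  choose B hB using key
  have hbound : ∀ ξ h, ‖B ξ h‖ ≤ 1 * ‖ξ‖ * ‖h‖ := by
    intro ξ h
    rw [one_mul]
    refine le_of_tendsto (hB ξ h).norm (Eventually.of_forall fun i => ?_)
    calc ‖inner ℂ ξ (V i h)‖ ≤ ‖ξ‖ * ‖V i h‖ := norm_inner_le_norm _ _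
      _ = ‖ξ‖ * ‖h‖ := by rw [(V i).norm_map]
  let L : H →ₗ⋆[ℂ] H →ₗ[ℂ] ℂ := LinearMap.mk₂'ₛₗ (starRingEnd ℂ) (RingHom.id ℂ) B
    (by
      intro a b h
      refine tendsto_nhds_unique (hB (a + b) h) ?_
      simpa only [inner_add_left] using (hB a h).add (hB b h))
    (by
      intro c a h
      refine tendsto_nhds_unique (hB (c • a) h) ?_
      simpa only [inner_smul_left, smul_eq_mul] using
        (hB a h).const_mul ((starRingEnd ℂ) c))
    (by
      intro a h k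
      refine tendsto_nhds_unique (hB a (h + k)) ?_
      simpa only [map_add, inner_add_right] using (hB a h).add (hB a k))
    (by
      intro c a h
      refine tendsto_nhds_unique (hB a (c • h)) ?_
      simpa only [map_smul, inner_smul_right, smul_eq_mul, RingHom.id_apply] using
        (hB a h).const_mul c)
  let L' : H →L⋆[ℂ] H →L[ℂ] ℂ := L.mkContinuous₂ 1 hbound
  refine ⟨adjoint (InnerProductSpace.continuousLinearMapOfBilin L'), fun ξ h => ?_⟩
  rw [adjoint_inner_right, InnerProductSpace.continuousLinearMapOfBilin_apply]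
  exact hB ξ h

section

variable {F : Ultrafilter ι} {V : ι → H ≃ₗᵢ[ℂ] H} {Q : H →L[ℂ] H}

theorem norm_limit_le (hQ : ∀ ξ h : H,
      Tendsto (fun i => inner ℂ ξ (V i h)) F (𝓝 (inner ℂ ξ (Q h)))) (h : H) :
    ‖Q h‖ ≤ ‖h‖ := by
  have h1 : ‖(inner ℂ (Q h) (Q h) : ℂ)‖ ≤ ‖Q h‖ * ‖h‖ := by
    refine le_of_tendsto (hQ (Q h) h).norm (Eventually.of_forall fun i => ?_)
    calc ‖inner ℂ (Q h) (V i h)‖ ≤ ‖Q h‖ * ‖V i h‖ := norm_inner_le_norm _ _
      _ = ‖Q h‖ * ‖h‖ := by rw [(V i).norm_map]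
  rw [inner_self_eq_norm_sq_to_K] at h1
  have h2 : ‖Q h‖ * ‖Q h‖ ≤ ‖Q h‖ * ‖h‖ := by
    have : ‖((‖Q h‖ : ℂ)) ^ 2‖ = ‖Q h‖ * ‖Q h‖ := by
      rw [norm_pow, Complex.norm_real, norm_norm, sq]
    rw [← this]; exact h1
  rcases (norm_nonneg (Q h)).eq_or_lt with h0 | h0
  · rw [← h0]; exact norm_nonneg _
  · exact le_of_mul_le_mul_left h2 h0

/-- the adjoint of the limit is the limit of the inverses -/
theorem adjoint_limit (hQ : ∀ ξ h : H,
      Tendsto (fun i => inner ℂ ξ (V i h)) F (𝓝 (inner ℂ ξ (Q h)))) (ξ h : H) :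
    Tendsto (fun i => inner ℂ ξ ((V i).symm h)) F (𝓝 (inner ℂ ξ (adjoint Q h))) := by
  rw [adjoint_inner_right]
  have h1 := (Complex.continuous_conj.tendsto _).comp (hQ h ξ)
  rw [inner_conj_symm] at h1
  refine h1.congr fun i => ?_
  show (starRingEnd ℂ) (inner ℂ h (V i ξ)) = _
  rw [inner_conj_symm, ← LinearIsometryEquiv.inner_map_map (V i) ξ,
    LinearIsometryEquiv.apply_symm_apply]

theorem limit_comm (hQ : ∀ ξ h : H,
      Tendsto (fun i => inner ℂ ξ (V i h)) F (𝓝 (inner ℂ ξ (Q h)))) (W : H ≃ₗᵢ[ℂ] H)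
    (hW : ∀ i h, V i (W h) = W (V i h)) (h : H) : Q (W h) = W (Q h) := by
  refine ext_inner_left ℂ fun ξ => ?_
  refine tendsto_nhds_unique (hQ ξ (W h)) ?_
  have h1 := hQ (W.symm ξ) h
  have h2 : (inner ℂ ξ (W (Q h)) : ℂ) = inner ℂ (W.symm ξ) (Q h) := by
    rw [← LinearIsometryEquiv.inner_map_map W (W.symm ξ), LinearIsometryEquiv.apply_symm_apply]
  rw [h2]
  refine h1.congr fun i => ?_
  rw [hW, ← LinearIsometryEquiv.inner_map_map W (W.symm ξ),
    LinearIsometryEquiv.apply_symm_apply]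

theorem adjoint_comm (hQ : ∀ ξ h : H,
      Tendsto (fun i => inner ℂ ξ (V i h)) F (𝓝 (inner ℂ ξ (Q h)))) (W : H ≃ₗᵢ[ℂ] H)
    (hW : ∀ i h, V i (W h) = W (V i h)) (h : H) : adjoint Q (W h) = W (adjoint Q h) := by
  refine ext_inner_left ℂ fun ξ => ?_
  have h1 : Q (W.symm ξ) = W.symm (Q ξ) := by
    apply W.injective
    rw [← limit_comm hQ W hW, LinearIsometryEquiv.apply_symm_apply,
      LinearIsometryEquiv.apply_symm_apply]
  rw [adjoint_inner_right]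
  have h2 : (inner ℂ ξ (W (adjoint Q h)) : ℂ) = inner ℂ (W.symm ξ) (adjoint Q h) := by
    rw [← LinearIsometryEquiv.inner_map_map W (W.symm ξ), LinearIsometryEquiv.apply_symm_apply]
  rw [h2, adjoint_inner_right, h1, ← LinearIsometryEquiv.inner_map_map W (W.symm (Q ξ)),
    LinearIsometryEquiv.apply_symm_apply]

/-- for commuting unitaries the limit is normal -/
theorem limit_normal (hQ : ∀ ξ h : H,
      Tendsto (fun i => inner ℂ ξ (V i h)) F (𝓝 (inner ℂ ξ (Q h))))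
    (hV : ∀ i j h, V i (V j h) = V j (V i h)) (h : H) :
    Q (adjoint Q h) = adjoint Q (Q h) := by
  refine ext_inner_left ℂ fun ξ => ?_
  refine tendsto_nhds_unique (hQ ξ (adjoint Q h)) ?_
  rw [adjoint_inner_right]
  refine (hQ (Q ξ) h).congr fun i => ?_
  rw [← adjoint_inner_right, adjoint_comm hQ (V i) (fun j h => hV j i h)]

/-- the algebraic heart of the negative part: if `Q` is normal and `Q*Q` fixes `Q (Q v)`, then
`Q*Q` fixes `Q v`. -/
theorem normal_fix {Q : H →L[ℂ] H} (hN : ∀ h, Q (adjoint Q h) = adjoint Q (Q h)) (v : H)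
    (h : adjoint Q (Q (Q (Q v))) = Q (Q v)) : adjoint Q (Q (Q v)) = Q v := by
  have hker : ∀ u : H, Q (Q u) = 0 → Q u = 0 := by
    intro u hu
    have h1 : ‖adjoint Q (Q u)‖ = 0 := by
      have h2 : (inner ℂ (adjoint Q (Q u)) (adjoint Q (Q u)) : ℂ) = 0 := by
        rw [adjoint_inner_left, hN, hu, map_zero, inner_zero_right]
      rw [inner_self_eq_zero.1 h2, norm_zero]
    have h3 : (inner ℂ (Q u) (Q u) : ℂ) = 0 := by
      rw [← adjoint_inner_right, norm_eq_zero.1 h1, inner_zero_right]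
    exact inner_self_eq_zero.1 h3
  have h1 : Q (Q (v - adjoint Q (Q v))) = 0 := by
    rw [map_sub, map_sub, hN, hN, h, sub_self]
  have h2 := hker _ h1
  rw [map_sub, hN, sub_eq_zero] at h2
  exact h2.symm

/-- a contraction attaining the norm at `v` satisfies `Q*Qv=v`. -/
theorem adjoint_fix {Q : H →L[ℂ] H} (hQ : ∀ h, ‖Q h‖ ≤ ‖h‖) (v : H) (hv : ‖v‖ ≤ ‖Q v‖) :
    adjoint Q (Q v) = v := by
  have h1 : ‖adjoint Q (Q v)‖ ≤ ‖v‖ := by
    have h2 : ‖adjoint Q (Q v)‖ * ‖adjoint Q (Q v)‖ ≤ ‖adjoint Q (Q v)‖ * ‖Q v‖ := by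
      have h3 : (inner ℂ (adjoint Q (Q v)) (adjoint Q (Q v)) : ℂ) =
          inner ℂ (Q (adjoint Q (Q v))) (Q v) := by rw [adjoint_inner_right]
      have h4 : ‖adjoint Q (Q v)‖ * ‖adjoint Q (Q v)‖ =
          ‖(inner ℂ (Q (adjoint Q (Q v))) (Q v) : ℂ)‖ := by
        rw [← h3, inner_self_eq_norm_sq_to_K]
        rw [norm_pow]
        simp [sq]
      rw [h4]
      exact (norm_inner_le_norm _ _).trans (mul_le_mul_of_nonneg_right (hQ _) (norm_nonneg _))
    rcases (norm_nonneg (adjoint Q (Q v))).eq_or_lt with h0 | h0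
    · rw [← h0]; exact norm_nonneg _
    · exact (le_of_mul_le_mul_left h2 h0).trans (hQ v)
  have h5 : ‖adjoint Q (Q v) - v‖ ^ 2 ≤ 0 := by
    rw [@norm_sub_sq ℂ]
    have h6 : RCLike.re (inner ℂ (adjoint Q (Q v)) v : ℂ) = ‖Q v‖ ^ 2 := by
      rw [adjoint_inner_left, inner_self_eq_norm_sq_to_K]
      norm_cast
    rw [h6]
    have h7 : ‖adjoint Q (Q v)‖ ^ 2 ≤ ‖v‖ ^ 2 := by gcongr
    have h8 : ‖v‖ ^ 2 ≤ ‖Q v‖ ^ 2 := by gcongr
    linarith
  have h9 : ‖adjoint Q (Q v) - v‖ = 0 := by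
    have := le_antisymm h5 (sq_nonneg _)
    exact pow_eq_zero_iff (two_ne_zero) |>.1 this
  exact sub_eq_zero.1 (norm_eq_zero.1 h9)

end

end Pool.Agent.Helper41.Hilb
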