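import Mathlib
import Pool.Agent.Helper41.HilbDefs
import Pool.Agent.Helper41.HilbBasic
import Pool.Agent.Helper41.HilbLimit

set_option autoImplicit false

namespace Pool.Agent.Helper41.Hilb

open Filter Topology ContinuousLinearMap

/-- equivariance for all integer powers -/
theorem map_zpow {X : Type*} [TopologicalSpace X] {H : Type*} [NormedAddCommGroup H]
    [InnerProductSpace ℂ H] (T : X ≃ₜ X) (U : H ≃ₗᵢ[ℂ] H) (α : X → H)
    (hα : ∀ x, α (T x) = U (α x)) (n : ℤ) (x : X) :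
    α ((T ^ n : X ≃ₜ X) x) = (U ^ n : H ≃ₗᵢ[ℂ] H) (α x) := by
  have hinv : ∀ x, α (T⁻¹ x) = (U⁻¹ : H ≃ₗᵢ[ℂ] H) (α x) := by
    intro x
    apply U.injective
    rw [← hα]
    show α (T (T.symm x)) = U (U.symm (α x))
    rw [Homeomorph.apply_symm_apply, LinearIsometryEquiv.apply_symm_apply]
  induction n generalizing x with
  | zero => simp
  | succ n ih =>
    rw [zpow_add_one, zpow_add_one]
    show α ((T ^ (n : ℤ) : X ≃ₜ X) (T x)) = (U ^ (n : ℤ) : H ≃ₗᵢ[ℂ] H) (U (α x))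
    rw [ih, hα]
  | pred n ih =>
    rw [zpow_sub_one, zpow_sub_one]
    show α ((T ^ (-n : ℤ) : X ≃ₜ X) (T⁻¹ x)) = (U ^ (-n : ℤ) : H ≃ₗᵢ[ℂ] H) (U⁻¹ (α x))
    rw [ih, hinv]

theorem factor_zpow {X Y : Type*} [TopologicalSpace X] [TopologicalSpace Y]
    (T : X ≃ₜ X) (S : Y ≃ₜ Y) (π : X → Y)
    (hπ : ∀ x, π (T x) = S (π x)) (n : ℤ) (x : X) :
    π ((T ^ n : X ≃ₜ X) x) = (S ^ n : Y ≃ₜ Y) (π x) := by
  have hinv : ∀ x, π (T⁻¹ x) = (S⁻¹ : Y ≃ₜ Y) (π x) := by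
    intro x
    apply S.injective
    rw [← hπ]
    show π (T (T.symm x)) = S (S.symm (π x))
    rw [Homeomorph.apply_symm_apply, Homeomorph.apply_symm_apply]
  induction n generalizing x with
  | zero => simp
  | succ n ih =>
    rw [zpow_add_one, zpow_add_one]
    show π ((T ^ (n : ℤ) : X ≃ₜ X) (T x)) = (S ^ (n : ℤ) : Y ≃ₜ Y) (S (π x))
    rw [ih, hπ]
  | pred n ih =>
    rw [zpow_sub_one, zpow_sub_one]
    show π ((T ^ (-n : ℤ) : X ≃ₜ X) (T⁻¹ x)) = (S ^ (-n : ℤ) : Y ≃ₜ Y) (S⁻¹ (π x))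
    rw [ih, hinv]

/-- powers of an element of a compact subgroup return near every point -/
theorem exists_return {X : Type} [TopologicalSpace X] [CompactSpace X]
    [TopologicalSpace.MetrizableSpace X] (K : Subgroup (X ≃ₜ X)) (hK : IsCompactSubgroup K)
    (k : X ≃ₜ X) (hk : k ∈ K) (θ : X) (N : Set X) (hN : N ∈ 𝓝 θ) :
    ∃ p : ℕ, 1 ≤ p ∧ (k ^ p : X ≃ₜ X) θ ∈ N := by
  letI := TopologicalSpace.metrizableSpaceMetric X
  obtain ⟨ε, hε, hball⟩ := Metric.mem_nhds_iff.1 hN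
  let κ : ℕ → C(X, X) := fun n => ⟨(k ^ n : X ≃ₜ X), (k ^ n : X ≃ₜ X).continuous⟩
  have hκ : ∀ n, κ n ∈ ((fun k : X ≃ₜ X => (⟨k, k.continuous⟩ : C(X, X))) '' (K : Set (X ≃ₜ X))) :=
    fun n => ⟨k ^ n, K.pow_mem hk n, rfl⟩
  obtain ⟨a, -, φ, hφ, hlim⟩ := IsCompact.tendsto_subseq hK hκ
  have hC : CauchySeq (κ ∘ φ) := hlim.cauchySeq
  obtain ⟨M, hM⟩ := Metric.cauchySeq_iff.1 hC ε hε
  have h1 := hM (M + 1) (by omega) M le_rfl
  have hlt : φ M < φ (M + 1) := hφ (by omega)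
  refine ⟨φ (M + 1) - φ M, by omega, hball ?_⟩
  have h2 := lt_of_le_of_lt (ContinuousMap.dist_apply_le_dist ((k ^ (φ M) : X ≃ₜ X).symm θ)) h1
  have h3 : (κ ∘ φ) M ((k ^ (φ M) : X ≃ₜ X).symm θ) = θ :=
    Homeomorph.apply_symm_apply (k ^ (φ M) : X ≃ₜ X) θ
  have h4 : (κ ∘ φ) (M + 1) ((k ^ (φ M) : X ≃ₜ X).symm θ) =
      (k ^ (φ (M + 1) - φ M) : X ≃ₜ X) θ := by
    show (k ^ (φ (M + 1)) : X ≃ₜ X) ((k ^ (φ M) : X ≃ₜ X).symm θ) = _
    have : (k ^ (φ (M + 1)) : X ≃ₜ X) = (k ^ (φ (M + 1) - φ M) : X ≃ₜ X) * (k ^ (φ M) : X ≃ₜ X) := by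
      rw [← pow_add]; congr 1; omega
    rw [this]
    show (k ^ (φ (M + 1) - φ M) : X ≃ₜ X)
      ((k ^ (φ M) : X ≃ₜ X) ((k ^ (φ M) : X ≃ₜ X).symm θ)) = _
    rw [Homeomorph.apply_symm_apply]
  rw [h3, h4] at h2
  exact h2

/-- **Negative lemma.** In a group-factor of a Hilbert-representable system, if along a sequence
of times `y₀` is sent to `y₁` and `y₁` to a fixed point `z`, then `y₁ = z`. -/
theorem groupFactor_rigid {X Y : Type} [TopologicalSpace X] [CompactSpace X]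
    [TopologicalSpace Y] [T2Space Y] (T : X ≃ₜ X) (S : Y ≃ₜ Y)
    (hrep : IsHilbertRepresentable T) (hgf : IsGroupFactor S T) (y₀ y₁ z : Y) (m : ℕ → ℤ)
    (h1 : Tendsto (fun j => (S ^ m j : Y ≃ₜ Y) y₀) atTop (𝓝 y₁))
    (h2 : Tendsto (fun j => (S ^ m j : Y ≃ₜ Y) y₁) atTop (𝓝 z)) (hz : S z = z) : y₁ = z := by
  obtain ⟨hm, H, _, _, _, U, α, hinj, hcont, hα⟩ := hrep.exists_map
  obtain ⟨K, hK, hKT, π, ⟨hπc, hπs, hπ⟩, hfib⟩ := hgf
  let F : Ultrafilter ℕ := hyperfilter ℕ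
  have hF : (F : Filter ℕ) ≤ atTop := Nat.hyperfilter_le_atTop
  obtain ⟨Q, hQ⟩ := exists_limit_operator F (fun j => (U ^ m j : H ≃ₗᵢ[ℂ] H))
  have hVcomm : ∀ i j (h : H), (U ^ m i : H ≃ₗᵢ[ℂ] H) ((U ^ m j : H ≃ₗᵢ[ℂ] H) h) =
      (U ^ m j : H ≃ₗᵢ[ℂ] H) ((U ^ m i : H ≃ₗᵢ[ℂ] H) h) := by
    intro i j h
    show ((U ^ m i * U ^ m j : H ≃ₗᵢ[ℂ] H)) h = ((U ^ m j * U ^ m i : H ≃ₗᵢ[ℂ] H)) h
    rw [← zpow_add, ← zpow_add, add_comm]
  have hαz := map_zpow T U α hα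
  have hπz := factor_zpow T S π hπ
  -- pointwise limits in `X`
  have hlim : ∀ g : ℕ → X, ∃ x', Tendsto g F (𝓝 x') := by
    intro g
    obtain ⟨x', -, hx'⟩ := isCompact_univ.ultrafilter_le_nhds (F.map g)
      (by rw [principal_univ]; exact le_top)
    exact ⟨x', hx'⟩
  choose q hq using fun x : X => hlim (fun j => (T ^ m j : X ≃ₜ X) x)
  choose q' hq' using fun x : X => hlim (fun j => (T ^ (- m j) : X ≃ₜ X) x)
  have hαq : ∀ x, α (q x) = Q (α x) := by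
    intro x
    refine ext_inner_left ℂ fun ξ => ?_
    have e1 := ((hcont ξ).tendsto (q x)).comp (hq x)
    refine tendsto_nhds_unique e1 ?_
    refine (hQ ξ (α x)).congr fun j => ?_
    show _ = inner ℂ ξ (α ((T ^ m j : X ≃ₜ X) x))
    rw [hαz]
  have hαq' : ∀ x, α (q' x) = adjoint Q (α x) := by
    intro x
    refine ext_inner_left ℂ fun ξ => ?_
    have e1 := ((hcont ξ).tendsto (q' x)).comp (hq' x)
    refine tendsto_nhds_unique e1 ?_
    refine (adjoint_limit hQ ξ (α x)).congr fun j => ?_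
    show _ = inner ℂ ξ (α ((T ^ (-m j) : X ≃ₜ X) x))
    rw [hαz, zpow_neg]
    rfl
  haveI : T2Space X := inferInstance
  obtain ⟨x₀, hx₀⟩ := hπs y₀
  have hπx₁ : π (q x₀) = y₁ := by
    have e1 := (hπc.tendsto (q x₀)).comp (hq x₀)
    refine tendsto_nhds_unique e1 ((h1.mono_left hF).congr fun j => ?_)
    show _ = π ((T ^ m j : X ≃ₜ X) x₀)
    rw [hπz, hx₀]
  have hπx₂ : π (q (q x₀)) = z := by
    have e1 := (hπc.tendsto (q (q x₀))).comp (hq (q x₀))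
    refine tendsto_nhds_unique e1 ((h2.mono_left hF).congr fun j => ?_)
    show _ = π ((T ^ m j : X ≃ₜ X) (q x₀))
    rw [hπz, hπx₁]
  have hSz : ∀ n : ℤ, (S ^ n : Y ≃ₜ Y) z = z := by
    intro n
    have hinv : (S⁻¹ : Y ≃ₜ Y) z = z := by
      apply S.injective
      rw [hz]
      exact Homeomorph.apply_symm_apply S z
    induction n with
    | zero => simp
    | succ n ih =>
      rw [zpow_add_one]
      show (S ^ (n : ℤ) : Y ≃ₜ Y) (S z) = z
      rw [hz, ih]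
    | pred n ih =>
      rw [zpow_sub_one]
      show (S ^ (-n : ℤ) : Y ≃ₜ Y) (S⁻¹ z) = z
      rw [hinv, ih]
  have hπq : ∀ x, π x = z → π (q x) = z := by
    intro x hx
    have e1 := (hπc.tendsto (q x)).comp (hq x)
    refine tendsto_nhds_unique e1 (tendsto_const_nhds.congr fun j => ?_)
    show _ = π ((T ^ m j : X ≃ₜ X) x)
    rw [hπz, hx, hSz]
  have hπq' : ∀ x, π x = z → π (q' x) = z := by
    intro x hx
    have e1 := (hπc.tendsto (q' x)).comp (hq' x)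
    refine tendsto_nhds_unique e1 (tendsto_const_nhds.congr fun j => ?_)
    show _ = π ((T ^ (-m j) : X ≃ₜ X) x)
    rw [hπz, hx, hSz]
  -- `q` commutes with `K`
  have hKq : ∀ k ∈ K, ∀ x, q (k x) = k (q x) := by
    intro k hk x
    have hkT : ∀ n : ℤ, k ((T ^ n : X ≃ₜ X) x) = (T ^ n : X ≃ₜ X) (k x) := by
      intro n
      exact factor_zpow T T k (fun x => hKT k hk x) n x
    have e1 := (k.continuous.tendsto (q x)).comp (hq x)
    refine tendsto_nhds_unique (hq (k x)) (e1.congr fun j => ?_)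
    exact hkT (m j)
  -- the norm is preserved on the fibre of `z`
  have hnorm : ∀ θ, π θ = z → ‖α θ‖ ≤ ‖Q (α θ)‖ := by
    intro θ hθ
    obtain ⟨k, hk, hkθ⟩ := (hfib θ (q θ)).1 (hθ.trans (hπq θ hθ).symm)
    have hpow : ∀ n : ℕ, α ((k ^ n : X ≃ₜ X) θ) = (Q ^ n) (α θ) := by
      intro n
      induction n with
      | zero => simp
      | succ n ih =>
        have e1 : (k ^ (n + 1) : X ≃ₜ X) θ = q ((k ^ n : X ≃ₜ X) θ) := by
          rw [hKq (k ^ n) (K.pow_mem hk n), pow_succ, ← hkθ]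
          rfl
        rw [e1, hαq, ih, pow_succ']
        rfl
    have hQn : ∀ n : ℕ, ‖(Q ^ (n + 1)) (α θ)‖ ≤ ‖Q (α θ)‖ := by
      intro n
      induction n with
      | zero => simp
      | succ n ih =>
        have : (Q ^ (n + 1 + 1)) (α θ) = Q ((Q ^ (n + 1)) (α θ)) := by
          rw [pow_succ']; rfl
        rw [this]
        exact (norm_limit_le hQ _).trans ih
    have hsq : ‖α θ‖ * ‖α θ‖ ≤ ‖α θ‖ * ‖Q (α θ)‖ := by
      refine le_of_forall_pos_lt_add fun ε hε => ?_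
      have hg : Continuous fun x => ‖(inner ℂ (α θ) (α x) : ℂ)‖ := (hcont (α θ)).norm
      have hN : {x | ‖(inner ℂ (α θ) (α θ) : ℂ)‖ - ε < ‖(inner ℂ (α θ) (α x) : ℂ)‖} ∈ 𝓝 θ :=
        (isOpen_lt continuous_const hg).mem_nhds (by simpa using hε)
      obtain ⟨p, hp, hpN⟩ := exists_return K hK k hk θ _ hN
      obtain ⟨p, rfl⟩ : ∃ p', p = p' + 1 := ⟨p - 1, by omega⟩
      have e1 : ‖(inner ℂ (α θ) (α θ) : ℂ)‖ - ε <
          ‖(inner ℂ (α θ) (α ((k ^ (p + 1) : X ≃ₜ X) θ)) : ℂ)‖ := hpN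
      rw [hpow] at e1
      have e2 : ‖(inner ℂ (α θ) ((Q ^ (p + 1)) (α θ)) : ℂ)‖ ≤ ‖α θ‖ * ‖Q (α θ)‖ :=
        (norm_inner_le_norm _ _).trans (mul_le_mul_of_nonneg_left (hQn p) (norm_nonneg _))
      have e3 : ‖(inner ℂ (α θ) (α θ) : ℂ)‖ = ‖α θ‖ * ‖α θ‖ := by
        rw [inner_self_eq_norm_sq_to_K, norm_pow]
        simp [sq]
      rw [e3] at e1
      linarith
    rcases (norm_nonneg (α θ)).eq_or_lt with h0 | h0
    · rw [← h0]; exact norm_nonneg _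
    · exact le_of_mul_le_mul_left hsq h0
  have hfix : adjoint Q (Q (α (q (q x₀)))) = α (q (q x₀)) :=
    adjoint_fix (norm_limit_le hQ) _ (hnorm _ hπx₂)
  rw [hαq, hαq] at hfix
  have hfix2 := normal_fix (limit_normal hQ hVcomm) (α x₀) hfix
  have hxx : q' (q (q x₀)) = q x₀ := by
    apply hinj
    rw [hαq', hαq, hαq, hfix2]
  rw [← hπx₁, ← hxx]
  exact hπq' _ hπx₂

/-- the identity group gives the trivial group-factor -/
theorem isGroupFactor_self {X : Type} [TopologicalSpace X] (T : X ≃ₜ X) : IsGroupFactor T T := by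
  refine ⟨⊥, ?_, ?_, id, ⟨continuous_id, Function.surjective_id, fun x => rfl⟩, ?_⟩
  · unfold IsCompactSubgroup
    rw [Subgroup.coe_bot, Set.image_singleton]
    exact isCompact_singleton
  · intro k hk x
    rw [Subgroup.mem_bot] at hk
    rw [hk]; rfl
  · intro x x'
    constructor
    · intro h
      exact ⟨1, Subgroup.one_mem _, h⟩
    · rintro ⟨k, hk, rfl⟩
      rw [Subgroup.mem_bot] at hk
      rw [hk]; rfl

end Pool.Agent.Helper41.Hilb
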