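import Mathlib
import Pool.Agent.Helper41.HilbDefs
import Pool.Agent.Helper41.HilbNeg

set_option autoImplicit false

namespace Pool.Agent.Helper41.Hilb

open Filter Topology

section orbit

variable {W : Type} [TopologicalSpace W] (T : W ≃ₜ W) (x₀ : W)

/-- orbit closures -/
def orb : Set W := closure (Set.range fun n : ℤ => (T ^ n : W ≃ₜ W) x₀)

theorem image_range_orbit :
    T '' (Set.range fun n : ℤ => (T ^ n : W ≃ₜ W) x₀) =
      Set.range fun n : ℤ => (T ^ n : W ≃ₜ W) x₀ := by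
  ext y
  constructor
  · rintro ⟨_, ⟨n, rfl⟩, rfl⟩
    refine ⟨n + 1, ?_⟩
    show (T ^ (n + 1) : W ≃ₜ W) x₀ = T ((T ^ n : W ≃ₜ W) x₀)
    rw [add_comm, zpow_add, zpow_one]
    rfl
  · rintro ⟨n, rfl⟩
    refine ⟨(T ^ (n - 1) : W ≃ₜ W) x₀, ⟨n - 1, rfl⟩, ?_⟩
    show (T * T ^ (n - 1) : W ≃ₜ W) x₀ = (T ^ n : W ≃ₜ W) x₀
    rw [← zpow_one_add]
    congr 2
    ring

theorem orb_iff (x : W) : x ∈ orb T x₀ ↔ T x ∈ orb T x₀ := by
  have h : T '' (orb T x₀) = orb T x₀ := by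
    unfold orb
    rw [T.image_closure, image_range_orbit]
  constructor
  · intro hx
    rw [← h]; exact ⟨x, hx, rfl⟩
  · intro hx
    rw [← h] at hx
    obtain ⟨y, hy, hxy⟩ := hx
    rwa [← T.injective hxy]

/-- the restriction to the orbit closure -/
def orbMap : orb T x₀ ≃ₜ orb T x₀ := T.subtype (orb_iff T x₀)

theorem orbMap_zpow (n : ℤ) (x : orb T x₀) :
    (((orbMap T x₀) ^ n : orb T x₀ ≃ₜ orb T x₀) x : W) = (T ^ n : W ≃ₜ W) x :=
  factor_zpow (orbMap T x₀) T (fun x => (x : W)) (fun _ => rfl) n x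

/-- the base point -/
def base : orb T x₀ := ⟨x₀, subset_closure ⟨0, by simp⟩⟩

theorem base_transitive : IsTransitivePoint (orbMap T x₀) (base T x₀) := by
  intro x
  rw [closure_subtype]
  have h : (Subtype.val '' (Set.range fun n : ℤ => ((orbMap T x₀) ^ n : orb T x₀ ≃ₜ orb T x₀)
      (base T x₀))) = Set.range fun n : ℤ => (T ^ n : W ≃ₜ W) x₀ := by
    rw [← Set.range_comp]
    congr 1
    funext n
    exact orbMap_zpow T x₀ n (base T x₀)
  rw [h]
  exact x.2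

end orbit

/-- the shift of sequences -/
def shiftHomeo : (ℤ → ℝ) ≃ₜ (ℤ → ℝ) where
  toFun f n := f (n + 1)
  invFun f n := f (n - 1)
  left_inv f := by funext n; simp
  right_inv f := by funext n; simp
  continuous_toFun := by fun_prop
  continuous_invFun := by fun_prop

theorem shiftHomeo_zpow (m : ℤ) (f : ℤ → ℝ) (n : ℤ) :
    (shiftHomeo ^ m : (ℤ → ℝ) ≃ₜ (ℤ → ℝ)) f n = f (n + m) := by
  induction m generalizing f with
  | zero => simp
  | succ m ih =>
    rw [zpow_add_one]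
    show (shiftHomeo ^ (m : ℤ) : (ℤ → ℝ) ≃ₜ (ℤ → ℝ)) (shiftHomeo f) n = _
    rw [ih]
    show f (n + m + 1) = _
    congr 1
    ring
  | pred m ih =>
    rw [zpow_sub_one]
    show (shiftHomeo ^ (-m : ℤ) : (ℤ → ℝ) ≃ₜ (ℤ → ℝ)) (shiftHomeo.symm f) n = _
    rw [ih]
    show f (n + -m - 1) = _
    congr 1
    ring

end Pool.Agent.Helper41.Hilb
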