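import Mathlib
import Pool.Agent.Helper41.HilbDefs
import Pool.Agent.Helper41.HilbAlg
import Pool.Agent.Helper41.HilbCoin
import Pool.Agent.Helper41.HilbNeg
import Pool.Agent.Helper41.HilbOrbit

set_option autoImplicit false

namespace Pool.Agent.Helper41.Hilb

open MeasureTheory Filter Topology Null Complex

theorem tendsto_inv_kk : Tendsto (fun i : ℕ => 1 / (kk i : ℝ)) atTop (𝓝 0) := by
  refine squeeze_zero (fun i => by positivity) (fun i => ?_)
    (tendsto_pow_atTop_nhds_zero_of_lt_one (r := (1 / 4 : ℝ)) (by norm_num) (by norm_num))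
  have := inv_kk_add_le 0 i
  simpa [kk] using this

theorem tendsto_PJ (n : ℤ) : Tendsto (fun J => PJ J n) atTop (𝓝 (psi n)) := by
  rw [tendsto_iff_norm_sub_tendsto_zero]
  have h1 : Tendsto (fun i : ℕ => (4 * Real.pi * |(n : ℝ)|) * (1 / (kk i : ℝ))) atTop (𝓝 0) := by
    simpa using tendsto_inv_kk.const_mul (4 * Real.pi * |(n : ℝ)|)
  refine squeeze_zero (fun i => norm_nonneg _) (fun i => ?_) h1
  rw [norm_sub_rev]
  refine (norm_psi_sub_PJ i n).trans (le_of_eq ?_)
  ring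

theorem tendsto_psi (N : ℕ → ℤ) (n : ℤ) (c : ℂ) (ha : ∀ i, ∀ j ≤ i, ch j (N i) = ch j n)
    (hb : ∀ i, |(N i : ℝ)| ≤ |(n : ℝ)| + kk (i + 1))
    (hc : Tendsto (fun i => ch (i + 1) (N i)) atTop (𝓝 c)) :
    Tendsto (fun i => psi (N i)) atTop (𝓝 (psi n * ((1 + c) / 2))) := by
  have h1 : ∀ i, PJ (i + 2) (N i) = PJ (i + 1) n * ((1 + ch (i + 1) (N i)) / 2) := by
    intro i
    unfold PJ
    rw [Finset.prod_range_succ]
    congr 1
    refine Finset.prod_congr rfl fun j hj => ?_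
    rw [ha i j (by have := Finset.mem_range.1 hj; omega)]
  have h2 : Tendsto (fun i => PJ (i + 2) (N i)) atTop (𝓝 (psi n * ((1 + c) / 2))) := by
    simp only [h1]
    refine Tendsto.mul ((tendsto_PJ n).comp (tendsto_add_atTop_nat 1)) ?_
    exact (hc.const_add 1).div_const 2
  have h3 : Tendsto (fun i => psi (N i) - PJ (i + 2) (N i)) atTop (𝓝 0) := by
    have h4 : Tendsto (fun i : ℕ => (4 * Real.pi * (|(n : ℝ)| + 1)) * (1 / ((i : ℝ) + 1))) atTop
        (𝓝 0) := by
      simpa using tendsto_one_div_add_atTop_nhds_zero_nat.const_mul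
        (4 * Real.pi * (|(n : ℝ)| + 1))
    refine squeeze_zero_norm (fun i => ?_) h4
    refine (norm_psi_sub_PJ (i + 2) (N i)).trans ?_
    have h5 : (0 : ℝ) < kk (i + 1) := by exact_mod_cast kk_pos (i + 1)
    have h6 : (1 : ℝ) ≤ kk (i + 1) := by exact_mod_cast kk_pos (i + 1)
    have h7 : (kk (i + 2) : ℝ) = 4 * ((i : ℝ) + 2) * kk (i + 1) := by
      have := kk_succ (i + 1)
      rw [show i + 2 = i + 1 + 1 from rfl, this]
      push_cast; ring
    rw [div_le_iff₀ (by rw [h7]; positivity), h7]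
    have h8 : |(N i : ℝ)| ≤ (|(n : ℝ)| + 1) * kk (i + 1) := by
      refine (hb i).trans ?_
      nlinarith [abs_nonneg (n : ℝ)]
    calc 4 * Real.pi * |(N i : ℝ)| ≤ 4 * Real.pi * ((|(n : ℝ)| + 1) * kk (i + 1)) :=
          mul_le_mul_of_nonneg_left h8 (by positivity)
      _ = 4 * Real.pi * (|(n : ℝ)| + 1) * (1 / ((i : ℝ) + 1)) * (((i : ℝ) + 1) * kk (i + 1)) := by
          field_simp
      _ ≤ 4 * Real.pi * (|(n : ℝ)| + 1) * (1 / ((i : ℝ) + 1)) *
            (4 * ((i : ℝ) + 2) * kk (i + 1)) := by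
          refine mul_le_mul_of_nonneg_left ?_ (by positivity)
          nlinarith
  have := h3.add h2
  simpa using this

theorem tendsto_ch (n : ℝ) : Tendsto (fun i => ch i n) atTop (𝓝 1) := by
  rw [tendsto_iff_norm_sub_tendsto_zero]
  have h1 : Tendsto (fun i : ℕ => (2 * Real.pi * |n|) * (1 / 4 : ℝ) ^ i) atTop (𝓝 0) := by
    simpa using (tendsto_pow_atTop_nhds_zero_of_lt_one (r := (1 / 4 : ℝ)) (by norm_num)
      (by norm_num)).const_mul (2 * Real.pi * |n|)
  exact squeeze_zero (fun i => norm_nonneg _)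
    (fun i => (norm_ch_sub_one_le i n).trans (abs_ang_le i n)) h1

/-- the times -/
def mm (i : ℕ) : ℤ := ((i + 1) * kk i : ℕ)

theorem tendsto_psi_mm (n : ℤ) :
    Tendsto (fun i => psi (n + mm i)) atTop (𝓝 (psi n * ((1 + I) / 2))) := by
  have e0 : ∀ i, ((mm i : ℤ) : ℝ) = (((i + 1) * kk i : ℕ) : ℝ) := fun i => by
    unfold mm; exact Int.cast_natCast _
  refine tendsto_psi (fun i => n + mm i) n I (fun i j hj => ?_) (fun i => ?_) ?_
  · push_cast
    rw [ch_add, e0, ch_mul_kk j _ (Dvd.dvd.mul_left (kk_dvd hj) _), mul_one]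
  · push_cast
    rw [e0]
    refine (abs_add_le _ _).trans ?_
    rw [abs_of_nonneg (a := (((i + 1) * kk i : ℕ) : ℝ)) (by positivity)]
    have : (((i + 1) * kk i : ℕ) : ℝ) ≤ kk (i + 1) := by
      have h : (i + 1) * kk i ≤ kk (i + 1) := by rw [kk_succ]; nlinarith [kk_pos i]
      exact_mod_cast h
    linarith
  · have h1 : ∀ i : ℕ, ch (i + 1) (((n + mm i : ℤ)) : ℝ) = ch (i + 1) n * I := by
      intro i
      push_cast
      rw [ch_add, e0]
      congr 1
      unfold ch ang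
      have hk : (kk i : ℝ) ≠ 0 := by exact_mod_cast (kk_pos i).ne'
      have hi : ((i : ℝ) + 1) ≠ 0 := by positivity
      have h2 : 2 * Real.pi * (((i + 1) * kk i : ℕ) : ℝ) / (kk (i + 1) : ℕ) = Real.pi / 2 := by
        rw [kk_succ]
        push_cast
        field_simp
        norm_num
      rw [h2, mul_comm]
      push_cast
      exact Complex.exp_pi_div_two_mul_I
    simp only [h1]
    have h3 := ((tendsto_ch n).comp (tendsto_add_atTop_nat 1)).mul_const I
    simpa using h3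

theorem tendsto_psi_kk (n : ℤ) :
    Tendsto (fun i => psi (n + kk (i + 1))) atTop (𝓝 (psi n)) := by
  have e0 : ∀ i, (((kk (i + 1) : ℕ) : ℤ) : ℝ) = ((kk (i + 1) : ℕ) : ℝ) := fun i =>
    Int.cast_natCast _
  have h := tendsto_psi (fun i => n + kk (i + 1)) n 1 (fun i j hj => ?_) (fun i => ?_) ?_
  · have e1 : psi n * ((1 + 1) / 2) = psi n := by norm_num
    rwa [e1] at h
  · rw [Int.cast_add, ch_add, e0, ch_mul_kk j _ (kk_dvd (by omega)), mul_one]
  · rw [Int.cast_add, e0]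
    refine (abs_add_le _ _).trans ?_
    rw [abs_of_nonneg (a := ((kk (i + 1) : ℕ) : ℝ)) (by positivity)]
  · have h1 : ∀ i : ℕ, ch (i + 1) (((n + kk (i + 1) : ℤ)) : ℝ) = ch (i + 1) n := by
      intro i
      rw [Int.cast_add, ch_add, e0, ch_mul_kk (i + 1) _ (dvd_refl _), mul_one]
    simp only [h1]
    exact (tendsto_ch n).comp (tendsto_add_atTop_nat 1)

theorem psi_zero : psi 0 = 1 := by
  unfold psi transform
  simp

theorem norm_psi_le (n : ℤ) : ‖psi n‖ ≤ 1 := by
  have := norm_transform_le mu0 n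
  simpa [psi] using this

/-- the generating function -/
noncomputable def ff (n : ℤ) : ℝ := max 0 (‖psi n‖ ^ 2 - 1 / 4)

/-- the intermediate limit -/
noncomputable def ff1 (n : ℤ) : ℝ := max 0 (‖psi n‖ ^ 2 / 2 - 1 / 4)

theorem ff_zero : ff 0 = 3 / 4 := by unfold ff; rw [psi_zero]; norm_num

theorem ff1_zero : ff1 0 = 1 / 4 := by unfold ff1; rw [psi_zero]; norm_num

theorem norm_half : ‖((1 : ℂ) + I) / 2‖ ^ 2 = 1 / 2 := by
  rw [← Complex.normSq_eq_norm_sq, Complex.normSq_apply]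
  simp
  norm_num

theorem tendsto_ff_mm (n : ℤ) : Tendsto (fun i => ff (n + mm i)) atTop (𝓝 (ff1 n)) := by
  have h1 := ((tendsto_psi_mm n).norm.pow 2).sub_const (1 / 4)
  have h2 := (tendsto_const_nhds (x := (0 : ℝ))).max h1
  rw [norm_mul, mul_pow, norm_half] at h2
  have e : ff1 n = max 0 (‖psi n‖ ^ 2 * (1 / 2) - 1 / 4) := by unfold ff1; congr 2; ring
  rw [e]
  exact h2

theorem tendsto_ff1_mm (n : ℤ) : Tendsto (fun i => ff1 (n + mm i)) atTop (𝓝 0) := by
  have h1 := (((tendsto_psi_mm n).norm.pow 2).div_const 2).sub_const (1 / 4)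
  have h2 := (tendsto_const_nhds (x := (0 : ℝ))).max h1
  rw [norm_mul, mul_pow, norm_half] at h2
  have e : max 0 (‖psi n‖ ^ 2 * (1 / 2) / 2 - 1 / 4) = (0 : ℝ) := by
    rw [max_eq_left]
    have := norm_psi_le n
    have h0 := norm_nonneg (psi n)
    nlinarith
  rw [e] at h2
  exact h2

theorem tendsto_ff_kk (n : ℤ) : Tendsto (fun i => ff (n + kk (i + 1))) atTop (𝓝 (ff n)) := by
  have h1 := ((tendsto_psi_kk n).norm.pow 2).sub_const (1 / 4)
  exact (tendsto_const_nhds (x := (0 : ℝ))).max h1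

theorem ff_mem_HZ : (fun n => ((ff n : ℝ) : ℂ)) ∈ HZ := by
  have h1 : (fun n => ((‖psi n‖ ^ 2 : ℝ) : ℂ)) ∈ HZ := by
    have h2 := mul_mem_BZ (star_mem_BZ (transform_mem mu0)) (transform_mem mu0)
    have e : (fun n => ((‖psi n‖ ^ 2 : ℝ) : ℂ)) = star (transform mu0) * transform mu0 := by
      funext n
      show ((‖psi n‖ ^ 2 : ℝ) : ℂ) = (starRingEnd ℂ) (psi n) * psi n
      rw [Complex.conj_mul']
      push_cast; rfl
    rw [e]
    exact BZ_subset_HZ h2
  exact comp_mem_HZ (a := 0) (b := 1) h1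
    (fun n => ⟨by positivity, pow_le_one₀ (norm_nonneg _) (norm_psi_le n)⟩)
    (fun t => max 0 (t - 1 / 4)) (by fun_prop)

theorem ff_mem_Icc (n : ℤ) : ff n ∈ Set.Icc (0 : ℝ) 1 := by
  refine ⟨le_max_left _ _, max_le zero_le_one ?_⟩
  have h2 : ‖psi n‖ ^ 2 ≤ 1 := pow_le_one₀ (norm_nonneg _) (norm_psi_le n)
  linarith

/-- the example -/
abbrev YY : Set (ℤ → ℝ) := orb shiftHomeo ff

/-- the transformation of the example -/
noncomputable abbrev SS : YY ≃ₜ YY := orbMap shiftHomeo ff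

theorem isCompact_YY : IsCompact YY := by
  have h : YY ⊆ Set.univ.pi fun _ : ℤ => Set.Icc (0 : ℝ) 1 := by
    refine closure_minimal ?_ (isClosed_set_pi fun _ _ => isClosed_Icc)
    rintro _ ⟨m, rfl⟩ n -
    show (shiftHomeo ^ m : (ℤ → ℝ) ≃ₜ (ℤ → ℝ)) ff n ∈ _
    rw [shiftHomeo_zpow]
    exact ff_mem_Icc _
  exact (isCompact_univ_pi fun _ => isCompact_Icc).of_isClosed_subset isClosed_closure h

theorem tendsto_f_mm : Tendsto (fun i => (shiftHomeo ^ mm i : (ℤ → ℝ) ≃ₜ (ℤ → ℝ)) ff) atTop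
    (𝓝 ff1) := by
  rw [tendsto_pi_nhds]
  intro n
  simp only [shiftHomeo_zpow]
  exact tendsto_ff_mm n

theorem tendsto_f1_mm : Tendsto (fun i => (shiftHomeo ^ mm i : (ℤ → ℝ) ≃ₜ (ℤ → ℝ)) ff1) atTop
    (𝓝 0) := by
  rw [tendsto_pi_nhds]
  intro n
  simp only [shiftHomeo_zpow]
  exact tendsto_ff1_mm n

theorem orb_zpow {W : Type} [TopologicalSpace W] (T : W ≃ₜ W) (x₀ : W) {x : W}
    (hx : x ∈ orb T x₀) (n : ℤ) : (T ^ n : W ≃ₜ W) x ∈ orb T x₀ := by
  have := ((orbMap T x₀ ^ n : orb T x₀ ≃ₜ orb T x₀) ⟨x, hx⟩).2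
  rwa [orbMap_zpow] at this

theorem ff1_mem : ff1 ∈ YY := by
  refine isClosed_closure.mem_of_tendsto tendsto_f_mm (Eventually.of_forall fun i => ?_)
  exact subset_closure ⟨mm i, rfl⟩

theorem zero_mem : (0 : ℤ → ℝ) ∈ YY := by
  refine isClosed_closure.mem_of_tendsto tendsto_f1_mm (Eventually.of_forall fun i => ?_)
  exact orb_zpow _ _ ff1_mem _

theorem kk_dvd_mm {i j : ℕ} (h : i ≤ j) : ∃ a : ℤ, mm j = a * kk i := by
  obtain ⟨b, hb⟩ := Dvd.dvd.mul_left (kk_dvd h) (j + 1)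
  refine ⟨b, ?_⟩
  unfold mm
  rw [hb]
  push_cast
  ring

/-- no isolated points -/
theorem no_isolated (y : YY) : ¬ IsOpen ({y} : Set YY) := by
  intro hy
  -- some point of the orbit is isolated
  obtain ⟨_, hmem, n, rfl⟩ := (base_transitive shiftHomeo ff).inter_open_nonempty {y} hy ⟨y, rfl⟩
  rw [Set.mem_singleton_iff] at hmem
  subst hmem
  -- hence the base point is isolated
  have h1 : IsOpen ({base shiftHomeo ff} : Set YY) := by
    have h2 := hy.preimage (SS ^ n : YY ≃ₜ YY).continuous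
    convert h2 using 1
    ext x
    simp only [Set.mem_singleton_iff, Set.mem_preimage]
    constructor
    · rintro rfl; rfl
    · intro h; exact (SS ^ n : YY ≃ₜ YY).injective h
  -- the return times
  have h3 : Tendsto (fun i => (SS ^ (kk (i + 1) : ℤ) : YY ≃ₜ YY) (base shiftHomeo ff)) atTop
      (𝓝 (base shiftHomeo ff)) := by
    rw [tendsto_subtype_rng]
    simp only [orbMap_zpow]
    rw [tendsto_pi_nhds]
    intro n
    simp only [base, shiftHomeo_zpow]
    exact tendsto_ff_kk n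
  obtain ⟨i, hi⟩ := (h3.eventually (h1.mem_nhds rfl)).exists
  have h4 : (shiftHomeo ^ (kk (i + 1) : ℤ) : (ℤ → ℝ) ≃ₜ (ℤ → ℝ)) ff = ff := by
    have h5 := congrArg Subtype.val (Set.mem_singleton_iff.1 hi)
    rw [orbMap_zpow] at h5
    exact h5
  have h5 : ∀ n, ff (n + kk (i + 1)) = ff n := by
    intro n
    have := congrFun h4 n
    rwa [shiftHomeo_zpow] at this
  have h6 : ∀ (a : ℤ) n, ff (n + a * kk (i + 1)) = ff n := by
    intro a
    induction a with
    | zero => intro n; simp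
    | succ a ih =>
      intro n
      rw [add_mul, one_mul, ← add_assoc, h5, ih]
    | pred a ih =>
      intro n
      rw [← h5 (n + _), sub_mul, one_mul]
      have e : n + (-(a : ℤ) * kk (i + 1) - kk (i + 1)) + kk (i + 1) = n + -(a : ℤ) * kk (i + 1) := by
        ring
      rw [e, ih]
  have h7 : ff 0 = ff1 0 := by
    refine tendsto_nhds_unique (tendsto_const_nhds.congr' ?_) (tendsto_ff_mm 0)
    filter_upwards [eventually_ge_atTop (i + 1)] with j hj
    obtain ⟨a, ha⟩ := kk_dvd_mm hj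
    rw [ha, h6]
  rw [ff_zero, ff1_zero] at h7
  norm_num at h7

/-- a criterion for being a Hilbert system -/
theorem isHilbertSystem_of_separates {X : Type} [TopologicalSpace X] [CompactSpace X]
    (T : X ≃ₜ X) (x₀ : X) (hx₀ : IsTransitivePoint T x₀)
    (hsep : ∀ x y : X, x ≠ y → ∃ F : C(X, ℂ), F x ≠ F y ∧
      (fun n : ℤ => F ((T ^ n : X ≃ₜ X) x₀)) ∈ HZ) : IsHilbertSystem T := by
  refine ⟨x₀, hx₀, fun F => ?_⟩
  let A : StarSubalgebra ℂ C(X, ℂ) :=
    { carrier := {F | (fun n : ℤ => F ((T ^ n : X ≃ₜ X) x₀)) ∈ HZ}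
      mul_mem' := fun ha hb => mul_mem_HZ ha hb
      one_mem' := const_mem_HZ 1
      add_mem' := fun ha hb => add_mem_HZ ha hb
      zero_mem' := const_mem_HZ 0
      algebraMap_mem' := fun r => const_mem_HZ r
      star_mem' := fun ha => star_mem_HZ ha }
  have hA : A.SeparatesPoints := by
    intro x y hxy
    obtain ⟨G, hG, hG'⟩ := hsep x y hxy
    exact ⟨G, ⟨G, hG', rfl⟩, hG⟩
  have hcl : A.topologicalClosure = ⊤ :=
    ContinuousMap.starSubalgebra_topologicalClosure_eq_top_of_separatesPoints A hA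
  have hF : F ∈ A.topologicalClosure := by rw [hcl]; exact trivial
  have hF' : F ∈ closure (A : Set C(X, ℂ)) := hF
  refine closed_HZ fun ε hε => ?_
  obtain ⟨G, hG, hd⟩ := Metric.mem_closure_iff.1 hF' ε hε
  refine ⟨_, hG, fun n => ?_⟩
  rw [← dist_eq_norm]
  exact (ContinuousMap.dist_apply_le_dist _).trans hd.le

theorem YY_recurrent : IsRecurrentTransitive SS :=
  ⟨⟨_, base_transitive shiftHomeo ff⟩, no_isolated⟩

instance : CompactSpace YY := isCompact_iff_compactSpace.1 isCompact_YY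

/-- coordinate functions -/
noncomputable def coordFn (n : ℤ) : C(YY, ℂ) :=
  ⟨fun z : YY => (((z : ℤ → ℝ) n : ℝ) : ℂ),
    Complex.continuous_ofReal.comp ((continuous_apply n).comp continuous_subtype_val)⟩

theorem YY_hilbert : IsHilbertSystem SS := by
  refine isHilbertSystem_of_separates SS (base shiftHomeo ff) (base_transitive shiftHomeo ff) ?_
  intro x y hxy
  have h1 : (x : ℤ → ℝ) ≠ y := fun h => hxy (Subtype.ext h)
  obtain ⟨n, hn⟩ := Function.ne_iff.1 h1
  refine ⟨coordFn n, ?_, ?_⟩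
  · intro h
    exact hn (Complex.ofReal_injective h)
  · have h2 := shift_mem_HZ ff_mem_HZ n
    have e : (fun m : ℤ => coordFn n
        ((SS ^ m : YY ≃ₜ YY) (base shiftHomeo ff))) = fun m => ((ff (m + n) : ℝ) : ℂ) := by
      funext m
      show (((((SS ^ m : YY ≃ₜ YY) (base shiftHomeo ff) : YY) : ℤ → ℝ) n : ℝ) : ℂ) = _
      rw [orbMap_zpow, shiftHomeo_zpow, add_comm]
      rfl
    rw [e]
    exact h2

theorem YY_not_groupFactor {X : Type} [TopologicalSpace X] [CompactSpace X] (T : X ≃ₜ X)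
    (hT : IsHilbertRepresentable T) : ¬ IsGroupFactor SS T := by
  intro h
  have h1 : Tendsto (fun i => (SS ^ mm i : YY ≃ₜ YY) (base shiftHomeo ff)) atTop
      (𝓝 (⟨ff1, ff1_mem⟩ : YY)) := by
    rw [tendsto_subtype_rng]
    simp only [orbMap_zpow]
    exact tendsto_f_mm
  have h2 : Tendsto (fun i => (SS ^ mm i : YY ≃ₜ YY) (⟨ff1, ff1_mem⟩ : YY)) atTop
      (𝓝 (⟨0, zero_mem⟩ : YY)) := by
    rw [tendsto_subtype_rng]
    simp only [orbMap_zpow]
    exact tendsto_f1_mm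
  have h3 : SS ⟨0, zero_mem⟩ = ⟨0, zero_mem⟩ := by
    apply Subtype.ext
    rfl
  have h4 := groupFactor_rigid T SS hT h _ _ _ mm h1 h2 h3
  have h5 := congrFun (congrArg Subtype.val h4) 0
  have h6 : ff1 0 = 0 := h5
  rw [ff1_zero] at h6
  norm_num at h6

end Pool.Agent.Helper41.Hilb
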