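import Mathlib
import Pool.Agent.Helper41.HilbDefs
import Pool.Agent.Helper41.HilbBasic
import Pool.Agent.Helper41.HilbLimit
import Pool.Agent.Helper41.HilbNeg
import Pool.Agent.Helper41.HilbOrbit

set_option autoImplicit false

namespace Pool.Agent.Helper41.Hilb

open Filter Topology ContinuousLinearMap

/-- a criterion for almost 1-1 maps -/
theorem isAlmostOneOne_of_dense {X Y : Type} [TopologicalSpace X] [TopologicalSpace Y]
    [CompactSpace X] [TopologicalSpace.MetrizableSpace X] [T2Space Y] (π : X → Y)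
    (hπ : Continuous π) (D : Set X) (hD : Dense D) (h : ∀ x ∈ D, π ⁻¹' {π x} = {x}) :
    IsAlmostOneOne π := by
  let _ := TopologicalSpace.metrizableSpaceMetric X
  let V : ℕ → Set Y := fun n => ⋃₀ {W | IsOpen W ∧ ∀ a b : X, π a ∈ W → π b ∈ W →
    dist a b ≤ 1 / ((n : ℝ) + 1)}
  have hV : ∀ n, IsOpen (V n) := fun n => isOpen_sUnion fun W hW => hW.1
  refine ⟨⋂ n, π ⁻¹' (V n), ?_, ?_, ?_⟩
  · refine hD.mono fun x hx => Set.mem_iInter.2 fun n => ?_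
    have hr : (0 : ℝ) < 1 / (2 * ((n : ℝ) + 1)) := by positivity
    set B := Metric.ball x (1 / (2 * ((n : ℝ) + 1))) with hB
    have hcl : IsClosed (π '' Bᶜ) :=
      (Metric.isOpen_ball.isClosed_compl.isCompact.image hπ).isClosed
    have hsub : ∀ a : X, π a ∈ (π '' Bᶜ)ᶜ → a ∈ B := by
      intro a ha
      by_contra hc
      exact ha ⟨a, hc, rfl⟩
    refine Set.mem_sUnion.2 ⟨(π '' Bᶜ)ᶜ, ⟨hcl.isOpen_compl, ?_⟩, ?_⟩
    · intro a b ha hb
      have h1 := Metric.mem_ball.1 (hsub a ha)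
      have h2 := Metric.mem_ball.1 (hsub b hb)
      rw [dist_comm] at h2
      calc dist a b ≤ dist a x + dist x b := dist_triangle _ _ _
        _ ≤ 1 / (2 * ((n : ℝ) + 1)) + 1 / (2 * ((n : ℝ) + 1)) := add_le_add h1.le h2.le
        _ = 1 / ((n : ℝ) + 1) := by field_simp; norm_num
    · rintro ⟨x', hx', hxx⟩
      have h1 : x' ∈ π ⁻¹' {π x} := hxx
      rw [h x hx, Set.mem_singleton_iff] at h1
      rw [h1] at hx'
      exact hx' (Metric.mem_ball_self hr)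
  · exact IsGδ.iInter_of_isOpen fun n => (hV n).preimage hπ
  · intro x hx
    apply Set.Subset.antisymm
    · intro x' hx'
      rw [Set.mem_singleton_iff]
      have h1 : ∀ n : ℕ, dist x' x ≤ 1 / ((n : ℝ) + 1) := by
        intro n
        obtain ⟨W, hW, hxW⟩ := Set.mem_sUnion.1 (Set.mem_iInter.1 hx n)
        refine hW.2 x' x ?_ hxW
        rw [Set.mem_preimage, Set.mem_singleton_iff] at hx'
        rw [hx']
        exact hxW
      have h2 : dist x' x ≤ 0 := ge_of_tendsto tendsto_one_div_add_atTop_nhds_zero_nat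
        (Eventually.of_forall h1)
      exact dist_le_zero.1 h2
    · rintro _ rfl
      exact rfl

/-- the minimal norm element of a closed convex set is unique -/
theorem eq_of_minimal {H : Type*} [NormedAddCommGroup H] [InnerProductSpace ℂ H]
    {C : Set H} (hC : Convex ℝ C) {w u : H} (hw : w ∈ C) (hmin : ∀ c ∈ C, ‖w‖ ≤ ‖c‖)
    (hu : u ∈ C) (huw : ‖u‖ ≤ ‖w‖) : u = w := by
  have hmid : (1 / 2 : ℝ) • u + (1 / 2 : ℝ) • w ∈ C :=
    hC hu hw (by norm_num) (by norm_num) (by norm_num)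
  have h1 := hmin _ hmid
  have h2 : ‖(1 / 2 : ℝ) • u + (1 / 2 : ℝ) • w‖ = ‖u + w‖ / 2 := by
    rw [← smul_add, norm_smul]; norm_num; ring
  rw [h2] at h1
  have h3 := parallelogram_law_with_norm ℂ u w
  have h4 : ‖u - w‖ * ‖u - w‖ ≤ 0 := by
    have h5 : (2 * ‖w‖) * (2 * ‖w‖) ≤ ‖u + w‖ * ‖u + w‖ := by
      have : 2 * ‖w‖ ≤ ‖u + w‖ := by linarith
      exact mul_self_le_mul_self (by positivity) this
    have h6 : ‖u‖ * ‖u‖ ≤ ‖w‖ * ‖w‖ := mul_self_le_mul_self (norm_nonneg _) huw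
    linarith
  have h5 : ‖u - w‖ = 0 := by
    have := le_antisymm h4 (mul_self_nonneg _)
    exact mul_self_eq_zero.1 this
  exact sub_eq_zero.1 (norm_eq_zero.1 h5)

/-- the backward shift of sequences -/
def backShift : (ℤ → ℂ) ≃ₜ (ℤ → ℂ) where
  toFun f n := f (n - 1)
  invFun f n := f (n + 1)
  left_inv f := by funext n; simp
  right_inv f := by funext n; simp
  continuous_toFun := by fun_prop
  continuous_invFun := by fun_prop

theorem backShift_zpow (m : ℤ) (f : ℤ → ℂ) (n : ℤ) :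
    (backShift ^ m : (ℤ → ℂ) ≃ₜ (ℤ → ℂ)) f n = f (n - m) := by
  induction m generalizing f with
  | zero => simp
  | succ m ih =>
    rw [zpow_add_one]
    show (backShift ^ (m : ℤ) : (ℤ → ℂ) ≃ₜ (ℤ → ℂ)) (backShift f) n = _
    rw [ih]
    show f (n - m - 1) = _
    congr 1
    ring
  | pred m ih =>
    rw [zpow_sub_one]
    show (backShift ^ (-m : ℤ) : (ℤ → ℂ) ≃ₜ (ℤ → ℂ)) (backShift.symm f) n = _
    rw [ih]
    show f (n - -m + 1) = _
    congr 1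
    ring

theorem prodCongr_zpow {A B : Type} [TopologicalSpace A] [TopologicalSpace B] (T : A ≃ₜ A)
    (S : B ≃ₜ B) (n : ℤ) (p : A × B) :
    ((T.prodCongr S) ^ n : (A × B) ≃ₜ (A × B)) p = ((T ^ n : A ≃ₜ A) p.1, (S ^ n : B ≃ₜ B) p.2) := by
  refine Prod.ext ?_ ?_
  · exact factor_zpow (T.prodCongr S) T Prod.fst (fun _ => rfl) n p
  · exact factor_zpow (T.prodCongr S) S Prod.snd (fun _ => rfl) n p

/-- ultrafilter description of orbit closures -/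
theorem exists_ultrafilter_of_mem_orb {W : Type} [TopologicalSpace W] (T : W ≃ₜ W) (x₀ x : W)
    (hx : x ∈ orb T x₀) : ∃ F : Ultrafilter ℤ,
      Tendsto (fun n : ℤ => (T ^ n : W ≃ₜ W) x₀) F (𝓝 x) := by
  have h1 : MapClusterPt x ⊤ (fun n : ℤ => (T ^ n : W ≃ₜ W) x₀) := by
    unfold MapClusterPt
    rw [Filter.map_top]
    exact mem_closure_iff_clusterPt.1 hx
  obtain ⟨F, -, hF⟩ := mapClusterPt_iff_ultrafilter.1 h1
  exact ⟨F, hF⟩

section pow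

variable {H : Type} [NormedAddCommGroup H] [InnerProductSpace ℂ H]

theorem zpow_zpow_apply (U : H ≃ₗᵢ[ℂ] H) (a b : ℤ) (h : H) :
    (U ^ a : H ≃ₗᵢ[ℂ] H) ((U ^ b : H ≃ₗᵢ[ℂ] H) h) = (U ^ (a + b) : H ≃ₗᵢ[ℂ] H) h := by
  rw [zpow_add]; rfl

theorem homeo_zpow_zpow {Y : Type} [TopologicalSpace Y] (S : Y ≃ₜ Y) (a b : ℤ) (y : Y) :
    (S ^ a : Y ≃ₜ Y) ((S ^ b : Y ≃ₜ Y) y) = (S ^ (a + b) : Y ≃ₜ Y) y := by
  rw [zpow_add]; rfl

theorem inner_zpow (U : H ≃ₗᵢ[ℂ] H) (a : ℤ) (x y : H) :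
    inner ℂ x ((U ^ a : H ≃ₗᵢ[ℂ] H) y) = inner ℂ ((U ^ (-a) : H ≃ₗᵢ[ℂ] H) x) y := by
  rw [← LinearIsometryEquiv.inner_map_map (U ^ a : H ≃ₗᵢ[ℂ] H)
    ((U ^ (-a) : H ≃ₗᵢ[ℂ] H) x) y, zpow_zpow_apply, add_neg_cancel, zpow_zero]
  rfl

end pow

/-- the closed convex set of approximate representatives -/
def appSet {Y : Type} [TopologicalSpace Y] (S : Y ≃ₜ Y) (y₀ : Y)
    {H : Type} [NormedAddCommGroup H] [InnerProductSpace ℂ H]
    (U : H ≃ₗᵢ[ℂ] H) {ι : Type} (G : ι → C(Y, ℂ)) (ξ : ι → H) (ε : ι → ℝ) : Set H :=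
  {u | ∀ i (n : ℤ),
    ‖G i ((S ^ n : Y ≃ₜ Y) y₀) - inner ℂ (ξ i) ((U ^ n : H ≃ₗᵢ[ℂ] H) u)‖ ≤ ε i}

section app

variable {Y : Type} [TopologicalSpace Y] (S : Y ≃ₜ Y) (y₀ : Y)
  {H : Type} [NormedAddCommGroup H] [InnerProductSpace ℂ H]
  (U : H ≃ₗᵢ[ℂ] H) {ι : Type} (G : ι → C(Y, ℂ)) (ξ : ι → H) (ε : ι → ℝ)

theorem isClosed_appSet : IsClosed (appSet S y₀ U G ξ ε) := by
  have : appSet S y₀ U G ξ ε = ⋂ i, ⋂ n : ℤ, {u | ‖G i ((S ^ n : Y ≃ₜ Y) y₀) -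
      inner ℂ (ξ i) ((U ^ n : H ≃ₗᵢ[ℂ] H) u)‖ ≤ ε i} := by
    ext u; simp [appSet]
  rw [this]
  refine isClosed_iInter fun i => isClosed_iInter fun n => isClosed_le ?_ continuous_const
  have : Continuous fun u => (U ^ n : H ≃ₗᵢ[ℂ] H) u := (U ^ n : H ≃ₗᵢ[ℂ] H).continuous
  fun_prop

theorem convex_aux (g a b : ℂ) (s t e : ℝ) (hs : 0 ≤ s) (ht : 0 ≤ t) (hst : s + t = 1)
    (ha : ‖g - a‖ ≤ e) (hb : ‖g - b‖ ≤ e) : ‖g - ((s : ℂ) * a + (t : ℂ) * b)‖ ≤ e := by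
  have h2 : g - ((s : ℂ) * a + (t : ℂ) * b) = (s : ℂ) * (g - a) + (t : ℂ) * (g - b) := by
    have h3 : (s : ℂ) + (t : ℂ) = 1 := by exact_mod_cast hst
    linear_combination (-g) * h3
  rw [h2]
  refine (norm_add_le _ _).trans ?_
  rw [norm_mul, norm_mul, Complex.norm_real, Complex.norm_real, Real.norm_eq_abs,
    Real.norm_eq_abs, abs_of_nonneg hs, abs_of_nonneg ht]
  calc s * ‖g - a‖ + t * ‖g - b‖ ≤ s * e + t * e :=
        add_le_add (mul_le_mul_of_nonneg_left ha hs) (mul_le_mul_of_nonneg_left hb ht)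
    _ = e := by rw [← add_mul, hst, one_mul]

theorem convex_appSet : Convex ℝ (appSet S y₀ U G ξ ε) := by
  intro a ha b hb s t hs ht hst i n
  have h1 : (U ^ n : H ≃ₗᵢ[ℂ] H) (s • a + t • b) =
      (s : ℂ) • (U ^ n : H ≃ₗᵢ[ℂ] H) a + (t : ℂ) • (U ^ n : H ≃ₗᵢ[ℂ] H) b := by
    rw [map_add, ← Complex.coe_smul, ← Complex.coe_smul, map_smul, map_smul]
  rw [h1, inner_add_right, inner_smul_right, inner_smul_right]
  exact convex_aux _ _ _ s t (ε i) hs ht hst (ha i n) (hb i n)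

/-- existence of the minimal vector in a closed convex set of a complex Hilbert space -/
theorem exists_min_of_convex [CompleteSpace H] {C : Set H} (hne : C.Nonempty) (hcl : IsClosed C)
    (hconv : Convex ℝ C) : ∃ w ∈ C, ∀ c ∈ C, ‖w‖ ≤ ‖c‖ := by
  let _ : InnerProductSpace ℝ H := InnerProductSpace.complexToReal
  obtain ⟨w, hwC, hwmin'⟩ := exists_norm_eq_iInf_of_complete_convex (F := H) (K := C) hne
    hcl.isComplete hconv (0 : H)
  refine ⟨w, hwC, fun c hc => ?_⟩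
  have h1 : (⨅ u : C, ‖(0 : H) - u‖) ≤ ‖(0 : H) - c‖ :=
    ciInf_le ⟨0, by rintro _ ⟨u, rfl⟩; exact norm_nonneg _⟩ (⟨c, hc⟩ : C)
  rw [← hwmin'] at h1
  simpa using h1

/-- rigidity -/
theorem limit_mem_appSet {w : H} (hw : w ∈ appSet S y₀ U G ξ ε) (F : Ultrafilter ℤ)
    (Q : H →L[ℂ] H)
    (hQ : ∀ ζ h : H, Tendsto (fun n : ℤ => inner ℂ ζ ((U ^ n : H ≃ₗᵢ[ℂ] H) h)) F
      (𝓝 (inner ℂ ζ (Q h))))
    (hF : Tendsto (fun n : ℤ => (S ^ n : Y ≃ₜ Y) y₀) F (𝓝 y₀)) :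
    Q w ∈ appSet S y₀ U G ξ ε := by
  intro i n
  have h1 : Tendsto (fun k : ℤ => G i ((S ^ (n + k) : Y ≃ₜ Y) y₀)) F
      (𝓝 (G i ((S ^ n : Y ≃ₜ Y) y₀))) := by
    have h2 := (((G i).continuous.comp (S ^ n : Y ≃ₜ Y).continuous).tendsto y₀).comp hF
    refine h2.congr fun k => ?_
    show G i ((S ^ n : Y ≃ₜ Y) ((S ^ k : Y ≃ₜ Y) y₀)) = _
    rw [homeo_zpow_zpow]
  have h2 : Tendsto (fun k : ℤ => inner ℂ (ξ i) ((U ^ (n + k) : H ≃ₗᵢ[ℂ] H) w)) F
      (𝓝 (inner ℂ (ξ i) ((U ^ n : H ≃ₗᵢ[ℂ] H) (Q w)))) := by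
    rw [inner_zpow]
    refine (hQ _ w).congr fun k => ?_
    rw [← inner_zpow, zpow_zpow_apply]
  exact le_of_tendsto (h1.sub h2).norm (Eventually.of_forall fun k => hw i (n + k))

/-- the minimal vector -/
theorem exists_minimal_vector [CompleteSpace H] (v : H) (hv : v ∈ appSet S y₀ U G ξ ε) :
    ∃ w ∈ appSet S y₀ U G ξ ε, ∀ (F : Ultrafilter ℤ) (Q : H →L[ℂ] H),
      (∀ ζ h : H, Tendsto (fun n : ℤ => inner ℂ ζ ((U ^ n : H ≃ₗᵢ[ℂ] H) h)) F
        (𝓝 (inner ℂ ζ (Q h)))) →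
      Tendsto (fun n : ℤ => (S ^ n : Y ≃ₜ Y) y₀) F (𝓝 y₀) → Q w = w := by
  obtain ⟨w, hwC, hwmin⟩ := exists_min_of_convex ⟨v, hv⟩ (isClosed_appSet S y₀ U G ξ ε)
    (convex_appSet S y₀ U G ξ ε)
  refine ⟨w, hwC, fun F Q hQ hF => ?_⟩
  exact eq_of_minimal (convex_appSet S y₀ U G ξ ε) hwC hwmin
    (limit_mem_appSet S y₀ U G ξ ε hwC F Q hQ hF) (norm_limit_le hQ w)

end app

section space

variable {Y : Type} [TopologicalSpace Y] (S : Y ≃ₜ Y) (y₀ : Y)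
  {H : Type} [NormedAddCommGroup H] [InnerProductSpace ℂ H]
  (U : H ≃ₗᵢ[ℂ] H) (w : H)

/-- the ambient transformation -/
noncomputable def ambMap : ((ℤ → ℂ) × Y) ≃ₜ ((ℤ → ℂ) × Y) := backShift.prodCongr S

/-- the ambient point -/
noncomputable def ambPt : (ℤ → ℂ) × Y :=
  (fun m : ℤ => inner ℂ ((U ^ m : H ≃ₗᵢ[ℂ] H) w) w, y₀)

theorem ambMap_zpow (n : ℤ) :
    ((ambMap S) ^ n : ((ℤ → ℂ) × Y) ≃ₜ ((ℤ → ℂ) × Y)) (ambPt y₀ U w) =
      (fun m : ℤ => inner ℂ ((U ^ m : H ≃ₗᵢ[ℂ] H) w) ((U ^ n : H ≃ₗᵢ[ℂ] H) w),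
        (S ^ n : Y ≃ₜ Y) y₀) := by
  unfold ambMap
  rw [prodCongr_zpow]
  refine Prod.ext ?_ rfl
  funext m
  show (backShift ^ n : (ℤ → ℂ) ≃ₜ (ℤ → ℂ)) (ambPt y₀ U w).1 m = _
  rw [backShift_zpow]
  show inner ℂ ((U ^ (m - n) : H ≃ₗᵢ[ℂ] H) w) w = inner ℂ ((U ^ m : H ≃ₗᵢ[ℂ] H) w)
    ((U ^ n : H ≃ₗᵢ[ℂ] H) w)
  rw [inner_zpow U n, zpow_zpow_apply, sub_eq_neg_add]

/-- the extension space -/
abbrev extX : Set ((ℤ → ℂ) × Y) := orb (ambMap S) (ambPt y₀ U w)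

/-- the extension map -/
noncomputable abbrev extT : extX S y₀ U w ≃ₜ extX S y₀ U w := orbMap (ambMap S) (ambPt y₀ U w)

/-- the base point of the extension -/
noncomputable abbrev extB : extX S y₀ U w := base (ambMap S) (ambPt y₀ U w)

theorem extT_zpow (n : ℤ) :
    (((extT S y₀ U w ^ n : extX S y₀ U w ≃ₜ extX S y₀ U w) (extB S y₀ U w) : extX S y₀ U w) :
      (ℤ → ℂ) × Y) =
      (fun m : ℤ => inner ℂ ((U ^ m : H ≃ₗᵢ[ℂ] H) w) ((U ^ n : H ≃ₗᵢ[ℂ] H) w),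
        (S ^ n : Y ≃ₜ Y) y₀) := by
  rw [orbMap_zpow]
  exact ambMap_zpow S y₀ U w n

theorem isCompact_extX [CompactSpace Y] : IsCompact (extX S y₀ U w) := by
  have h : extX S y₀ U w ⊆
      (Set.univ.pi fun _ : ℤ => Metric.closedBall (0 : ℂ) (‖w‖ * ‖w‖)) ×ˢ Set.univ := by
    refine closure_minimal ?_
      ((isClosed_set_pi fun _ _ => Metric.isClosed_closedBall).prod isClosed_univ)
    rintro _ ⟨n, rfl⟩
    refine ⟨fun m _ => ?_, trivial⟩
    show (((ambMap S) ^ n : ((ℤ → ℂ) × Y) ≃ₜ ((ℤ → ℂ) × Y)) (ambPt y₀ U w)).1 m ∈ _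
    rw [ambMap_zpow, mem_closedBall_zero_iff]
    refine (norm_inner_le_norm _ _).trans ?_
    rw [LinearIsometryEquiv.norm_map, LinearIsometryEquiv.norm_map]
  exact ((isCompact_univ_pi fun _ => isCompact_closedBall _ _).prod
    isCompact_univ).of_isClosed_subset isClosed_closure h

/-- ultrafilter description of the points of the extension -/
theorem ext_ultrafilter (x : extX S y₀ U w) : ∃ F : Ultrafilter ℤ,
    (∀ m : ℤ, Tendsto (fun n : ℤ => (inner ℂ ((U ^ m : H ≃ₗᵢ[ℂ] H) w)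
      ((U ^ n : H ≃ₗᵢ[ℂ] H) w) : ℂ)) F (𝓝 ((x : (ℤ → ℂ) × Y).1 m))) ∧
    Tendsto (fun n : ℤ => (S ^ n : Y ≃ₜ Y) y₀) F (𝓝 (x : (ℤ → ℂ) × Y).2) := by
  obtain ⟨F, hF⟩ := exists_ultrafilter_of_mem_orb (ambMap S) (ambPt y₀ U w) x x.2
  refine ⟨F, fun m => ?_, ?_⟩
  · have h1 := (((continuous_apply m).comp continuous_fst).tendsto
      (x : (ℤ → ℂ) × Y)).comp hF
    refine h1.congr fun n => ?_
    show (((ambMap S) ^ n : ((ℤ → ℂ) × Y) ≃ₜ ((ℤ → ℂ) × Y)) (ambPt y₀ U w)).1 m = _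
    rw [ambMap_zpow]
  · have h1 := (continuous_snd.tendsto (x : (ℤ → ℂ) × Y)).comp hF
    refine h1.congr fun n => ?_
    show (((ambMap S) ^ n : ((ℤ → ℂ) × Y) ≃ₜ ((ℤ → ℂ) × Y)) (ambPt y₀ U w)).2 = _
    rw [ambMap_zpow]

/-- the cyclic subspace -/
noncomputable def cyc : Submodule ℂ H :=
  (Submodule.span ℂ (Set.range fun m : ℤ => (U ^ m : H ≃ₗᵢ[ℂ] H) w)).topologicalClosure

theorem isClosed_cyc : IsClosed (cyc U w : Set H) := Submodule.isClosed_topologicalClosure _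

theorem zpow_mem_cyc (m : ℤ) : (U ^ m : H ≃ₗᵢ[ℂ] H) w ∈ cyc U w :=
  Submodule.le_topologicalClosure _ (Submodule.subset_span ⟨m, rfl⟩)

theorem eq_zero_of_mem_cyc (a : H) (ha : a ∈ cyc U w)
    (h0 : ∀ m : ℤ, inner ℂ ((U ^ m : H ≃ₗᵢ[ℂ] H) w) a = 0) : a = 0 := by
  have h1 : (cyc U w : Set H) ⊆ {z | inner ℂ z a = 0} := by
    have hcl : IsClosed {z : H | inner ℂ z a = 0} :=
      isClosed_eq (by fun_prop) continuous_const
    have hsub : ((Submodule.span ℂ (Set.range fun m : ℤ => (U ^ m : H ≃ₗᵢ[ℂ] H) w)) : Set H) ⊆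
        {z | inner ℂ z a = 0} := by
      intro z hz
      have hz' : z ∈ Submodule.span ℂ (Set.range fun m : ℤ => (U ^ m : H ≃ₗᵢ[ℂ] H) w) := hz
      clear hz
      show inner ℂ z a = 0
      induction hz' using Submodule.span_induction with
      | mem x hx => obtain ⟨m, rfl⟩ := hx; exact h0 m
      | zero => exact inner_zero_left _
      | add x y _ _ hx hy => rw [inner_add_left, hx, hy, add_zero]
      | smul r x _ hx => rw [inner_smul_left, hx, mul_zero]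
    exact closure_minimal hsub hcl
  exact inner_self_eq_zero.1 (h1 ha)

theorem exists_alpha [CompleteSpace H] (x : extX S y₀ U w) :
    ∃ a : H, (∀ m : ℤ, inner ℂ ((U ^ m : H ≃ₗᵢ[ℂ] H) w) a = (x : (ℤ → ℂ) × Y).1 m) ∧
      a ∈ cyc U w ∧ ‖a‖ ≤ ‖w‖ := by
  obtain ⟨F, hF, -⟩ := ext_ultrafilter S y₀ U w x
  obtain ⟨Q, hQ⟩ := exists_limit_operator F (fun n : ℤ => (U ^ n : H ≃ₗᵢ[ℂ] H))
  refine ⟨Q w, fun m => tendsto_nhds_unique (hQ _ w) (hF m), ?_, norm_limit_le hQ w⟩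
  have hMc : CompleteSpace (cyc U w) := (isClosed_cyc U w).completeSpace_coe
  rw [← Submodule.orthogonal_orthogonal (cyc U w), Submodule.mem_orthogonal]
  intro u hu
  refine tendsto_nhds_unique (hQ u w) (tendsto_const_nhds.congr fun n => ?_)
  exact ((Submodule.mem_orthogonal' (cyc U w) u).1 hu _ (zpow_mem_cyc U w n)).symm

/-- the map to the Hilbert space -/
noncomputable def alpha [CompleteSpace H] (x : extX S y₀ U w) : H :=
  (exists_alpha S y₀ U w x).choose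

variable [CompleteSpace H]

theorem alpha_inner (x : extX S y₀ U w) (m : ℤ) :
    inner ℂ ((U ^ m : H ≃ₗᵢ[ℂ] H) w) (alpha S y₀ U w x) = (x : (ℤ → ℂ) × Y).1 m :=
  (exists_alpha S y₀ U w x).choose_spec.1 m

theorem alpha_mem (x : extX S y₀ U w) : alpha S y₀ U w x ∈ cyc U w :=
  (exists_alpha S y₀ U w x).choose_spec.2.1

theorem norm_alpha_le (x : extX S y₀ U w) : ‖alpha S y₀ U w x‖ ≤ ‖w‖ :=
  (exists_alpha S y₀ U w x).choose_spec.2.2

theorem alpha_eq (x : extX S y₀ U w) (a : H) (ha : a ∈ cyc U w)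
    (h : ∀ m : ℤ, inner ℂ ((U ^ m : H ≃ₗᵢ[ℂ] H) w) a = (x : (ℤ → ℂ) × Y).1 m) :
    alpha S y₀ U w x = a := by
  refine sub_eq_zero.1 (eq_zero_of_mem_cyc U w _
    ((cyc U w).sub_mem (alpha_mem S y₀ U w x) ha) fun m => ?_)
  rw [inner_sub_right, alpha_inner, h, sub_self]

theorem alpha_orbit (n : ℤ) :
    alpha S y₀ U w ((extT S y₀ U w ^ n : extX S y₀ U w ≃ₜ extX S y₀ U w) (extB S y₀ U w)) =
      (U ^ n : H ≃ₗᵢ[ℂ] H) w := by
  refine alpha_eq S y₀ U w _ _ (zpow_mem_cyc U w n) fun m => ?_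
  rw [extT_zpow]

theorem alpha_continuous (ζ : H) : Continuous fun x => inner ℂ ζ (alpha S y₀ U w x) := by
  have hspan : ∀ ζ ∈ Submodule.span ℂ (Set.range fun m : ℤ => (U ^ m : H ≃ₗᵢ[ℂ] H) w),
      Continuous fun x => inner ℂ ζ (alpha S y₀ U w x) := by
    intro ζ hζ
    induction hζ using Submodule.span_induction with
    | mem x hx =>
      obtain ⟨m, rfl⟩ := hx
      have h1 : Continuous fun x : extX S y₀ U w => (x : (ℤ → ℂ) × Y).1 m :=
        (continuous_apply m).comp (continuous_fst.comp continuous_subtype_val)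
      exact h1.congr fun x => (alpha_inner S y₀ U w x m).symm
    | zero => simpa using continuous_const
    | add x y _ _ hx hy =>
      refine (hx.add hy).congr fun z => ?_
      exact (inner_add_left _ _ _).symm
    | smul r x _ hx =>
      refine (hx.const_mul ((starRingEnd ℂ) r)).congr fun z => ?_
      exact (inner_smul_left _ _ _).symm
  have hMcont : ∀ ζ ∈ cyc U w, Continuous fun x => inner ℂ ζ (alpha S y₀ U w x) := by
    intro ζ hζ
    refine continuous_of_uniform_approx_of_continuous fun u hu => ?_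
    obtain ⟨δ, hδ, hδu⟩ := Metric.mem_uniformity_dist.1 hu
    have hζ' : ζ ∈ closure ((Submodule.span ℂ (Set.range fun m : ℤ =>
        (U ^ m : H ≃ₗᵢ[ℂ] H) w)) : Set H) := hζ
    obtain ⟨ζ', hζ's, hd⟩ := Metric.mem_closure_iff.1 hζ' (δ / (‖w‖ + 1)) (by positivity)
    refine ⟨_, hspan ζ' hζ's, fun x => hδu ?_⟩
    rw [dist_eq_norm, ← inner_sub_left]
    calc ‖inner ℂ (ζ - ζ') (alpha S y₀ U w x)‖ ≤ ‖ζ - ζ'‖ * ‖alpha S y₀ U w x‖ :=
          norm_inner_le_norm _ _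
      _ ≤ ‖ζ - ζ'‖ * (‖w‖ + 1) :=
          mul_le_mul_of_nonneg_left ((norm_alpha_le S y₀ U w x).trans (by linarith))
            (norm_nonneg _)
      _ < δ / (‖w‖ + 1) * (‖w‖ + 1) := by
          refine mul_lt_mul_of_pos_right ?_ (by positivity)
          rwa [← dist_eq_norm]
      _ = δ := by field_simp
  have hMc : CompleteSpace (cyc U w) := (isClosed_cyc U w).completeSpace_coe
  have h1 := hMcont ((cyc U w).starProjection ζ)
    (Submodule.starProjection_apply_mem (cyc U w) ζ)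
  refine h1.congr fun x => ?_
  have h2 : inner ℂ (ζ - (cyc U w).starProjection ζ) (alpha S y₀ U w x) = 0 :=
    (Submodule.mem_orthogonal' (cyc U w) _).1 (Submodule.sub_starProjection_mem_orthogonal ζ) _
      (alpha_mem S y₀ U w x)
  rw [inner_sub_left, sub_eq_zero] at h2
  exact h2.symm

theorem alpha_equivariant (x : extX S y₀ U w) :
    alpha S y₀ U w (extT S y₀ U w x) = U (alpha S y₀ U w x) := by
  refine ext_inner_left ℂ fun ζ => ?_
  have hcl : IsClosed {x : extX S y₀ U w | inner ℂ ζ (alpha S y₀ U w (extT S y₀ U w x)) =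
      inner ℂ ζ (U (alpha S y₀ U w x))} := by
    refine isClosed_eq ((alpha_continuous S y₀ U w ζ).comp (extT S y₀ U w).continuous) ?_
    have h1 := alpha_continuous S y₀ U w ((U ^ (-1 : ℤ) : H ≃ₗᵢ[ℂ] H) ζ)
    refine h1.congr fun x => ?_
    rw [← inner_zpow U 1, zpow_one]
  have hsub : Set.range (fun n : ℤ =>
      (extT S y₀ U w ^ n : extX S y₀ U w ≃ₜ extX S y₀ U w) (extB S y₀ U w)) ⊆
      {x : extX S y₀ U w | inner ℂ ζ (alpha S y₀ U w (extT S y₀ U w x)) =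
        inner ℂ ζ (U (alpha S y₀ U w x))} := by
    rintro _ ⟨n, rfl⟩
    rw [Set.mem_ofPred_eq]
    have h1 : extT S y₀ U w
        ((extT S y₀ U w ^ n : extX S y₀ U w ≃ₜ extX S y₀ U w) (extB S y₀ U w)) =
        (extT S y₀ U w ^ (1 + n) : extX S y₀ U w ≃ₜ extX S y₀ U w) (extB S y₀ U w) := by
      rw [zpow_add, zpow_one]; rfl
    rw [h1, alpha_orbit, alpha_orbit, zpow_add, zpow_one]
    rfl
  exact (closure_minimal hsub hcl) (base_transitive _ _ x)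

theorem alpha_estimate (G : C(Y, ℂ)) (ξ : H) (ε : ℝ)
    (hG : ∀ n : ℤ, ‖G ((S ^ n : Y ≃ₜ Y) y₀) - inner ℂ ξ ((U ^ n : H ≃ₗᵢ[ℂ] H) w)‖ ≤ ε)
    (x : extX S y₀ U w) :
    ‖G (x : (ℤ → ℂ) × Y).2 - inner ℂ ξ (alpha S y₀ U w x)‖ ≤ ε := by
  have hcl : IsClosed {x : extX S y₀ U w |
      ‖G (x : (ℤ → ℂ) × Y).2 - inner ℂ ξ (alpha S y₀ U w x)‖ ≤ ε} := by
    refine isClosed_le (Continuous.norm (Continuous.sub ?_ (alpha_continuous S y₀ U w _)))
      continuous_const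
    exact G.continuous.comp (continuous_snd.comp continuous_subtype_val)
  have hsub : Set.range (fun n : ℤ =>
      (extT S y₀ U w ^ n : extX S y₀ U w ≃ₜ extX S y₀ U w) (extB S y₀ U w)) ⊆
      {x : extX S y₀ U w | ‖G (x : (ℤ → ℂ) × Y).2 - inner ℂ ξ (alpha S y₀ U w x)‖ ≤ ε} := by
    rintro _ ⟨n, rfl⟩
    rw [Set.mem_ofPred_eq, alpha_orbit, extT_zpow]
    exact hG n
  exact (closure_minimal hsub hcl) (base_transitive _ _ x)

end space

/-- **The extension theorem.** -/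
theorem exists_extension {Y : Type} [TopologicalSpace Y] [CompactSpace Y] [T2Space Y]
    [TopologicalSpace.MetrizableSpace Y] (S : Y ≃ₜ Y) (y₀ : Y) (hy₀ : IsTransitivePoint S y₀)
    (H : Type) [NormedAddCommGroup H] [InnerProductSpace ℂ H] [CompleteSpace H]
    (U : H ≃ₗᵢ[ℂ] H) (v : H) {ι : Type} (G : ι → C(Y, ℂ)) (ξ : ι → H) (ε : ι → ℝ)
    (hG : ∀ i (n : ℤ), ‖G i ((S ^ n : Y ≃ₜ Y) y₀) - inner ℂ (ξ i) ((U ^ n : H ≃ₗᵢ[ℂ] H) v)‖ ≤ ε i)
    (hsep : ∀ y y', (∀ i, ‖G i y - G i y'‖ ≤ 2 * ε i) → y = y') :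
    ∃ (X : Type) (_ : TopologicalSpace X) (_ : CompactSpace X) (_ : T2Space X) (T : X ≃ₜ X),
      IsHilbertRepresentable T ∧ ∃ π : X → Y, IsFactorMap T S π ∧ IsAlmostOneOne π := by
  obtain ⟨w, hwC, hrig⟩ := exists_minimal_vector S y₀ U G ξ ε v hG
  have hXc : CompactSpace (extX S y₀ U w) :=
    isCompact_iff_compactSpace.1 (isCompact_extX S y₀ U w)
  have hαinj : Function.Injective (alpha S y₀ U w) := by
    intro x x' hxx
    apply Subtype.ext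
    refine Prod.ext ?_ ?_
    · funext m
      rw [← alpha_inner S y₀ U w x m, ← alpha_inner S y₀ U w x' m, hxx]
    · refine hsep _ _ fun i => ?_
      have h1 := alpha_estimate S y₀ U w (G i) (ξ i) (ε i) (hwC i) x
      have h2 := alpha_estimate S y₀ U w (G i) (ξ i) (ε i) (hwC i) x'
      rw [← hxx] at h2
      have h3 : G i (x : (ℤ → ℂ) × Y).2 - G i (x' : (ℤ → ℂ) × Y).2 =
          (G i (x : (ℤ → ℂ) × Y).2 - inner ℂ (ξ i) (alpha S y₀ U w x)) -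
          (G i (x' : (ℤ → ℂ) × Y).2 - inner ℂ (ξ i) (alpha S y₀ U w x)) := by ring
      rw [h3]
      refine (norm_sub_le _ _).trans ?_
      linarith
  have hrep : IsHilbertRepresentable (extT S y₀ U w) :=
    isHilbertRepresentable_of_map H U (alpha S y₀ U w) hαinj (alpha_continuous S y₀ U w)
      (alpha_equivariant S y₀ U w)
  have hπc : Continuous fun x : extX S y₀ U w => (x : (ℤ → ℂ) × Y).2 :=
    continuous_snd.comp continuous_subtype_val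
  have hπT : ∀ x : extX S y₀ U w, ((extT S y₀ U w x : extX S y₀ U w) : (ℤ → ℂ) × Y).2 =
      S (x : (ℤ → ℂ) × Y).2 := fun x => rfl
  have hπs : Function.Surjective fun x : extX S y₀ U w => (x : (ℤ → ℂ) × Y).2 := by
    have hcl : IsClosed (Set.range fun x : extX S y₀ U w => (x : (ℤ → ℂ) × Y).2) :=
      (isCompact_range hπc).isClosed
    have hsub : Set.range (fun n : ℤ => (S ^ n : Y ≃ₜ Y) y₀) ⊆
        Set.range fun x : extX S y₀ U w => (x : (ℤ → ℂ) × Y).2 := by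
      rintro _ ⟨n, rfl⟩
      refine ⟨(extT S y₀ U w ^ n : extX S y₀ U w ≃ₜ extX S y₀ U w) (extB S y₀ U w), ?_⟩
      show (((extT S y₀ U w ^ n : extX S y₀ U w ≃ₜ extX S y₀ U w) (extB S y₀ U w) :
        extX S y₀ U w) : (ℤ → ℂ) × Y).2 = _
      rw [extT_zpow]
    intro y
    exact (closure_minimal hsub hcl) (hy₀ y)
  have hfib : ∀ x : extX S y₀ U w, (x : (ℤ → ℂ) × Y).2 = y₀ → x = extB S y₀ U w := by
    intro x hx2
    obtain ⟨F, hF1, hF2⟩ := ext_ultrafilter S y₀ U w x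
    obtain ⟨Q, hQ⟩ := exists_limit_operator F (fun n : ℤ => (U ^ n : H ≃ₗᵢ[ℂ] H))
    rw [hx2] at hF2
    have hQw := hrig F Q hQ hF2
    apply Subtype.ext
    refine Prod.ext ?_ hx2
    funext m
    have h2 := hQ ((U ^ m : H ≃ₗᵢ[ℂ] H) w) w
    rw [hQw] at h2
    exact tendsto_nhds_unique (hF1 m) h2
  refine ⟨extX S y₀ U w, inferInstance, hXc, inferInstance, extT S y₀ U w, hrep,
    fun x => (x : (ℤ → ℂ) × Y).2, ⟨hπc, hπs, hπT⟩, ?_⟩
  refine isAlmostOneOne_of_dense _ hπc _ (base_transitive (ambMap S) (ambPt y₀ U w)) ?_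
  rintro _ ⟨n, rfl⟩
  apply Set.Subset.antisymm
  · intro x' hx'
    rw [Set.mem_singleton_iff]
    have h0 := factor_zpow (extT S y₀ U w) S (fun x => (x : (ℤ → ℂ) × Y).2) hπT
    have h1 : (x' : (ℤ → ℂ) × Y).2 = (((extT S y₀ U w ^ n : extX S y₀ U w ≃ₜ extX S y₀ U w)
      (extB S y₀ U w) : extX S y₀ U w) : (ℤ → ℂ) × Y).2 := hx'
    have h2 : (((extT S y₀ U w ^ (-n) : extX S y₀ U w ≃ₜ extX S y₀ U w) x' : extX S y₀ U w) :
        (ℤ → ℂ) × Y).2 = y₀ := by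
      have h3 := h0 (-n) x'
      have h4 := h0 n (extB S y₀ U w)
      rw [h3, h1, h4, homeo_zpow_zpow, neg_add_cancel, zpow_zero]
      rfl
    have h3 := hfib _ h2
    show x' = (extT S y₀ U w ^ n : extX S y₀ U w ≃ₜ extX S y₀ U w) (extB S y₀ U w)
    rw [← h3, homeo_zpow_zpow, add_neg_cancel, zpow_zero]
    rfl
  · rintro _ rfl
    exact rfl

end Pool.Agent.Helper41.Hilb
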