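import Mathlib
import Pool.Agent.Helper41.HilbDefs
import Pool.Agent.Helper41.HilbAlg

set_option autoImplicit false

namespace Pool.Agent.Helper41.Hilb

open MeasureTheory Filter Topology

section mul

variable (m : Measure UnitAddCircle)

/-- multiplication by a unimodular character on `L²` -/
noncomputable def mulFun (n : ℤ) (f : Lp ℂ 2 m) : Lp ℂ 2 m :=
  MemLp.toLp (fun x => (fourier n x : ℂ) * f x) (by
    refine MemLp.of_le (Lp.memLp f) ?_ (Eventually.of_forall fun x => ?_)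
    · exact (fourier n).continuous.aestronglyMeasurable.mul (Lp.aestronglyMeasurable f)
    · rw [norm_mul, norm_fourier_apply, one_mul])

theorem coeFn_mulFun (n : ℤ) (f : Lp ℂ 2 m) :
    mulFun m n f =ᵐ[m] fun x => (fourier n x : ℂ) * f x := MemLp.coeFn_toLp _

theorem mulFun_mulFun (a b : ℤ) (f : Lp ℂ 2 m) : mulFun m a (mulFun m b f) = mulFun m (a + b) f := by
  apply Lp.ext
  filter_upwards [coeFn_mulFun m a (mulFun m b f), coeFn_mulFun m b f, coeFn_mulFun m (a + b) f]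
    with x h1 h2 h3
  rw [h1, h2, h3, fourier_add, mul_assoc]

theorem mulFun_zero (f : Lp ℂ 2 m) : mulFun m 0 f = f := by
  apply Lp.ext
  filter_upwards [coeFn_mulFun m 0 f] with x h1
  rw [h1]
  simp

/-- the multiplication operator by the generator -/
noncomputable def mulU : Lp ℂ 2 m ≃ₗᵢ[ℂ] Lp ℂ 2 m where
  toFun f := mulFun m 1 f
  invFun f := mulFun m (-1) f
  left_inv f := by
    show mulFun m (-1) (mulFun m 1 f) = f
    rw [mulFun_mulFun, neg_add_cancel, mulFun_zero]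
  right_inv f := by
    show mulFun m 1 (mulFun m (-1) f) = f
    rw [mulFun_mulFun, add_neg_cancel, mulFun_zero]
  map_add' f g := by
    apply Lp.ext
    filter_upwards [coeFn_mulFun m 1 (f + g), coeFn_mulFun m 1 f, coeFn_mulFun m 1 g,
      Lp.coeFn_add (mulFun m 1 f) (mulFun m 1 g), Lp.coeFn_add f g] with x h1 h2 h3 h4 h5
    rw [h1, h4, Pi.add_apply, h2, h3, h5, Pi.add_apply, mul_add]
  map_smul' c f := by
    apply Lp.ext
    filter_upwards [coeFn_mulFun m 1 (c • f), coeFn_mulFun m 1 f,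
      Lp.coeFn_smul c (mulFun m 1 f), Lp.coeFn_smul c f] with x h1 h2 h3 h4
    rw [RingHom.id_apply, h1, h3, Pi.smul_apply, h2, h4, Pi.smul_apply, smul_eq_mul, smul_eq_mul]
    ring
  norm_map' f := by
    show ‖mulFun m 1 f‖ = ‖f‖
    unfold mulFun
    rw [Lp.norm_toLp, Lp.norm_def]
    congr 1
    refine eLpNorm_congr_norm_ae (Eventually.of_forall fun x => ?_)
    rw [norm_mul, norm_fourier_apply, one_mul]

theorem mulU_apply (f : Lp ℂ 2 m) : mulU m f = mulFun m 1 f := rfl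

theorem mulU_inv_apply (f : Lp ℂ 2 m) : (mulU m)⁻¹ f = mulFun m (-1) f := rfl

theorem mulU_zpow (n : ℤ) (f : Lp ℂ 2 m) : ((mulU m) ^ n : Lp ℂ 2 m ≃ₗᵢ[ℂ] Lp ℂ 2 m) f =
    mulFun m n f := by
  induction n generalizing f with
  | zero => rw [zpow_zero, mulFun_zero]; rfl
  | succ n ih =>
    rw [zpow_add_one]
    show ((mulU m) ^ (n : ℤ) : Lp ℂ 2 m ≃ₗᵢ[ℂ] Lp ℂ 2 m) (mulU m f) = _
    rw [ih, mulU_apply, mulFun_mulFun]
  | pred n ih =>
    rw [zpow_sub_one]
    show ((mulU m) ^ (-n : ℤ) : Lp ℂ 2 m ≃ₗᵢ[ℂ] Lp ℂ 2 m) ((mulU m)⁻¹ f) = _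
    rw [ih, mulU_inv_apply, mulFun_mulFun, sub_eq_add_neg]

end mul

/-- transforms of measures dominated by `m` are matrix coefficients -/
theorem exists_coeff_of_le (m μ : Measure UnitAddCircle) [IsFiniteMeasure m]
    (h : μ ≤ m) : ∃ ξ : Lp ℂ 2 m, ∀ n : ℤ, transform μ n =
      inner ℂ ξ (((mulU m) ^ n : Lp ℂ 2 m ≃ₗᵢ[ℂ] Lp ℂ 2 m) (ContinuousMap.toLp 2 m ℂ 1)) := by
  have hμf : IsFiniteMeasure μ := isFiniteMeasure_of_le m h
  have hdec : μ.HaveLebesgueDecomposition m :=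
    Measure.haveLebesgueDecomposition_of_sigmaFinite μ m
  have hac : μ ≪ m := Measure.absolutelyContinuous_of_le h
  have hmem : MemLp (fun x => (((μ.rnDeriv m x).toReal : ℝ) : ℂ)) 2 m := by
    refine MemLp.of_bound ?_ 1 ?_
    · exact (Complex.measurable_ofReal.comp
        (Measure.measurable_rnDeriv μ m).ennreal_toReal).aestronglyMeasurable
    · filter_upwards [Measure.rnDeriv_le_one_of_le h] with x hx
      rw [Complex.norm_real, Real.norm_eq_abs, abs_of_nonneg ENNReal.toReal_nonneg]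
      exact ENNReal.toReal_le_of_le_ofReal zero_le_one (by simpa using hx)
  refine ⟨hmem.toLp _, fun n => ?_⟩
  rw [mulU_zpow, L2.inner_def]
  unfold transform
  rw [← integral_rnDeriv_smul hac]
  refine integral_congr_ae ?_
  filter_upwards [hmem.coeFn_toLp, coeFn_mulFun m n (ContinuousMap.toLp 2 m ℂ 1),
    ContinuousMap.coeFn_toLp (p := 2) (𝕜 := ℂ) m (1 : C(UnitAddCircle, ℂ))] with x h1 h2 h3
  rw [h1, h2, h3]
  simp
  ring

/-- countably many functions in `B(ℤ)` are matrix coefficients of one unitary with a common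
vector -/
theorem exists_representation {ι : Type} [Countable ι] (g : ι → ℤ → ℂ) (hg : ∀ i, g i ∈ BZ) :
    ∃ (H : Type) (_ : NormedAddCommGroup H) (_ : InnerProductSpace ℂ H) (_ : CompleteSpace H)
      (U : H ≃ₗᵢ[ℂ] H) (v : H) (ξ : ι → H), ∀ i (n : ℤ),
        g i n = inner ℂ (ξ i) ((U ^ n : H ≃ₗᵢ[ℂ] H) v) := by
  have h1 : ∀ i, ∃ t : Finset (ℤ → ℂ),
      (t : Set (ℤ → ℂ)) ⊆ {g | ∃ μ : Measure UnitAddCircle, IsFiniteMeasure μ ∧ g = transform μ} ∧
      g i ∈ Submodule.span ℂ (t : Set (ℤ → ℂ)) := by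
    intro i
    exact Submodule.mem_span_finite_of_mem_span (hg i)
  choose t ht hgt using h1
  let C : Set (ℤ → ℂ) := ⋃ i, (t i : Set (ℤ → ℂ))
  have hC : C.Countable := Set.countable_iUnion fun i => (t i).countable_toSet
  have : Countable C := hC.to_subtype
  have h2 : ∀ c : C, ∃ μ : Measure UnitAddCircle, IsFiniteMeasure μ ∧ (c : ℤ → ℂ) = transform μ := by
    rintro ⟨c, hc⟩
    obtain ⟨i, hi⟩ := Set.mem_iUnion.1 hc
    exact ht i hi
  choose μ hμ hcμ using h2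
  obtain ⟨δ, hδ, hsum⟩ := ENNReal.exists_pos_tsum_mul_lt_of_countable one_ne_zero
    (fun c => μ c Set.univ) (fun c => by have := hμ c; exact measure_ne_top _ _)
  let m : Measure UnitAddCircle := Measure.sum fun c => (δ c : ENNReal) • μ c
  have hm : IsFiniteMeasure m := by
    refine ⟨?_⟩
    rw [Measure.sum_apply _ MeasurableSet.univ]
    refine lt_of_le_of_lt (le_of_eq ?_) (hsum.trans ENNReal.one_lt_top)
    refine tsum_congr fun c => ?_
    rw [Measure.smul_apply, smul_eq_mul, mul_comm]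
  -- the submodule of coefficients
  have h3 : ∀ c : C, ∃ ξ : Lp ℂ 2 m, ∀ n : ℤ, (c : ℤ → ℂ) n =
      inner ℂ ξ (((mulU m) ^ n : Lp ℂ 2 m ≃ₗᵢ[ℂ] Lp ℂ 2 m) (ContinuousMap.toLp 2 m ℂ 1)) := by
    intro c
    have hle : (δ c : ENNReal) • μ c ≤ m := Measure.le_sum (fun c => (δ c : ENNReal) • μ c) c
    obtain ⟨ξ, hξ⟩ := exists_coeff_of_le m _ hle
    refine ⟨((δ c : ℝ) : ℂ)⁻¹ • ξ, fun n => ?_⟩
    rw [inner_smul_left, ← hξ n]
    have h4 : transform ((δ c : ENNReal) • μ c) n = ((δ c : ℝ) : ℂ) * transform (μ c) n := by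
      unfold transform
      rw [integral_smul_measure]
      simp
    have h5 : ((δ c : ℝ) : ℂ) ≠ 0 := by exact_mod_cast (hδ c).ne'
    rw [h4, hcμ c, map_inv₀, Complex.conj_ofReal, inv_mul_cancel_left₀ h5]
  have h4 : ∀ i, ∃ ξ : Lp ℂ 2 m, ∀ n : ℤ, g i n =
      inner ℂ ξ (((mulU m) ^ n : Lp ℂ 2 m ≃ₗᵢ[ℂ] Lp ℂ 2 m) (ContinuousMap.toLp 2 m ℂ 1)) := by
    intro i
    have h5 := hgt i
    have key : ∀ f ∈ Submodule.span ℂ (t i : Set (ℤ → ℂ)), ∃ ξ : Lp ℂ 2 m, ∀ n : ℤ, f n =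
        inner ℂ ξ (((mulU m) ^ n : Lp ℂ 2 m ≃ₗᵢ[ℂ] Lp ℂ 2 m) (ContinuousMap.toLp 2 m ℂ 1)) := by
      intro f hf
      induction hf using Submodule.span_induction with
      | mem x hx => exact h3 ⟨x, Set.mem_iUnion.2 ⟨i, hx⟩⟩
      | zero => exact ⟨0, fun n => by simp⟩
      | add x y _ _ hx hy =>
        obtain ⟨a, ha⟩ := hx
        obtain ⟨b, hb⟩ := hy
        exact ⟨a + b, fun n => by rw [inner_add_left, Pi.add_apply, ha, hb]⟩
      | smul r x _ hx =>
        obtain ⟨a, ha⟩ := hx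
        exact ⟨(starRingEnd ℂ) r • a, fun n => by
          rw [inner_smul_left, Complex.conj_conj, Pi.smul_apply, ha, smul_eq_mul]⟩
    exact key _ h5
  choose ξ hξ using h4
  exact ⟨Lp ℂ 2 m, inferInstance, inferInstance, inferInstance, mulU m,
    ContinuousMap.toLp 2 m ℂ 1, ξ, hξ⟩

end Pool.Agent.Helper41.Hilb
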