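import Mathlib
import Pool.Agent.Helper41.HilbDefs
import Pool.Agent.Helper41.HilbL2
import Pool.Agent.Helper41.HilbExt
import Pool.Agent.Helper41.HilbExample

set_option autoImplicit false

namespace Pool.Agent.Helper41.Hilb

open Filter Topology

/-- part (c): every metrizable Hilbert system is an almost 1-1 factor of a Hilbert-representable
system -/
theorem almostOneOne_of_hilbert {Y : Type} [TopologicalSpace Y] [CompactSpace Y] [T2Space Y]
    [TopologicalSpace.MetrizableSpace Y] (S : Y ≃ₜ Y) (hS : IsHilbertSystem S) :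
    IsAlmostOneOneImageOfHR S := by
  obtain ⟨y₀, hy₀, hF⟩ := hS
  let _ := TopologicalSpace.metrizableSpaceMetric Y
  have hne : Nonempty Y := ⟨y₀⟩
  let D : ℕ → C(Y, ℂ) := fun k =>
    ⟨fun y => ((dist y (TopologicalSpace.denseSeq Y k) : ℝ) : ℂ), by fun_prop⟩
  have h1 : ∀ p : ℕ × ℕ, ∃ g ∈ BZ, ∀ n : ℤ,
      ‖D p.1 ((S ^ n : Y ≃ₜ Y) y₀) - g n‖ ≤ 1 / ((p.2 : ℝ) + 1) := fun p =>
    hF (D p.1) (1 / ((p.2 : ℝ) + 1)) (by positivity)
  choose g hg hgD using h1
  obtain ⟨H, i1, i2, i3, U, v, ξ, hξ⟩ := exists_representation g hg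
  refine exists_extension S y₀ hy₀ H U v (fun p : ℕ × ℕ => D p.1) ξ
    (fun p => 1 / ((p.2 : ℝ) + 1)) (fun p n => ?_) (fun y y' hyy => ?_)
  · rw [← hξ]
    exact hgD p n
  · have h2 : ∀ k : ℕ, dist y (TopologicalSpace.denseSeq Y k) =
        dist y' (TopologicalSpace.denseSeq Y k) := by
      intro k
      have h3 : ∀ l : ℕ, ‖D k y - D k y'‖ ≤ 2 * (1 / ((l : ℝ) + 1)) := fun l => hyy (k, l)
      have h4 : ‖D k y - D k y'‖ ≤ 2 * 0 :=
        ge_of_tendsto (tendsto_one_div_add_atTop_nhds_zero_nat.const_mul 2)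
          (Eventually.of_forall h3)
      rw [mul_zero] at h4
      have h5 : D k y = D k y' := sub_eq_zero.1 (norm_le_zero_iff.1 h4)
      exact Complex.ofReal_injective h5
    have h6 : dist y y' ≤ 0 := by
      refine le_of_forall_pos_le_add fun ε hε => ?_
      obtain ⟨_, ⟨k, rfl⟩, hk⟩ := Metric.mem_closure_iff.1
        (TopologicalSpace.denseRange_denseSeq Y y) (ε / 2) (by positivity)
      calc dist y y' ≤ dist y (TopologicalSpace.denseSeq Y k) +
            dist (TopologicalSpace.denseSeq Y k) y' := dist_triangle _ _ _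
        _ = dist y (TopologicalSpace.denseSeq Y k) + dist y (TopologicalSpace.denseSeq Y k) := by
            rw [dist_comm _ y', h2 k]
        _ ≤ 0 + ε := by linarith
    exact dist_le_zero.1 h6

/-- the full answer -/
theorem full_answer :
    (¬ ∀ (Y : Type) [TopologicalSpace Y] [CompactSpace Y] [T2Space Y]
        [TopologicalSpace.MetrizableSpace Y] (S : Y ≃ₜ Y),
        IsRecurrentTransitive S → IsHilbertSystem S → IsHilbertRepresentable S) ∧
    (¬ ∀ (Y : Type) [TopologicalSpace Y] [CompactSpace Y] [T2Space Y]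
        [TopologicalSpace.MetrizableSpace Y] (S : Y ≃ₜ Y),
        IsRecurrentTransitive S → IsHilbertSystem S → IsGroupFactorOfHR S) ∧
    (∀ (Y : Type) [TopologicalSpace Y] [CompactSpace Y] [T2Space Y]
        [TopologicalSpace.MetrizableSpace Y] (S : Y ≃ₜ Y),
        IsHilbertSystem S → IsAlmostOneOneImageOfHR S) := by
  refine ⟨fun h => ?_, fun h => ?_, fun Y _ _ _ _ S hS => almostOneOne_of_hilbert S hS⟩
  · exact YY_not_groupFactor SS (h YY SS YY_recurrent YY_hilbert) (isGroupFactor_self SS)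
  · obtain ⟨X, i1, i2, i3, T, hT, hgf⟩ := h YY SS YY_recurrent YY_hilbert
    exact YY_not_groupFactor T hT hgf

end Pool.Agent.Helper41.Hilb
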