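import Mathlib
import Pool.Agent.Helper41.NullCocycle

set_option autoImplicit false

namespace Pool.Agent.Helper41.Null

open Filter Topology

/-- inner slowly growing function -/
noncomputable def gg (r : ℝ) : ℝ := Real.log (1 + Real.log (1 + |r|))

/-- slowly oscillating function -/
noncomputable def hh (r : ℝ) : ℝ := Real.sin (gg r)

lemma abs_hh_le (x : ℝ) : |hh x| ≤ 1 := Real.abs_sin_le_one _

lemma log_sub_le {a b : ℝ} (ha : 0 < a) (hab : a ≤ b) : Real.log b - Real.log a ≤ (b - a) / a := by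
  have hb : 0 < b := ha.trans_le hab
  rw [← Real.log_div hb.ne' ha.ne']
  have h := Real.log_le_sub_one_of_pos (div_pos hb ha)
  refine h.trans (le_of_eq ?_)
  field_simp

lemma log1_nonneg {x : ℝ} (hx : 0 ≤ x) : 0 ≤ Real.log (1 + x) := Real.log_nonneg (by linarith)

lemma abs_sin_sub_sin (a b : ℝ) : |Real.sin a - Real.sin b| ≤ |a - b| := by
  have h := Real.lipschitzWith_sin.dist_le_mul a b
  simpa [Real.dist_eq] using h

lemma gg_of_nonneg {x : ℝ} (hx : 0 ≤ x) : gg x = Real.log (1 + Real.log (1 + x)) := by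
  unfold gg
  rw [abs_of_nonneg hx]

lemma gg_sub_le {x y : ℝ} (hx : 0 ≤ x) (hxy : x ≤ y) :
    0 ≤ gg y - gg x ∧ gg y - gg x ≤
      (Real.log (1 + y) - Real.log (1 + x)) / (1 + Real.log (1 + x)) := by
  have hy : 0 ≤ y := hx.trans hxy
  rw [gg_of_nonneg hx, gg_of_nonneg hy]
  have h1 : Real.log (1 + x) ≤ Real.log (1 + y) :=
    Real.log_le_log (by linarith) (by linarith)
  have h2 := log1_nonneg hx
  constructor
  · have := Real.log_le_log (show 0 < 1 + Real.log (1 + x) by linarith)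
      (show 1 + Real.log (1 + x) ≤ 1 + Real.log (1 + y) by linarith)
    linarith
  · have := log_sub_le (show 0 < 1 + Real.log (1 + x) by linarith)
      (show 1 + Real.log (1 + x) ≤ 1 + Real.log (1 + y) by linarith)
    refine this.trans (le_of_eq ?_)
    congr 1
    ring

lemma hh_lip_aux {x y : ℝ} (hx : 0 ≤ x) (hxy : x ≤ y) : |hh x - hh y| ≤ |x - y| := by
  refine (abs_sin_sub_sin _ _).trans ?_
  obtain ⟨h1, h2⟩ := gg_sub_le hx hxy
  rw [abs_sub_comm, abs_of_nonneg h1, abs_sub_comm, abs_of_nonneg (sub_nonneg.mpr hxy)]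
  refine h2.trans ?_
  have h3 := log1_nonneg hx
  have h4 := log_sub_le (show 0 < 1 + x by linarith) (show 1 + x ≤ 1 + y by linarith)
  have h5 : (1 + y - (1 + x)) / (1 + x) ≤ y - x := by
    rw [div_le_iff₀ (by linarith)]
    nlinarith
  have h6 : 0 ≤ Real.log (1 + y) - Real.log (1 + x) := by
    have := Real.log_le_log (show 0 < 1 + x by linarith) (show 1 + x ≤ 1 + y by linarith)
    linarith
  rw [div_le_iff₀ (by linarith)]
  nlinarith

lemma hh_lip (x y : ℝ) (hx : 0 ≤ x) (hy : 0 ≤ y) : |hh x - hh y| ≤ |x - y| := by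
  rcases le_total x y with h | h
  · exact hh_lip_aux hx h
  · rw [abs_sub_comm, abs_sub_comm x y]
    exact hh_lip_aux hy h

lemma hh_slow_aux {ε x y : ℝ} (hε : 0 < ε) (hx : Real.exp (1 / ε) ≤ x) (hxy : x ≤ y)
    (hyx : y ≤ 2 * x) : |hh x - hh y| ≤ ε := by
  have hx0 : 0 < x := (Real.exp_pos _).trans_le hx
  refine (abs_sin_sub_sin _ _).trans ?_
  obtain ⟨h1, h2⟩ := gg_sub_le hx0.le hxy
  rw [abs_sub_comm, abs_of_nonneg h1]
  refine h2.trans ?_
  have h3 : 1 / ε ≤ Real.log (1 + x) := by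
    rw [Real.le_log_iff_exp_le (by linarith)]
    linarith
  have h4 := log_sub_le (show 0 < 1 + x by linarith) (show 1 + x ≤ 1 + y by linarith)
  have h5 : (1 + y - (1 + x)) / (1 + x) ≤ 1 := by
    rw [div_le_one (by linarith)]
    linarith
  have h6 : 0 < 1 / ε := by positivity
  rw [div_le_iff₀ (by linarith)]
  have h7 : 1 ≤ ε * Real.log (1 + x) := by
    rw [div_le_iff₀ hε] at h3
    linarith
  nlinarith

lemma hh_slow (ε : ℝ) (hε : 0 < ε) : ∃ C : ℝ, 0 < C ∧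
    ∀ L, C ≤ L → ∀ x, L / 2 ≤ x → x ≤ 2 * L → |hh x - hh L| ≤ ε := by
  refine ⟨2 * Real.exp (1 / ε), by positivity, ?_⟩
  intro L hL x hx1 hx2
  have he := Real.exp_pos (1 / ε)
  rcases le_total x L with h | h
  · exact hh_slow_aux hε (by linarith) h (by linarith)
  · rw [abs_sub_comm]
    exact hh_slow_aux hε (by linarith) h hx2

lemma hh_value (θ : ℝ) (hθ : 0 ≤ θ) : ∃ ρ : ℝ, θ ≤ ρ ∧ hh ρ = Real.sin θ := by
  have h1 : θ + 1 ≤ Real.exp θ := Real.add_one_le_exp θ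
  have h2 : (Real.exp θ - 1) + 1 ≤ Real.exp (Real.exp θ - 1) := Real.add_one_le_exp _
  refine ⟨Real.exp (Real.exp θ - 1) - 1, by linarith, ?_⟩
  unfold hh
  rw [gg_of_nonneg (by linarith)]
  congr 1
  have : 1 + (Real.exp (Real.exp θ - 1) - 1) = Real.exp (Real.exp θ - 1) := by ring
  rw [this, Real.log_exp]
  have : 1 + (Real.exp θ - 1) = Real.exp θ := by ring
  rw [this, Real.log_exp]

lemma hh_one (B : ℝ) : ∃ ρ : ℝ, B ≤ ρ ∧ hh ρ = 1 := by
  obtain ⟨k, hk⟩ := exists_nat_ge B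
  obtain ⟨ρ, h1, h2⟩ := hh_value (Real.pi / 2 + k * (2 * Real.pi)) (by positivity)
  refine ⟨ρ, ?_, ?_⟩
  · refine le_trans ?_ h1
    have hpi := Real.pi_gt_three
    have hk0 : (0 : ℝ) ≤ k := by positivity
    nlinarith
  · rw [h2, Real.sin_add_nat_mul_two_pi, Real.sin_pi_div_two]

lemma hh_neg_one (B : ℝ) : ∃ ρ : ℝ, B ≤ ρ ∧ hh ρ = -1 := by
  obtain ⟨k, hk⟩ := exists_nat_ge B
  obtain ⟨ρ, h1, h2⟩ := hh_value (Real.pi + Real.pi / 2 + k * (2 * Real.pi)) (by positivity)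
  refine ⟨ρ, ?_, ?_⟩
  · refine le_trans ?_ h1
    have hpi := Real.pi_gt_three
    have hk0 : (0 : ℝ) ≤ k := by positivity
    nlinarith
  · rw [h2, Real.sin_add_nat_mul_two_pi, add_comm, Real.sin_add_pi, Real.sin_pi_div_two]

/-- the generating sequence -/
noncomputable def FF (n : ℕ) : ℝ := hh (NN n)

lemma abs_FF_le (n : ℕ) : |FF n| ≤ 1 := abs_hh_le _

lemma FF_recur (m k : ℕ) : |FF (m + k) - FF m| ≤ NN k := by
  unfold FF
  refine (hh_lip _ _ (NN_nonneg _) (NN_nonneg _)).trans ?_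
  push_cast
  exact abs_NN_add_sub _ _

lemma FF_const (c : ℝ) (hc : ∀ B : ℝ, ∃ ρ : ℝ, B ≤ ρ ∧ hh ρ = c) (K : ℕ) (tol : ℝ)
    (htol : 0 < tol) : ∃ m : ℕ, ∀ t < K, |c - FF (m + t)| < tol := by
  obtain ⟨C, hC, hslow⟩ := hh_slow (tol / 2) (by positivity)
  set B : ℝ := ∑ t ∈ Finset.range K, NN t + NN 1 with hB
  obtain ⟨ρ, hρ, hρc⟩ := hc (max C (2 * B))
  have hρC : C ≤ ρ := (le_max_left _ _).trans hρ
  have hρB : 2 * B ≤ ρ := (le_max_right _ _).trans hρ
  obtain ⟨m, hm⟩ := NN_level ρ (hC.le.trans hρC)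
  refine ⟨m, ?_⟩
  intro t ht
  have h1 : NN t ≤ ∑ t ∈ Finset.range K, NN t :=
    Finset.single_le_sum (f := fun t : ℕ => NN t) (fun i _ => NN_nonneg _)
      (Finset.mem_range.mpr ht)
  have h2 := abs_NN_add_sub m t
  rw [abs_le] at h2 hm
  have h3 := hslow ρ hρC (NN ((m : ℝ) + t)) (by linarith [h2.1, hm.1]) (by linarith [h2.2, hm.2])
  rw [hρc] at h3
  unfold FF
  rw [abs_sub_comm]
  push_cast
  linarith

/-- The counting bound for the sequence `FF`. -/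
lemma FF_count (ε : ℝ) (hε : 0 < ε) : ∃ A d : ℕ, ∀ (κ : Type) [Fintype κ] (a : κ → ℕ)
    (ι : Type) (s : Finset ι) (m : ι → ℕ),
    (∀ x ∈ s, ∀ y ∈ s, x ≠ y → ∃ i, ε ≤ |FF (m x + a i) - FF (m y + a i)|) →
    s.card ≤ A * (Fintype.card κ + 1) ^ d := by
  obtain ⟨A, d, h⟩ := count HH hh abs_hh_le hh_lip hh_slow ε hε
  refine ⟨A, d, ?_⟩
  intro κ _ a ι s m hsep
  refine h κ (fun i => bb (-(a i : ℝ))) ι s (fun x => bb (m x)) ?_
  intro x hx y hy hxy
  obtain ⟨i, hi⟩ := hsep x hx y hy hxy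
  refine ⟨i, ?_⟩
  have e : ∀ n : ℕ, hh ‖bb (n : ℝ) - bb (-(a i : ℝ))‖ = FF (n + a i) := by
    intro n
    rw [norm_bb_sub, sub_neg_eq_add]
    unfold FF NN
    push_cast
    rfl
  rw [e, e]
  exact hi

end Pool.Agent.Helper41.Null
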