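import Mathlib
import Pool.Agent.Helper41.NullOsc

set_option autoImplicit false

namespace Pool.Agent.Helper41.Null

open Filter Topology

/-- the orbit closure of `FF` under the shift -/
def XS : Set (ℕ → ℝ) :=
  {x | ∀ K : ℕ, ∀ tol : ℝ, 0 < tol → ∃ m : ℕ, ∀ t < K, |x t - FF (m + t)| < tol}

lemma XS_closed : IsClosed XS := by
  rw [← closure_subset_iff_isClosed]
  intro y hy K tol htol
  have hopen : IsOpen {z : ℕ → ℝ | ∀ t < K, |z t - y t| < tol / 2} := by
    have : {z : ℕ → ℝ | ∀ t < K, |z t - y t| < tol / 2} =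
        ⋂ t ∈ Finset.range K, {z : ℕ → ℝ | |z t - y t| < tol / 2} := by
      ext z
      simp
    rw [this]
    apply isOpen_biInter_finset
    intro t _
    exact isOpen_lt (((continuous_apply t).sub continuous_const).abs) continuous_const
  rw [mem_closure_iff] at hy
  obtain ⟨x, hx1, hx2⟩ := hy _ hopen (by
    intro t _
    simp only [sub_self, abs_zero]
    positivity)
  obtain ⟨m, hm⟩ := hx2 K (tol / 2) (by positivity)
  refine ⟨m, ?_⟩
  intro t ht
  have h1 := hx1 t ht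
  have h2 := hm t ht
  have : y t - FF (m + t) = -(x t - y t) + (x t - FF (m + t)) := by ring
  rw [this]
  refine (abs_add_le _ _).trans_lt ?_
  rw [abs_neg]
  linarith

lemma XS_bound {x : ℕ → ℝ} (hx : x ∈ XS) (t : ℕ) : x t ∈ Set.Icc (-2 : ℝ) 2 := by
  obtain ⟨m, hm⟩ := hx (t + 1) 1 one_pos
  have h1 := hm t (Nat.lt_succ_self t)
  have h2 := abs_FF_le (m + t)
  rw [abs_lt] at h1
  rw [abs_le] at h2
  constructor <;> linarith [h1.1, h1.2, h2.1, h2.2]

lemma XS_compact : IsCompact XS := by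
  have h : IsCompact (Set.pi Set.univ (fun _ : ℕ => Set.Icc (-2 : ℝ) 2)) :=
    isCompact_univ_pi (fun _ => isCompact_Icc)
  refine h.of_isClosed_subset XS_closed ?_
  intro x hx t _
  exact XS_bound hx t

/-- the phase space -/
def XX : Type := ↥XS

noncomputable instance instMetricXX : MetricSpace XX :=
  letI : MetricSpace (ℕ → ℝ) := PiCountable.metricSpace
  inferInstanceAs (MetricSpace ↥XS)

instance instCompactXX : CompactSpace XX := by
  have h : CompactSpace ↥XS := isCompact_iff_compactSpace.mp XS_compact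
  exact h

lemma XX_dist (x y : XX) : dist x y = ∑' i : ℕ, min ((2 : ℝ)⁻¹ ^ i) (|x.1 i - y.1 i|) := rfl

lemma XX_summable (x y : XX) : Summable (fun i : ℕ => min ((2 : ℝ)⁻¹ ^ i) (|x.1 i - y.1 i|)) := by
  refine Summable.of_nonneg_of_le (fun i => by positivity) (fun i => min_le_left _ _) ?_
  exact summable_geometric_of_lt_one (by norm_num) (by norm_num)

lemma XX_dist_small (ε : ℝ) (hε : 0 < ε) : ∃ M : ℕ, 0 < M ∧ ∃ ε' : ℝ, 0 < ε' ∧
    ∀ x y : XX, (∀ t < M, |x.1 t - y.1 t| < ε') → dist x y < ε := by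
  obtain ⟨M, hM⟩ := exists_pow_lt_of_lt_one (show 0 < ε / 4 by positivity)
    (show (2 : ℝ)⁻¹ < 1 by norm_num)
  refine ⟨M + 1, Nat.succ_pos _, ε / (2 * (M + 1)), by positivity, ?_⟩
  intro x y h
  rw [XX_dist, ← (XX_summable x y).sum_add_tsum_nat_add (M + 1)]
  have h1 : ∑ i ∈ Finset.range (M + 1), min ((2 : ℝ)⁻¹ ^ i) (|x.1 i - y.1 i|) ≤ ε / 2 := by
    calc ∑ i ∈ Finset.range (M + 1), min ((2 : ℝ)⁻¹ ^ i) (|x.1 i - y.1 i|)
        ≤ ∑ _i ∈ Finset.range (M + 1), ε / (2 * (M + 1)) := by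
          apply Finset.sum_le_sum
          intro i hi
          exact (min_le_right _ _).trans (h i (Finset.mem_range.mp hi)).le
      _ = ε / 2 := by
          rw [Finset.sum_const, Finset.card_range, nsmul_eq_mul]
          push_cast
          field_simp
  have h2 : ∑' i : ℕ, min ((2 : ℝ)⁻¹ ^ (i + (M + 1))) (|x.1 (i + (M + 1)) - y.1 (i + (M + 1))|) ≤
      (2 : ℝ)⁻¹ ^ M := by
    have hs := (summable_nat_add_iff (M + 1)).mpr (XX_summable x y)
    have hg : HasSum (fun i : ℕ => (2 : ℝ)⁻¹ ^ (M + 1) * (2 : ℝ)⁻¹ ^ i)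
        ((2 : ℝ)⁻¹ ^ (M + 1) * (1 - 2⁻¹)⁻¹) :=
      (hasSum_geometric_of_lt_one (by norm_num) (by norm_num)).mul_left _
    have h3 := hs.tsum_le_tsum (g := fun i : ℕ => (2 : ℝ)⁻¹ ^ (M + 1) * (2 : ℝ)⁻¹ ^ i)
      (fun i => by
        refine (min_le_left _ _).trans (le_of_eq ?_)
        rw [pow_add]
        ring) hg.summable
    rw [hg.tsum_eq] at h3
    refine h3.trans (le_of_eq ?_)
    rw [pow_succ]
    have : (1 - (2 : ℝ)⁻¹)⁻¹ = 2 := by norm_num
    rw [this]
    ring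
  linarith

lemma XX_coord (x y : XX) : min 1 |x.1 0 - y.1 0| ≤ dist x y := by
  have h := (XX_summable x y).le_tsum 0 (fun j _ => by positivity)
  rw [XX_dist]
  simpa using h

/-- the shift -/
def TT (x : XX) : XX :=
  ⟨fun t => x.1 (t + 1), by
    intro K tol htol
    obtain ⟨m, hm⟩ := x.2 (K + 1) tol htol
    refine ⟨m + 1, ?_⟩
    intro t ht
    have := hm (t + 1) (by omega)
    have e : m + (t + 1) = m + 1 + t := by ring
    rwa [e] at this⟩

lemma TT_coord (x : XX) (t : ℕ) : (TT x).1 t = x.1 (t + 1) := rfl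

lemma TT_iter (n : ℕ) (x : XX) (t : ℕ) : (TT^[n] x).1 t = x.1 (n + t) := by
  induction n generalizing x t with
  | zero => simp
  | succ n ih =>
    rw [Function.iterate_succ_apply, ih, TT_coord]
    ring_nf

lemma TT_continuous : Continuous TT := by
  have h1 : Continuous (fun x : ↥XS => (⟨fun t => x.1 (t + 1), (TT x).2⟩ : ↥XS)) := by
    refine Continuous.subtype_mk ?_ _
    exact continuous_pi (fun t => (continuous_apply (t + 1)).comp continuous_subtype_val)
  exact h1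

/-- points of the orbit -/
noncomputable def oo (m : ℕ) : XX :=
  ⟨fun t => FF (m + t), by
    intro K tol htol
    exact ⟨m, fun t _ => by simpa using htol⟩⟩

lemma oo_coord (m t : ℕ) : (oo m).1 t = FF (m + t) := rfl

lemma TT_oo (n m : ℕ) : TT^[n] (oo m) = oo (m + n) := by
  apply Subtype.ext
  funext t
  rw [TT_iter, oo_coord, oo_coord]
  congr 1
  ring

lemma oo_dense (x : XX) (ε : ℝ) (hε : 0 < ε) : ∃ m, dist x (oo m) < ε := by
  obtain ⟨M, -, ε', hε', h⟩ := XX_dist_small ε hε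
  obtain ⟨m, hm⟩ := x.2 M ε' hε'
  exact ⟨m, h _ _ hm⟩

lemma oo_recur (m : ℕ) (ε : ℝ) (hε : 0 < ε) (B : ℕ) :
    ∃ k, B < k ∧ dist (oo m) (oo (m + k)) < ε := by
  obtain ⟨M, -, ε', hε', h⟩ := XX_dist_small ε hε
  obtain ⟨i, hi, hB⟩ := NN_kk_small ε' hε' B
  refine ⟨kk i, hB, h _ _ ?_⟩
  intro t _
  rw [oo_coord, oo_coord, abs_sub_comm]
  have e : m + kk i + t = (m + t) + kk i := by ring
  rw [e]
  exact (FF_recur _ _).trans_lt hi

lemma TT_transitive (U V : Set XX) (hU : IsOpen U) (hV : IsOpen V) (hU' : U.Nonempty)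
    (hV' : V.Nonempty) : ∃ n : ℕ, 1 ≤ n ∧ (V ∩ TT^[n] ⁻¹' U).Nonempty := by
  obtain ⟨x, hx⟩ := hU'
  obtain ⟨y, hy⟩ := hV'
  obtain ⟨ε, hε, hεU⟩ := Metric.isOpen_iff.mp hU x hx
  obtain ⟨δ, hδ, hδV⟩ := Metric.isOpen_iff.mp hV y hy
  obtain ⟨m, hm⟩ := oo_dense x (ε / 2) (by positivity)
  obtain ⟨m', hm'⟩ := oo_dense y δ hδ
  obtain ⟨k, hk, hk'⟩ := oo_recur m (ε / 2) (by positivity) m'
  refine ⟨m + k - m', by omega, oo m', ?_, ?_⟩
  · apply hδV
    rw [Metric.mem_ball, dist_comm]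
    exact hm'
  · rw [Set.mem_preimage, TT_oo]
    have e : m' + (m + k - m') = m + k := by omega
    rw [e]
    apply hεU
    rw [Metric.mem_ball, dist_comm]
    have := dist_triangle x (oo m) (oo (m + k))
    linarith

lemma poly_le_exp (A d M : ℕ) (δ : ℝ) (hδ : 0 < δ) :
    ∀ᶠ n : ℕ in atTop, ((A * (n * M + 1) ^ d : ℕ) : ℝ) ≤ Real.exp (δ * n) := by
  have h1 : Tendsto (fun x : ℝ => x ^ d / Real.exp (δ * x)) atTop (𝓝 0) := by
    have := (isLittleO_pow_exp_pos_mul_atTop d hδ).tendsto_div_nhds_zero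
    exact this
  have h2 : Tendsto (fun n : ℕ => ((n : ℝ)) ^ d / Real.exp (δ * n)) atTop (𝓝 0) :=
    h1.comp tendsto_natCast_atTop_atTop
  have hc : (0 : ℝ) < 1 / ((A : ℝ) * (M + 1) ^ d + 1) := by positivity
  have h3 := h2.eventually (gt_mem_nhds hc)
  filter_upwards [h3, eventually_ge_atTop 1] with n hn hn1
  have he := Real.exp_pos (δ * n)
  rw [div_lt_div_iff₀ he (by positivity), one_mul] at hn
  have h4 : ((n * M + 1 : ℕ) : ℝ) ≤ (M + 1) * n := by
    push_cast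
    have : (1 : ℝ) ≤ n := by exact_mod_cast hn1
    nlinarith
  push_cast at h4 ⊢
  calc (A : ℝ) * (n * M + 1) ^ d ≤ A * ((M + 1) * n) ^ d := by gcongr
    _ = n ^ d * (A * (M + 1) ^ d) := by rw [mul_pow]; ring
    _ ≤ n ^ d * (A * (M + 1) ^ d + 1) := by
      apply mul_le_mul_of_nonneg_left _ (by positivity)
      linarith
    _ ≤ Real.exp (δ * n) := hn.le

lemma TT_null (a : ℕ → ℕ) (_ha : StrictMono a) (ε : ℝ) (hε : 0 < ε) (δ : ℝ) (hδ : 0 < δ) :
    ∀ᶠ n in atTop, ∀ F : Finset XX,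
      (∀ x ∈ F, ∀ y ∈ F, x ≠ y → ∃ i < n, ε ≤ dist (TT^[a i] x) (TT^[a i] y)) →
      (F.card : ℝ) ≤ Real.exp (δ * n) := by
  obtain ⟨M, hMpos, ε', hε', hM⟩ := XX_dist_small ε hε
  obtain ⟨A, d, hcount⟩ := FF_count (ε' / 2) (by positivity)
  filter_upwards [poly_le_exp A d M δ hδ] with n hn F hF
  refine le_trans ?_ hn
  rw [Nat.cast_le]
  -- approximating orbit points
  set K : ℕ := ∑ i ∈ Finset.range n, (a i + M) with hK
  have hchoose : ∀ x : XX, ∃ m : ℕ, ∀ t < K, |x.1 t - FF (m + t)| < ε' / 4 :=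
    fun x => x.2 K (ε' / 4) (by positivity)
  choose m hm using hchoose
  have h := hcount (Fin n × Fin M) (fun p => a p.1 + p.2) XX F m ?_
  · simpa using h
  intro x hx y hy hxy
  obtain ⟨i, hi, hdist⟩ := hF x hx y hy hxy
  have hex : ∃ t < M, ε' ≤ |(TT^[a i] x).1 t - (TT^[a i] y).1 t| := by
    by_contra hcon
    push Not at hcon
    have := hM _ _ hcon
    linarith
  obtain ⟨t, ht, h1⟩ := hex
  rw [TT_iter, TT_iter] at h1
  refine ⟨(⟨i, hi⟩, ⟨t, ht⟩), ?_⟩
  simp only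
  have hlt : a i + t < K := by
    have : a i + M ≤ K := by
      rw [hK]
      exact Finset.single_le_sum (f := fun i => a i + M) (fun i _ => Nat.zero_le _)
        (Finset.mem_range.mpr hi)
    omega
  have h2 := hm x (a i + t) hlt
  have h3 := hm y (a i + t) hlt
  have e : x.1 (a i + t) - y.1 (a i + t) =
      (x.1 (a i + t) - FF (m x + (a i + t))) + (FF (m x + (a i + t)) - FF (m y + (a i + t))) -
      (y.1 (a i + t) - FF (m y + (a i + t))) := by ring
  rw [e] at h1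
  have h4 := abs_sub ((x.1 (a i + t) - FF (m x + (a i + t))) +
    (FF (m x + (a i + t)) - FF (m y + (a i + t)))) (y.1 (a i + t) - FF (m y + (a i + t)))
  have h5 := abs_add_le (x.1 (a i + t) - FF (m x + (a i + t)))
    (FF (m x + (a i + t)) - FF (m y + (a i + t)))
  linarith

/-- the constant sequences -/
noncomputable def cc (c : ℝ) (hc : ∀ B : ℝ, ∃ ρ : ℝ, B ≤ ρ ∧ hh ρ = c) : XX :=
  ⟨fun _ => c, fun K tol htol => FF_const c hc K tol htol⟩

lemma TT_cc (c : ℝ) (hc) (n : ℕ) : TT^[n] (cc c hc) = cc c hc := by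
  apply Subtype.ext
  funext t
  rw [TT_iter]
  rfl

lemma TT_not_mean :
    ¬ (∀ ε : ℝ, 0 < ε → ∃ δ : ℝ, 0 < δ ∧ ∀ x y : XX, dist x y < δ →
        ∀ᶠ n in atTop,
          (∑ i ∈ Finset.range n, dist (TT^[i] x) (TT^[i] y)) / (n : ℝ) < ε) := by
  intro hmean
  set p : XX := cc 1 hh_one with hp
  set q : XX := cc (-1) hh_neg_one with hq
  have hpq : 1 ≤ dist p q := by
    have := XX_coord p q
    have e : |p.1 0 - q.1 0| = 2 := by
      show |(1 : ℝ) - (-1)| = 2
      norm_num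
    rw [e] at this
    norm_num at this
    exact this
  obtain ⟨δ, hδ, h⟩ := hmean (1 / 4) (by norm_num)
  obtain ⟨m, hm⟩ := oo_dense p δ hδ
  obtain ⟨m', hm'⟩ := oo_dense q (δ / 2) (by positivity)
  obtain ⟨k, hk, hk'⟩ := oo_recur m' (δ / 2) (by positivity) m
  have hq2 : dist q (oo (m' + k)) < δ := by
    have := dist_triangle q (oo m') (oo (m' + k))
    linarith
  obtain ⟨l, hl⟩ : ∃ l, m' + k = m + l := ⟨m' + k - m, by omega⟩
  rw [hl] at hq2
  have h1 := h p (oo m) hm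
  have h2 := h q (oo (m + l)) hq2
  have h1' : ∀ᶠ n : ℕ in atTop,
      (∑ i ∈ Finset.range (n + l), dist (TT^[i] p) (TT^[i] (oo m))) / ((n + l : ℕ) : ℝ) < 1 / 4 := by
    exact (tendsto_add_atTop_nat l).eventually h1
  obtain ⟨n, hn1, hn2, hn3⟩ := (h1'.and (h2.and (eventually_ge_atTop (l + 1)))).exists
  have hnpos : (0 : ℝ) < n := by
    have : 0 < n := by omega
    exact_mod_cast this
  rw [div_lt_iff₀ (by push_cast; positivity)] at hn1
  rw [div_lt_iff₀ hnpos] at hn2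
  have e1 : ∑ i ∈ Finset.range n, dist (TT^[l + i] p) (TT^[l + i] (oo m)) ≤
      ∑ i ∈ Finset.range (n + l), dist (TT^[i] p) (TT^[i] (oo m)) := by
    rw [add_comm n l, Finset.sum_range_add]
    have : 0 ≤ ∑ i ∈ Finset.range l, dist (TT^[i] p) (TT^[i] (oo m)) :=
      Finset.sum_nonneg (fun _ _ => dist_nonneg)
    linarith
  have e2 : (n : ℝ) ≤ ∑ i ∈ Finset.range n, dist (TT^[l + i] p) (TT^[l + i] (oo m)) +
      ∑ i ∈ Finset.range n, dist (TT^[i] q) (TT^[i] (oo (m + l))) := by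
    rw [← Finset.sum_add_distrib]
    calc (n : ℝ) = ∑ _i ∈ Finset.range n, (1 : ℝ) := by simp
      _ ≤ _ := by
        apply Finset.sum_le_sum
        intro i _
        have e3 : TT^[l + i] p = p := TT_cc _ _ _
        have e4 : TT^[i] q = q := TT_cc _ _ _
        have e5 : TT^[l + i] (oo m) = TT^[i] (oo (m + l)) := by
          rw [TT_oo, TT_oo]
          congr 1
          ring
        rw [e3, e4, e5]
        have := dist_triangle_right p q (TT^[i] (oo (m + l)))
        linarith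
  push_cast at hn1
  have hl' : (l : ℝ) + 1 ≤ n := by exact_mod_cast hn3
  linarith

end Pool.Agent.Helper41.Null
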